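import Mathlib
import Pool.Agent.H410R2.MSieve2
import Pool.Agent.Helper256.KM.Mertens

/-! Project RO: the mass of a thin band of colourings. -/

set_option autoImplicit false

namespace Pool.Agent.Y827.RO

open Finset
open Pool.Agent.H410R2

section
variable {ι J : Type} [Fintype ι] [DecidableEq ι] [Fintype J] [DecidableEq J]

theorem upd_tot (pr : ι → ℕ) (A : Finset J) (σ : ι → Option J) (t : ι) (j : J) (hj : j ∈ A)
    (ht : σ t = some j) :
    ∑ l ∈ A, lg pr (fib σ l) =
      ∑ l ∈ A, lg pr (fib (Function.update σ t none) l) + Real.log (pr t) := by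
  have h : ∀ l : J, lg pr (fib σ l) = lg pr (fib (Function.update σ t none) l) +
      (if l = j then Real.log (pr t) else 0) := by
    intro l
    unfold lg
    by_cases hl : l = j
    · subst hl
      rw [if_pos rfl]
      have e : fib σ l = insert t (fib (Function.update σ t none) l) := by
        ext s
        unfold fib
        simp only [Finset.mem_filter, Finset.mem_univ, true_and, Finset.mem_insert]
        by_cases hs : s = t
        · subst hs; simp [ht]
        · simp [Function.update_of_ne hs, hs]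
      have e2 : t ∉ fib (Function.update σ t none) l := by
        unfold fib
        simp
      rw [e, Finset.sum_insert e2]
      ring
    · rw [if_neg hl, add_zero]
      have e : fib σ l = fib (Function.update σ t none) l := by
        ext s
        unfold fib
        simp only [Finset.mem_filter, Finset.mem_univ, true_and]
        by_cases hs : s = t
        · subst hs
          simp only [Function.update_self, ht]
          constructor
          · intro h1
            exact absurd (Option.some.inj h1).symm hl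
          · intro h1
            exact absurd h1 (by simp)
        · rw [Function.update_of_ne hs]
      rw [e]
  rw [Finset.sum_congr rfl fun l _ => h l, Finset.sum_add_distrib]
  congr 1
  rw [Finset.sum_ite_eq' A j]
  rw [if_pos hj]

theorem upd_mulc (pr : ι → ℕ) (f : ℕ → ℝ) (σ : ι → Option J) (t : ι) (j : J)
    (ht : σ t = some j) :
    mulc pr f σ = mulc pr f (Function.update σ t none) * f (pr t) := by
  unfold mulc
  rw [← Finset.mul_prod_erase univ _ (Finset.mem_univ t),
    ← Finset.mul_prod_erase univ (fun s => if Function.update σ t none s = none then (1 : ℝ) else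
      f (pr s)) (Finset.mem_univ t)]
  have e : ∀ s ∈ (univ : Finset ι).erase t, (if Function.update σ t none s = none then (1 : ℝ) else
      f (pr s)) = if σ s = none then 1 else f (pr s) := by
    intro s hs
    rw [Function.update_of_ne (Finset.ne_of_mem_erase hs)]
  rw [Finset.prod_congr rfl e]
  simp only [ht, Function.update_self, reduceCtorEq, if_false, if_true]
  ring

theorem mulc_nn (pr : ι → ℕ) (f : ℕ → ℝ) (hf : ∀ t, 0 ≤ f (pr t)) (σ : ι → Option J) :
    0 ≤ mulc pr f σ := by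
  unfold mulc
  exact Finset.prod_nonneg fun t _ => by
    split_ifs
    · exact zero_le_one
    · exact hf t

open Classical in
/-- **The mass of a band.** -/
theorem band (pr : ι → ℕ) (f : ℕ → ℝ) (hf : ∀ t, 0 ≤ f (pr t)) (A : Finset J)
    (S : Finset (ι → Option J)) (hS : ∀ σ ∈ S, ∀ t, Function.update σ t none ∈ S)
    (X x Cw : ℝ)
    (hC : ∀ u : ℝ, ∑ t ∈ univ.filter (fun t => u < Real.log (pr t) ∧ Real.log (pr t) ≤ u + x),
      f (pr t) * Real.log (pr t) ≤ Cw) :
    (X - x) * ∑ σ ∈ S.filter (fun σ => X - x < ∑ j ∈ A, lg pr (fib σ j) ∧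
      ∑ j ∈ A, lg pr (fib σ j) ≤ X), mulc pr f σ ≤ A.card * Cw * ∑ σ ∈ S, mulc pr f σ := by
  obtain ⟨B, hB⟩ : ∃ B : Finset (ι → Option J), B = S.filter (fun σ =>
    X - x < ∑ j ∈ A, lg pr (fib σ j) ∧ ∑ j ∈ A, lg pr (fib σ j) ≤ X) := ⟨_, rfl⟩
  rw [← hB]
  have hBm : ∀ σ ∈ B, σ ∈ S ∧ X - x < ∑ j ∈ A, lg pr (fib σ j) ∧
      ∑ j ∈ A, lg pr (fib σ j) ≤ X := by
    intro σ hσ
    rw [hB, Finset.mem_filter] at hσ
    exact hσ
  have hlg : ∀ t, 0 ≤ Real.log (pr t) := fun t => Real.log_natCast_nonneg _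
  -- step 1
  have h1 : (X - x) * ∑ σ ∈ B, mulc pr f σ ≤ ∑ σ ∈ B, mulc pr f σ * ∑ j ∈ A, lg pr (fib σ j) := by
    rw [Finset.mul_sum]
    refine Finset.sum_le_sum fun σ hσ => ?_
    rw [mul_comm]
    exact mul_le_mul_of_nonneg_left (hBm σ hσ).2.1.le (mulc_nn pr f hf σ)
  have h2 : ∑ σ ∈ B, mulc pr f σ * ∑ j ∈ A, lg pr (fib σ j) =
      ∑ j ∈ A, ∑ t, ∑ σ ∈ B.filter (fun σ => σ t = some j), mulc pr f σ * Real.log (pr t) := by
    have e1 : ∀ σ ∈ B, mulc pr f σ * ∑ j ∈ A, lg pr (fib σ j) =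
        ∑ j ∈ A, ∑ t, if σ t = some j then mulc pr f σ * Real.log (pr t) else 0 := by
      intro σ _
      rw [Finset.mul_sum]
      refine Finset.sum_congr rfl fun j _ => ?_
      unfold lg fib
      rw [Finset.mul_sum, Finset.sum_filter]
    rw [Finset.sum_congr rfl e1, Finset.sum_comm]
    refine Finset.sum_congr rfl fun j _ => ?_
    rw [Finset.sum_comm]
    refine Finset.sum_congr rfl fun t _ => ?_
    rw [Finset.sum_filter]
  have h3 : ∀ j ∈ A, ∀ t, ∑ σ ∈ B.filter (fun σ => σ t = some j),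
      mulc pr f σ * Real.log (pr t) ≤ ∑ σ ∈ S, if X - x - ∑ j ∈ A, lg pr (fib σ j) <
        Real.log (pr t) ∧ Real.log (pr t) ≤ X - x - ∑ j ∈ A, lg pr (fib σ j) + x then
        mulc pr f σ * (f (pr t) * Real.log (pr t)) else 0 := by
    intro j hj t
    have e1 : ∑ σ ∈ B.filter (fun σ => σ t = some j), mulc pr f σ * Real.log (pr t) =
        ∑ σ ∈ (B.filter (fun σ => σ t = some j)).image (fun σ => Function.update σ t none),
          mulc pr f σ * (f (pr t) * Real.log (pr t)) := by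
      rw [Finset.sum_image]
      · refine Finset.sum_congr rfl fun σ hσ => ?_
        rw [upd_mulc pr f σ t j (Finset.mem_filter.1 hσ).2]
        ring
      · intro σ hσ τ hτ h
        have hs := (Finset.mem_filter.1 (Finset.mem_coe.1 hσ)).2
        have ht := (Finset.mem_filter.1 (Finset.mem_coe.1 hτ)).2
        funext s
        by_cases hst : s = t
        · subst hst; rw [hs, ht]
        · have := congrFun h s
          simpa [Function.update_of_ne hst] using this
    rw [e1, ← Finset.sum_filter]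
    refine Finset.sum_le_sum_of_subset_of_nonneg ?_ fun σ _ _ =>
      mul_nonneg (mulc_nn pr f hf σ) (mul_nonneg (hf t) (hlg t))
    intro τ hτ
    rw [Finset.mem_image] at hτ
    obtain ⟨σ, hσ, rfl⟩ := hτ
    rw [Finset.mem_filter] at hσ
    obtain ⟨hσS, hσ1, hσ2⟩ := hBm σ hσ.1
    rw [Finset.mem_filter]
    refine ⟨hS σ hσS t, ?_⟩
    rw [upd_tot pr A σ t j hj hσ.2] at hσ1 hσ2
    constructor <;> linarith
  calc (X - x) * ∑ σ ∈ B, mulc pr f σ ≤ _ := h1
    _ = _ := h2
    _ ≤ ∑ j ∈ A, ∑ t, ∑ σ ∈ S, (if X - x - ∑ j ∈ A, lg pr (fib σ j) <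
        Real.log (pr t) ∧ Real.log (pr t) ≤ X - x - ∑ j ∈ A, lg pr (fib σ j) + x then
        mulc pr f σ * (f (pr t) * Real.log (pr t)) else 0) :=
        Finset.sum_le_sum fun j hj => Finset.sum_le_sum fun t _ => h3 j hj t
    _ = ∑ j ∈ A, ∑ σ ∈ S, mulc pr f σ * ∑ t ∈ univ.filter (fun t =>
        X - x - ∑ j ∈ A, lg pr (fib σ j) < Real.log (pr t) ∧
        Real.log (pr t) ≤ X - x - ∑ j ∈ A, lg pr (fib σ j) + x),
        f (pr t) * Real.log (pr t) := by
        refine Finset.sum_congr rfl fun j _ => ?_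
        rw [Finset.sum_comm]
        refine Finset.sum_congr rfl fun σ _ => ?_
        rw [Finset.mul_sum, Finset.sum_filter]
    _ ≤ ∑ _j ∈ A, ∑ σ ∈ S, mulc pr f σ * Cw := by
        refine Finset.sum_le_sum fun j _ => Finset.sum_le_sum fun σ _ => ?_
        exact mul_le_mul_of_nonneg_left (hC _) (mulc_nn pr f hf σ)
    _ = _ := by
        rw [Finset.sum_const, nsmul_eq_mul, ← Finset.sum_mul]
        ring

end

/-- Mertens' first theorem on a window -/
theorem cheb : ∃ C : ℝ, 1 ≤ C ∧ ∀ (P : Finset ℕ), (∀ p ∈ P, p.Prime) → ∀ u x : ℝ, 0 ≤ x →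
    ∑ p ∈ P.filter (fun p : ℕ => u < Real.log p ∧ Real.log p ≤ u + x),
      (p : ℝ) / ((p : ℝ) - 1) ^ 2 * Real.log p ≤ C * (x + 1) := by
  obtain ⟨C, hC⟩ := Pool.Agent.Helper256.KM.mertens_log
  have hC0 : 0 ≤ C := (abs_nonneg _).trans (hC 1 le_rfl)
  refine ⟨4 * (2 * C + 2), by linarith, fun P hP u x hx => ?_⟩
  -- reduce to `u ≥ 0`
  obtain ⟨w, hw⟩ : ∃ w : ℝ, w = max u 0 := ⟨_, rfl⟩
  have hw0 : 0 ≤ w := by rw [hw]; exact le_max_right _ _
  have huw : u ≤ w := by rw [hw]; exact le_max_left _ _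
  have h1 : ∑ p ∈ P.filter (fun p : ℕ => u < Real.log p ∧ Real.log p ≤ u + x),
      (p : ℝ) / ((p : ℝ) - 1) ^ 2 * Real.log p ≤
      ∑ p ∈ P.filter (fun p : ℕ => w < Real.log p ∧ Real.log p ≤ w + x),
      4 * (Real.log p / p) := by
    have hsub : P.filter (fun p : ℕ => u < Real.log p ∧ Real.log p ≤ u + x) ⊆
        P.filter (fun p : ℕ => w < Real.log p ∧ Real.log p ≤ w + x) := by
      intro p hp
      rw [Finset.mem_filter] at hp ⊢
      refine ⟨hp.1, ?_, by linarith [hp.2.2]⟩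
      rw [hw]
      apply max_lt hp.2.1
      apply Real.log_pos
      exact_mod_cast (hP p hp.1).one_lt
    refine (Finset.sum_le_sum_of_subset_of_nonneg hsub ?_).trans (Finset.sum_le_sum ?_)
    · intro p hp _
      have h3 : (2 : ℝ) ≤ p := by exact_mod_cast (hP p (Finset.mem_filter.1 hp).1).two_le
      have h4 : 0 ≤ Real.log p := Real.log_natCast_nonneg _
      have h5 : (0 : ℝ) < (p : ℝ) - 1 := by linarith
      positivity
    · intro p hp
      have h3 : (2 : ℝ) ≤ p := by exact_mod_cast (hP p (Finset.mem_filter.1 hp).1).two_le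
      have h4 : 0 ≤ Real.log p := Real.log_natCast_nonneg _
      have h5 : (0 : ℝ) < (p : ℝ) - 1 := by linarith
      have h6 : (0 : ℝ) < p := by linarith
      have h7 : (p : ℝ) / ((p : ℝ) - 1) ^ 2 ≤ 4 / p := by
        rw [div_le_div_iff₀ (by positivity) h6]
        nlinarith
      calc (p : ℝ) / ((p : ℝ) - 1) ^ 2 * Real.log p ≤ 4 / p * Real.log p :=
            mul_le_mul_of_nonneg_right h7 h4
        _ = _ := by ring
  refine h1.trans ?_
  rw [← Finset.mul_sum]
  have hN1 : 1 ≤ ⌊Real.exp w⌋₊ := Nat.le_floor (by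
    rw [Nat.cast_one]; exact Real.one_le_exp hw0)
  have hN2 : ⌊Real.exp w⌋₊ ≤ ⌊Real.exp (w + x)⌋₊ :=
    Nat.floor_le_floor (Real.exp_le_exp.2 (by linarith))
  have h2 : ∑ p ∈ P.filter (fun p : ℕ => w < Real.log p ∧ Real.log p ≤ w + x), Real.log p / p ≤
      ∑ p ∈ (Finset.Icc 1 ⌊Real.exp (w + x)⌋₊).filter Nat.Prime, Real.log p / p -
      ∑ p ∈ (Finset.Icc 1 ⌊Real.exp w⌋₊).filter Nat.Prime, Real.log p / p := by
    have e : (Finset.Icc 1 ⌊Real.exp w⌋₊).filter Nat.Prime ⊆
        (Finset.Icc 1 ⌊Real.exp (w + x)⌋₊).filter Nat.Prime :=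
      Finset.filter_subset_filter _ (Finset.Icc_subset_Icc_right hN2)
    rw [← Finset.sum_sdiff e, add_sub_cancel_right]
    refine Finset.sum_le_sum_of_subset_of_nonneg ?_ fun p _ _ =>
      div_nonneg (Real.log_natCast_nonneg _) (Nat.cast_nonneg _)
    intro p hp
    rw [Finset.mem_filter] at hp
    have hpp := hP p hp.1
    have hp0 : (0 : ℝ) < p := by exact_mod_cast hpp.pos
    rw [Finset.mem_sdiff, Finset.mem_filter, Finset.mem_filter, Finset.mem_Icc, Finset.mem_Icc]
    refine ⟨⟨⟨hpp.one_lt.le, ?_⟩, hpp⟩, ?_⟩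
    · apply Nat.le_floor
      rw [← Real.log_le_iff_le_exp hp0]
      exact hp.2.2
    · rintro ⟨⟨_, h3⟩, _⟩
      have h4 : (p : ℝ) ≤ Real.exp w :=
        (by exact_mod_cast h3 : (p : ℝ) ≤ (⌊Real.exp w⌋₊ : ℝ)).trans
          (Nat.floor_le (Real.exp_pos _).le)
      rw [← Real.log_le_iff_le_exp hp0] at h4
      linarith [hp.2.1]
  have h3 := (abs_le.1 (hC ⌊Real.exp (w + x)⌋₊ (hN1.trans hN2))).2
  have h4 := (abs_le.1 (hC ⌊Real.exp w⌋₊ hN1)).1
  have h5 : Real.log (⌊Real.exp (w + x)⌋₊ : ℝ) ≤ w + x := by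
    rw [Real.log_le_iff_le_exp (by exact_mod_cast hN1.trans hN2)]
    exact Nat.floor_le (Real.exp_pos _).le
  have h6 : w - 1 ≤ Real.log (⌊Real.exp w⌋₊ : ℝ) := by
    rw [Real.le_log_iff_exp_le (by exact_mod_cast hN1), Real.exp_sub]
    have h7 := Nat.lt_floor_add_one (Real.exp w)
    have h8 : (1 : ℝ) ≤ (⌊Real.exp w⌋₊ : ℝ) := by exact_mod_cast hN1
    rw [div_le_iff₀ (Real.exp_pos 1)]
    have h9 : (2 : ℝ) ≤ Real.exp 1 := by
      have := Real.add_one_le_exp (1 : ℝ)
      linarith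
    nlinarith
  have h7 : ∑ p ∈ P.filter (fun p : ℕ => w < Real.log p ∧ Real.log p ≤ w + x), Real.log p / p ≤
      x + 1 + 2 * C := by linarith
  nlinarith

end Pool.Agent.Y827.RO
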