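import Mathlib
import Pool.Agent.Y827.RO.Band

/-! Project RO: the weights after fixing a small prime divisor of one of the forms. -/

set_option autoImplicit false

namespace Pool.Agent.Y827.RO

open Finset
open Pool.Agent.H410R2

section
variable {ι J : Type} [Fintype ι] [DecidableEq ι] [Fintype J] [DecidableEq J]

open Classical in
/-- the support of the weights -/
noncomputable def Su (pr : ι → ℕ) (o : J) (L0 Lc : ℝ) : Finset (ι → Option J) :=
  univ.filter (fun σ => lg pr (fib σ o) ≤ L0 ∧ ∑ j ∈ univ.erase o, lg pr (fib σ j) ≤ Lc)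

theorem mem_Su {pr : ι → ℕ} {o : J} {L0 Lc : ℝ} {σ : ι → Option J} : σ ∈ Su pr o L0 Lc ↔
    lg pr (fib σ o) ≤ L0 ∧ ∑ j ∈ univ.erase o, lg pr (fib σ j) ≤ Lc := by
  unfold Su
  rw [Finset.mem_filter]
  exact ⟨fun h => h.2, fun h => ⟨Finset.mem_univ _, h⟩⟩

theorem lg_upd_le (pr : ι → ℕ) (σ : ι → Option J) (t : ι) (j : J) :
    lg pr (fib (Function.update σ t none) j) ≤ lg pr (fib σ j) := by
  apply lg_mono
  intro s hs
  unfold fib at hs ⊢
  rw [Finset.mem_filter] at hs ⊢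
  refine ⟨Finset.mem_univ _, ?_⟩
  by_cases hst : s = t
  · subst hst
    rw [Function.update_self] at hs
    exact absurd hs.2 (by simp)
  · rw [Function.update_of_ne hst] at hs
    exact hs.2

theorem Su_upd {pr : ι → ℕ} {o : J} {L0 Lc : ℝ} {σ : ι → Option J} (h : σ ∈ Su pr o L0 Lc)
    (t : ι) : Function.update σ t none ∈ Su pr o L0 Lc := by
  rw [mem_Su] at h ⊢
  exact ⟨(lg_upd_le pr σ t o).trans h.1,
    (Finset.sum_le_sum fun j _ => lg_upd_le pr σ t j).trans h.2⟩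

open Classical in
theorem yr_sq (pr : ι → ℕ) (r : ι) (o q : J) (GG : J → ℝ → ℝ)
    (hG : Prof J GG) (Lc L0 Λ Ct : ℝ) (hpr : (Fintype.card J : ℝ) ≤ (pr r : ℝ) - 1)
    (hpr1 : (0 : ℝ) < (pr r : ℝ) - 1) (hΛ : 0 ≤ Λ)
    (hlip : ∀ s u, 0 ≤ s → 0 ≤ u → GG q s - GG q (s + u) ≤ Λ * u +
      (if s ≤ Ct ∧ Ct < s + u then 1 else 0))
    (hcut : ∀ s, 0 ≤ s → L0 < s → GG o s = 0) (σ' : {t : ι // t ≠ r} → Option J) :
    yr pr r q (yw pr o GG Lc) σ' ^ 2 ≤ 2 * (
      (if σ' ∈ Su (fun t : {t : ι // t ≠ r} => pr t.1) o L0 Lc then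
        Λ * Real.log (pr r) + (Fintype.card J : ℝ) / ((pr r : ℝ) - 1) else 0) +
      (if σ' ∈ (Su (fun t : {t : ι // t ≠ r} => pr t.1) o L0 Lc).filter (fun σ' =>
        Ct - Real.log (pr r) < ∑ j ∈ {q}, lg (fun t : {t : ι // t ≠ r} => pr t.1) (fib σ' j) ∧
        ∑ j ∈ {q}, lg (fun t : {t : ι // t ≠ r} => pr t.1) (fib σ' j) ≤ Ct) then 1 else 0) +
      (if σ' ∈ (Su (fun t : {t : ι // t ≠ r} => pr t.1) o L0 Lc).filter (fun σ' =>
        Lc - Real.log (pr r) < ∑ j ∈ univ.erase o,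
          lg (fun t : {t : ι // t ≠ r} => pr t.1) (fib σ' j) ∧
        ∑ j ∈ univ.erase o, lg (fun t : {t : ι // t ≠ r} => pr t.1) (fib σ' j) ≤ Lc) then 1
        else 0)) ∧
    (yr pr r q (yw pr o GG Lc) σ' ≠ 0 → σ' ∈ Su (fun t : {t : ι // t ≠ r} => pr t.1) o L0 Lc) ∧
    0 ≤ yr pr r q (yw pr o GG Lc) σ' ∧ yr pr r q (yw pr o GG Lc) σ' ≤ 2 := by
  obtain ⟨pr', hpr'⟩ : ∃ pr' : {t : ι // t ≠ r} → ℕ, pr' = fun t => pr t.1 := ⟨_, rfl⟩
  rw [← hpr']
  obtain ⟨ℓ, hℓ⟩ : ∃ ℓ : ℝ, ℓ = Real.log (pr r) := ⟨_, rfl⟩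
  have hℓ0 : 0 ≤ ℓ := by rw [hℓ]; exact Real.log_natCast_nonneg _
  rw [← hℓ]
  obtain ⟨y, hy⟩ : ∃ y : (ι → Option J) → ℝ, y = yw pr o GG Lc := ⟨_, rfl⟩
  rw [← hy]
  have hs0 : ∀ j, 0 ≤ lg pr' (fib σ' j) := fun j => lg_nonneg _ _
  have y_nn : ∀ ρ, 0 ≤ y ρ := fun ρ => by rw [hy]; exact yw_nonneg pr o GG hG Lc ρ
  have y_one : ∀ ρ, y ρ ≤ 1 := fun ρ => by rw [hy]; exact yw_le_one pr o GG hG Lc ρ
  have y_j : ∀ j, y (insC r (some j) σ') ≤ y (insC r none σ') := by
    intro j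
    rw [hy]
    apply yw_anti pr o GG hG
    intro t
    unfold insC
    by_cases ht : t = r
    · left; simp [ht]
    · right; simp [ht]
  -- the values
  have y_none : y (insC r none σ') = (∏ j, GG j (lg pr' (fib σ' j))) *
      (if ∑ j ∈ univ.erase o, lg pr' (fib σ' j) ≤ Lc then 1 else 0) := by
    rw [hy, yw, hpr']
    simp only [lg_insC_none]
  have y_q : y (insC r (some q) σ') = (∏ j, GG j (lg pr' (fib σ' j) +
      if j = q then ℓ else 0)) *
      (if ∑ j ∈ univ.erase o, (lg pr' (fib σ' j) + if j = q then ℓ else 0) ≤ Lc then 1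
        else 0) := by
    rw [hy, yw, hpr', hℓ]
    simp only [lg_insC_some]
  -- the sum of the other colours
  have hsum : (1 / ((pr r : ℝ) - 1)) * ∑ j ∈ univ.erase q, y (insC r (some j) σ') ≤
      (Fintype.card J : ℝ) / ((pr r : ℝ) - 1) * y (insC r none σ') := by
    have h1 : ∑ j ∈ univ.erase q, y (insC r (some j) σ') ≤
        (Fintype.card J : ℝ) * y (insC r none σ') := by
      calc ∑ j ∈ univ.erase q, y (insC r (some j) σ') ≤ ∑ j ∈ univ.erase q, y (insC r none σ') :=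
            Finset.sum_le_sum fun j _ => y_j j
        _ ≤ ∑ j : J, y (insC r none σ') :=
            Finset.sum_le_sum_of_subset_of_nonneg (Finset.subset_univ _) fun _ _ _ => y_nn _
        _ = _ := by rw [Finset.sum_const, Finset.card_univ, nsmul_eq_mul]
    calc (1 / ((pr r : ℝ) - 1)) * ∑ j ∈ univ.erase q, y (insC r (some j) σ')
        ≤ (1 / ((pr r : ℝ) - 1)) * ((Fintype.card J : ℝ) * y (insC r none σ')) :=
          mul_le_mul_of_nonneg_left h1 (by positivity)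
      _ = _ := by ring
  have hsum0 : 0 ≤ (1 / ((pr r : ℝ) - 1)) * ∑ j ∈ univ.erase q, y (insC r (some j) σ') :=
    mul_nonneg (by positivity) (Finset.sum_nonneg fun j _ => y_nn _)
  have hJ0 : 0 ≤ (Fintype.card J : ℝ) / ((pr r : ℝ) - 1) := by positivity
  have hJ1 : (Fintype.card J : ℝ) / ((pr r : ℝ) - 1) ≤ 1 := by
    rw [div_le_one hpr1]
    exact hpr
  have hyr : yr pr r q y σ' = y (insC r none σ') - y (insC r (some q) σ') +
      (1 / ((pr r : ℝ) - 1)) * ∑ j ∈ univ.erase q, y (insC r (some j) σ') := rfl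
  have h0 : 0 ≤ yr pr r q y σ' := by
    rw [hyr]
    have := y_j q
    linarith
  have hle : yr pr r q y σ' ≤ (y (insC r none σ') - y (insC r (some q) σ')) +
      (Fintype.card J : ℝ) / ((pr r : ℝ) - 1) * y (insC r none σ') := by
    rw [hyr]
    linarith
  have h2 : yr pr r q y σ' ≤ 2 := by
    have h3 := y_one (insC r none σ')
    have h4 := y_nn (insC r (some q) σ')
    have h5 := y_nn (insC r none σ')
    nlinarith
  by_cases hS : σ' ∈ Su pr' o L0 Lc
  · have hS' := mem_Su.1 hS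
    refine ⟨?_, fun _ => hS, h0, h2⟩
    have hsq : yr pr r q y σ' ^ 2 ≤ 2 * yr pr r q y σ' := by nlinarith
    refine hsq.trans (mul_le_mul_of_nonneg_left ?_ (by norm_num))
    refine hle.trans ?_
    rw [if_pos hS]
    have hc : (Fintype.card J : ℝ) / ((pr r : ℝ) - 1) * y (insC r none σ') ≤
        (Fintype.card J : ℝ) / ((pr r : ℝ) - 1) := by
      have := y_one (insC r none σ')
      nlinarith
    have hb1 : (0 : ℝ) ≤ (if σ' ∈ (Su pr' o L0 Lc).filter (fun σ' =>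
        Ct - ℓ < ∑ j ∈ {q}, lg pr' (fib σ' j) ∧ ∑ j ∈ {q}, lg pr' (fib σ' j) ≤ Ct) then 1
        else 0) := by split_ifs <;> norm_num
    have hb2 : (0 : ℝ) ≤ (if σ' ∈ (Su pr' o L0 Lc).filter (fun σ' =>
        Lc - ℓ < ∑ j ∈ univ.erase o, lg pr' (fib σ' j) ∧
        ∑ j ∈ univ.erase o, lg pr' (fib σ' j) ≤ Lc) then 1 else 0) := by
      split_ifs <;> norm_num
    have hΛℓ : 0 ≤ Λ * ℓ := mul_nonneg hΛ hℓ0
    by_cases hI : ∑ j ∈ univ.erase o, (lg pr' (fib σ' j) + if j = q then ℓ else 0) ≤ Lc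
    · -- both in the simplex
      rw [y_none, y_q, if_pos hS'.2, if_pos hI, mul_one, mul_one] at hle
      have e1 : ∏ j, GG j (lg pr' (fib σ' j)) =
          GG q (lg pr' (fib σ' q)) * ∏ j ∈ univ.erase q, GG j (lg pr' (fib σ' j)) :=
        (Finset.mul_prod_erase _ _ (Finset.mem_univ q)).symm
      have e2 : ∏ j, GG j (lg pr' (fib σ' j) + if j = q then ℓ else 0) =
          GG q (lg pr' (fib σ' q) + ℓ) * ∏ j ∈ univ.erase q, GG j (lg pr' (fib σ' j)) := by
        rw [← Finset.mul_prod_erase _ _ (Finset.mem_univ q), if_pos rfl]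
        congr 1
        refine Finset.prod_congr rfl fun j hj => ?_
        rw [if_neg (Finset.ne_of_mem_erase hj), add_zero]
      have hQ0 : 0 ≤ ∏ j ∈ univ.erase q, GG j (lg pr' (fib σ' j)) :=
        Finset.prod_nonneg fun j _ => hG.nonneg j _ (hs0 j)
      have hQ1 : ∏ j ∈ univ.erase q, GG j (lg pr' (fib σ' j)) ≤ 1 :=
        Finset.prod_le_one (fun j _ => hG.nonneg j _ (hs0 j)) fun j _ => hG.le_one j _ (hs0 j)
      have hd := hlip (lg pr' (fib σ' q)) ℓ (hs0 q) hℓ0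
      have hd0 : 0 ≤ GG q (lg pr' (fib σ' q)) - GG q (lg pr' (fib σ' q) + ℓ) := by
        have := hG.anti q (lg pr' (fib σ' q)) (lg pr' (fib σ' q) + ℓ) (hs0 q) (by linarith)
        linarith
      have hband : (if lg pr' (fib σ' q) ≤ Ct ∧ Ct < lg pr' (fib σ' q) + ℓ then (1 : ℝ) else 0) ≤
          (if σ' ∈ (Su pr' o L0 Lc).filter (fun σ' =>
            Ct - ℓ < ∑ j ∈ {q}, lg pr' (fib σ' j) ∧ ∑ j ∈ {q}, lg pr' (fib σ' j) ≤ Ct) then 1
            else 0) := by
        by_cases hh : lg pr' (fib σ' q) ≤ Ct ∧ Ct < lg pr' (fib σ' q) + ℓ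
        · rw [if_pos hh, if_pos]
          rw [Finset.mem_filter, Finset.sum_singleton]
          exact ⟨hS, by linarith [hh.2], hh.1⟩
        · rw [if_neg hh]
          exact hb1
      have hdiff : y (insC r none σ') - y (insC r (some q) σ') ≤ Λ * ℓ +
          (if σ' ∈ (Su pr' o L0 Lc).filter (fun σ' =>
            Ct - ℓ < ∑ j ∈ {q}, lg pr' (fib σ' j) ∧ ∑ j ∈ {q}, lg pr' (fib σ' j) ≤ Ct) then 1
            else 0) := by
        rw [y_none, y_q, if_pos hS'.2, if_pos hI, mul_one, mul_one, e1, e2, ← sub_mul]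
        calc _ ≤ (GG q (lg pr' (fib σ' q)) - GG q (lg pr' (fib σ' q) + ℓ)) * 1 :=
              mul_le_mul_of_nonneg_left hQ1 hd0
          _ ≤ _ := by linarith
      linarith
    · -- the sum leaves the simplex
      have hband : (1 : ℝ) ≤ (if σ' ∈ (Su pr' o L0 Lc).filter (fun σ' =>
        Lc - ℓ < ∑ j ∈ univ.erase o, lg pr' (fib σ' j) ∧
        ∑ j ∈ univ.erase o, lg pr' (fib σ' j) ≤ Lc) then 1 else 0) := by
        rw [if_pos]
        rw [Finset.mem_filter]
        refine ⟨hS, ?_, hS'.2⟩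
        have h3 : ∑ j ∈ univ.erase o, (lg pr' (fib σ' j) + if j = q then ℓ else 0) ≤
            ∑ j ∈ univ.erase o, lg pr' (fib σ' j) + ℓ := by
          rw [Finset.sum_add_distrib]
          have h4 : ∑ j ∈ univ.erase o, (if j = q then ℓ else 0) ≤ ℓ := by
            rw [Finset.sum_ite_eq' (univ.erase o) q]
            split_ifs <;> linarith
          linarith
        push Not at hI
        linarith
      have h3 := y_one (insC r none σ')
      have h4 := y_nn (insC r (some q) σ')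
      linarith
  · -- outside the support
    have hz : y (insC r none σ') = 0 := by
      rw [y_none]
      by_cases h3 : ∑ j ∈ univ.erase o, lg pr' (fib σ' j) ≤ Lc
      · have h4 : L0 < lg pr' (fib σ' o) := by
          by_contra hcon
          exact hS (mem_Su.2 ⟨not_lt.1 hcon, h3⟩)
        rw [Finset.prod_eq_zero (Finset.mem_univ o) (hcut _ (hs0 o) h4), zero_mul]
      · rw [if_neg h3, mul_zero]
    have hzero : yr pr r q y σ' = 0 := by
      apply le_antisymm _ h0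
      rw [hz, mul_zero, add_zero, zero_sub] at hle
      have := y_nn (insC r (some q) σ')
      linarith
    refine ⟨?_, fun h => absurd hzero h, h0, h2⟩
    rw [hzero, if_neg hS, if_neg fun h => hS (Finset.mem_filter.1 h).1,
      if_neg fun h => hS (Finset.mem_filter.1 h).1]
    norm_num

end

end Pool.Agent.Y827.RO
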