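import Mathlib
import Pool.Agent.Y827.RO.Yr

/-! Project RO: the quadratic form of the weights after fixing a small prime divisor. -/

set_option autoImplicit false

namespace Pool.Agent.Y827.RO

open Finset
open Pool.Agent.H410R2

section
variable {ι J : Type} [Fintype ι] [DecidableEq ι] [Fintype J] [DecidableEq J]

/-- one-dimensional mass -/
noncomputable def m1 (pr : ι → ℕ) (Lm : ℝ) : ℝ :=
  ∑ a : Finset ι, (∏ t ∈ a, (pr t : ℝ) / ((pr t : ℝ) - 1) ^ 2) * (if lg pr a ≤ Lm then 1 else 0)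

/-- local density -/
noncomputable def fh (p : ℕ) : ℝ := (p : ℝ) / ((p : ℝ) - 1) ^ 2

theorem fh_nn (p : ℕ) : 0 ≤ fh p := by unfold fh; positivity

theorem mass_le (pr : ι → ℕ) (o : J) (L0 Lc Lm : ℝ) (h0 : L0 ≤ Lm) (hc : Lc ≤ Lm) :
    ∑ σ ∈ Su pr o L0 Lc, mulc pr fh σ ≤ m1 pr Lm ^ Fintype.card J := by
  classical
  have h1 : ∑ σ ∈ Su pr o L0 Lc, mulc pr fh σ ≤ ∑ σ : ι → Option J,
      ∏ j, ((∏ t ∈ fib σ j, (pr t : ℝ) / ((pr t : ℝ) - 1) ^ 2) *
        (if lg pr (fib σ j) ≤ Lm then 1 else 0)) := by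
    have hnn : ∀ σ : ι → Option J, 0 ≤ ∏ j, ((∏ t ∈ fib σ j, (pr t : ℝ) / ((pr t : ℝ) - 1) ^ 2) *
        (if lg pr (fib σ j) ≤ Lm then (1 : ℝ) else 0)) := by
      intro σ
      refine Finset.prod_nonneg fun j _ => mul_nonneg (Finset.prod_nonneg fun t _ => by
        positivity) ?_
      split_ifs <;> norm_num
    refine le_trans ?_ (Finset.sum_le_sum_of_subset_of_nonneg (Finset.subset_univ
      (Su pr o L0 Lc)) fun σ _ _ => hnn σ)
    refine Finset.sum_le_sum fun σ hσ => ?_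
    obtain ⟨hs1, hs2⟩ := mem_Su.1 hσ
    have hle : ∀ j, lg pr (fib σ j) ≤ Lm := by
      intro j
      by_cases hj : j = o
      · rw [hj]; exact hs1.trans h0
      · refine le_trans ?_ (hs2.trans hc)
        exact Finset.single_le_sum (f := fun j => lg pr (fib σ j)) (fun l _ => lg_nonneg _ _)
          (Finset.mem_erase.2 ⟨hj, Finset.mem_univ j⟩)
    rw [mulc_eq]
    apply le_of_eq
    refine Finset.prod_congr rfl fun j _ => ?_
    rw [if_pos (hle j), mul_one]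
    rfl
  refine h1.trans ?_
  refine (sum_tuple_le (fun _ a => (∏ t ∈ a, (pr t : ℝ) / ((pr t : ℝ) - 1) ^ 2) *
    (if lg pr a ≤ Lm then (1 : ℝ) else 0)) fun j a => mul_nonneg (Finset.prod_nonneg fun t _ => by
        positivity) (by split_ifs <;> norm_num)).trans ?_
  rw [Finset.prod_const, Finset.card_univ]
  rfl

theorem m1_nn (pr : ι → ℕ) (Lm : ℝ) : 0 ≤ m1 pr Lm := by
  unfold m1
  exact Finset.sum_nonneg fun a _ => mul_nonneg (Finset.prod_nonneg fun t _ => by positivity)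
    (by split_ifs <;> norm_num)

theorem m1_sub (pr : ι → ℕ) (r : ι) (Lm : ℝ) :
    m1 (fun t : {t : ι // t ≠ r} => pr t.1) Lm ≤ m1 pr Lm := by
  have h := sum_sub_le r (fun a : Finset ι => (∏ t ∈ a, (pr t : ℝ) / ((pr t : ℝ) - 1) ^ 2) *
    (if lg pr a ≤ Lm then (1 : ℝ) else 0)) (fun a => mul_nonneg (Finset.prod_nonneg fun t _ => by
      positivity) (by split_ifs <;> norm_num))
  refine le_trans (le_of_eq ?_) h
  unfold m1
  refine Finset.sum_congr rfl fun a _ => ?_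
  rw [Finset.prod_map]
  have e : lg pr (a.map (Function.Embedding.subtype fun t => t ≠ r)) =
      lg (fun t : {t : ι // t ≠ r} => pr t.1) a := by
    unfold lg
    rw [Finset.sum_map]
    rfl
  rw [e]
  rfl

theorem sq_cw (pr : ι → ℕ) (hp : ∀ t, 2 ≤ pr t) (y : (ι → Option J) → ℝ) (σ : ι → Option J) :
    cw pr y σ ^ 2 * mulc pr (fun p => (p : ℝ)) σ = y σ ^ 2 * mulc pr fh σ := by
  have hp1 : ∀ t, (pr t : ℝ) - 1 ≠ 0 := by
    intro t
    have : (2 : ℝ) ≤ pr t := by exact_mod_cast hp t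
    linarith
  rw [← sq_abs (cw pr y σ), abs_cw pr hp, mul_pow, sq_abs]
  have e1 : (mulc pr (fun p => 1 / ((p : ℝ) - 1)) σ) ^ 2 * mulc pr (fun p => (p : ℝ)) σ =
      mulc pr fh σ := by
    unfold mulc fh
    rw [← Finset.prod_pow, ← Finset.prod_mul_distrib]
    refine Finset.prod_congr rfl fun t _ => ?_
    by_cases h : σ t = none
    · simp [h]
    · simp only [h, if_false]
      have := hp1 t
      field_simp
  calc _ = ((mulc pr (fun p => 1 / ((p : ℝ) - 1)) σ) ^ 2 * mulc pr (fun p => (p : ℝ)) σ) *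
        y σ ^ 2 := by ring
    _ = _ := by rw [e1]; ring

/-- **the quadratic form is small when the fixed prime is small** -/
theorem quad_le (pr : ι → ℕ) (hp : ∀ t, (pr t).Prime) (hinj : Function.Injective pr) (r : ι)
    (o q : J) (GG : J → ℝ → ℝ) (hG : Prof J GG) (Lc L0 Λ Ct C : ℝ)
    (hpr : (Fintype.card J : ℝ) ≤ (pr r : ℝ) - 1) (hΛ : 0 ≤ Λ)
    (hlip : ∀ s u, 0 ≤ s → 0 ≤ u → GG q s - GG q (s + u) ≤ Λ * u +
      (if s ≤ Ct ∧ Ct < s + u then 1 else 0))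
    (hcut : ∀ s, 0 ≤ s → L0 < s → GG o s = 0) (hC : 1 ≤ C)
    (hcheb : ∀ (P : Finset ℕ), (∀ p ∈ P, p.Prime) → ∀ u x : ℝ, 0 ≤ x →
      ∑ p ∈ P.filter (fun p : ℕ => u < Real.log p ∧ Real.log p ≤ u + x),
        (p : ℝ) / ((p : ℝ) - 1) ^ 2 * Real.log p ≤ C * (x + 1))
    (h0 : L0 ≤ Lc) (hCt : 0 < Ct) (hCL : Ct ≤ Lc) (hℓ : 2 * Real.log (pr r) ≤ Ct) :
    ∑ σ', cw (fun t : {t : ι // t ≠ r} => pr t.1) (yr pr r q (yw pr o GG Lc)) σ' ^ 2 *
      mulc (fun t : {t : ι // t ≠ r} => pr t.1) (fun p => (p : ℝ)) σ' ≤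
      2 * (Λ * Real.log (pr r) + (Fintype.card J : ℝ) / ((pr r : ℝ) - 1) +
        2 * C * ((Fintype.card J : ℝ) + 1) * (Real.log (pr r) + 1) / Ct) *
        m1 pr Lc ^ Fintype.card J := by
  classical
  have hr2 : (2 : ℝ) ≤ pr r := by exact_mod_cast (hp r).two_le
  have hpr1 : (0 : ℝ) < (pr r : ℝ) - 1 := by linarith
  obtain ⟨pr', hpr'⟩ : ∃ pr' : {t : ι // t ≠ r} → ℕ, pr' = fun t => pr t.1 := ⟨_, rfl⟩
  obtain ⟨ℓ, hℓd⟩ : ∃ ℓ : ℝ, ℓ = Real.log (pr r) := ⟨_, rfl⟩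
  have hℓ0 : 0 ≤ ℓ := by rw [hℓd]; exact Real.log_natCast_nonneg _
  rw [← hpr', ← hℓd]
  rw [← hℓd] at hℓ
  have hp2 : ∀ t, 2 ≤ pr' t := fun t => by rw [hpr']; exact (hp t.1).two_le
  -- windows
  have hw : ∀ u : ℝ, ∑ t ∈ univ.filter (fun t => u < Real.log (pr' t) ∧
      Real.log (pr' t) ≤ u + ℓ), fh (pr' t) * Real.log (pr' t) ≤ C * (ℓ + 1) := by
    intro u
    have h1 := hcheb (univ.image pr') (fun p hp' => by
      rw [Finset.mem_image] at hp'
      obtain ⟨t, _, rfl⟩ := hp'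
      rw [hpr']
      exact hp t.1) u ℓ hℓ0
    refine le_trans (le_of_eq ?_) h1
    rw [Finset.sum_filter, Finset.sum_filter, Finset.sum_image]
    · rfl
    · intro a _ b _ hab
      rw [hpr'] at hab
      exact Subtype.ext (hinj hab)
  have hf : ∀ t, 0 ≤ fh (pr' t) := fun t => fh_nn _
  obtain ⟨S, hS⟩ : ∃ S : Finset ({t : ι // t ≠ r} → Option J), S = Su pr' o L0 Lc := ⟨_, rfl⟩
  have hSu : ∀ σ ∈ S, ∀ t, Function.update σ t none ∈ S := by
    intro σ hσ t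
    rw [hS] at hσ ⊢
    exact Su_upd hσ t
  have b1 := band pr' fh hf ({q} : Finset J) S hSu Ct ℓ (C * (ℓ + 1)) hw
  have b2 := band pr' fh hf (univ.erase o : Finset J) S hSu Lc ℓ (C * (ℓ + 1)) hw
  obtain ⟨M, hM⟩ : ∃ M : ℝ, M = ∑ σ ∈ S, mulc pr' fh σ := ⟨_, rfl⟩
  rw [← hM] at b1 b2
  have hM0 : 0 ≤ M := by rw [hM]; exact Finset.sum_nonneg fun σ _ => mulc_nn pr' fh hf σ
  have hMm : M ≤ m1 pr Lc ^ Fintype.card J := by
    rw [hM, hS]
    refine (mass_le pr' o L0 Lc Lc h0 le_rfl).trans ?_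
    apply pow_le_pow_left₀ (m1_nn _ _)
    rw [hpr']
    exact m1_sub pr r Lc
  obtain ⟨B1, hB1⟩ : ∃ B1 : ℝ, B1 = ∑ σ ∈ S.filter (fun σ => Ct - ℓ < ∑ j ∈ ({q} : Finset J),
      lg pr' (fib σ j) ∧ ∑ j ∈ ({q} : Finset J), lg pr' (fib σ j) ≤ Ct), mulc pr' fh σ :=
    ⟨_, rfl⟩
  obtain ⟨B2, hB2⟩ : ∃ B2 : ℝ, B2 = ∑ σ ∈ S.filter (fun σ => Lc - ℓ < ∑ j ∈ univ.erase o,
      lg pr' (fib σ j) ∧ ∑ j ∈ univ.erase o, lg pr' (fib σ j) ≤ Lc), mulc pr' fh σ := ⟨_, rfl⟩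
  rw [← hB1] at b1
  rw [← hB2] at b2
  have hB10 : 0 ≤ B1 := by rw [hB1]; exact Finset.sum_nonneg fun σ _ => mulc_nn pr' fh hf σ
  have hB20 : 0 ≤ B2 := by rw [hB2]; exact Finset.sum_nonneg fun σ _ => mulc_nn pr' fh hf σ
  have hJ0 : (0 : ℝ) ≤ Fintype.card J := Nat.cast_nonneg _
  have c1 : B1 ≤ 2 * C * (ℓ + 1) / Ct * M := by
    rw [Finset.card_singleton, Nat.cast_one, one_mul] at b1
    have h1 : Ct / 2 * B1 ≤ C * (ℓ + 1) * M := by
      refine le_trans ?_ b1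
      exact mul_le_mul_of_nonneg_right (by linarith) hB10
    rw [div_mul_eq_mul_div, le_div_iff₀ hCt]
    linarith
  have c2 : B2 ≤ (Fintype.card J : ℝ) * (2 * C * (ℓ + 1)) / Ct * M := by
    have hcard : (((univ.erase o : Finset J).card : ℕ) : ℝ) ≤ Fintype.card J := by
      exact_mod_cast (Finset.card_le_card (Finset.erase_subset _ _)).trans (by
        rw [Finset.card_univ])
    have h1 : Ct / 2 * B2 ≤ (Fintype.card J : ℝ) * (C * (ℓ + 1)) * M := by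
      calc Ct / 2 * B2 ≤ (Lc - ℓ) * B2 := mul_le_mul_of_nonneg_right (by linarith) hB20
        _ ≤ _ := b2
        _ ≤ _ := by
            have h3 : 0 ≤ C * (ℓ + 1) := by positivity
            exact mul_le_mul_of_nonneg_right (mul_le_mul_of_nonneg_right hcard h3) hM0
    rw [div_mul_eq_mul_div, le_div_iff₀ hCt]
    linarith
  -- the sum
  have hsum : ∑ σ', cw pr' (yr pr r q (yw pr o GG Lc)) σ' ^ 2 *
      mulc pr' (fun p => (p : ℝ)) σ' ≤ 2 * ((Λ * ℓ + (Fintype.card J : ℝ) / ((pr r : ℝ) - 1)) * M +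
        B1 + B2) := by
    have hpt : ∀ σ' : {t : ι // t ≠ r} → Option J,
        cw pr' (yr pr r q (yw pr o GG Lc)) σ' ^ 2 * mulc pr' (fun p => (p : ℝ)) σ' ≤
        2 * ((if σ' ∈ S then Λ * ℓ + (Fintype.card J : ℝ) / ((pr r : ℝ) - 1) else 0) *
          mulc pr' fh σ' + (if σ' ∈ S.filter (fun σ => Ct - ℓ < ∑ j ∈ ({q} : Finset J),
          lg pr' (fib σ j) ∧ ∑ j ∈ ({q} : Finset J), lg pr' (fib σ j) ≤ Ct) then
          mulc pr' fh σ' else 0) + (if σ' ∈ S.filter (fun σ => Lc - ℓ < ∑ j ∈ univ.erase o,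
          lg pr' (fib σ j) ∧ ∑ j ∈ univ.erase o, lg pr' (fib σ j) ≤ Lc) then
          mulc pr' fh σ' else 0)) := by
      intro σ'
      rw [sq_cw pr' hp2]
      have h1 := (yr_sq pr r o q GG hG Lc L0 Λ Ct hpr hpr1 hΛ hlip hcut σ').1
      rw [← hpr', ← hℓd, ← hS] at h1
      have h2 := mul_le_mul_of_nonneg_right h1 (mulc_nn pr' fh hf σ')
      refine h2.trans (le_of_eq ?_)
      have e : ∀ (p : Prop) [Decidable p], (if p then (1 : ℝ) else 0) * mulc pr' fh σ' =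
          if p then mulc pr' fh σ' else 0 := by
        intro p _
        split_ifs <;> simp
      rw [mul_assoc, add_mul, add_mul, e, e]
    refine (Finset.sum_le_sum fun σ' _ => hpt σ').trans (le_of_eq ?_)
    rw [← Finset.mul_sum, Finset.sum_add_distrib, Finset.sum_add_distrib, hB1, hB2]
    congr 2
    · congr 1
      · rw [hM, Finset.mul_sum, ← Finset.sum_filter_add_sum_filter_not univ (fun σ' => σ' ∈ S)]
        have e2 : ∑ σ' ∈ univ.filter (fun σ' => ¬ σ' ∈ S), (if σ' ∈ S then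
            Λ * ℓ + (Fintype.card J : ℝ) / ((pr r : ℝ) - 1) else 0) * mulc pr' fh σ' = 0 := by
          refine Finset.sum_eq_zero fun σ' hσ' => ?_
          rw [if_neg (Finset.mem_filter.1 hσ').2, zero_mul]
        rw [e2, add_zero]
        have e3 : univ.filter (fun σ' => σ' ∈ S) = S := by
          ext σ'
          simp
        rw [e3]
        refine Finset.sum_congr rfl fun σ' hσ' => ?_
        rw [if_pos hσ']
      · rw [← Finset.sum_filter]
        refine Finset.sum_congr ?_ fun _ _ => rfl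
        ext σ'
        simp
    · rw [← Finset.sum_filter]
      refine Finset.sum_congr ?_ fun _ _ => rfl
      ext σ'
      simp
  refine hsum.trans ?_
  have hA : 0 ≤ Λ * ℓ + (Fintype.card J : ℝ) / ((pr r : ℝ) - 1) +
        2 * C * ((Fintype.card J : ℝ) + 1) * (ℓ + 1) / Ct := by positivity
  calc 2 * ((Λ * ℓ + (Fintype.card J : ℝ) / ((pr r : ℝ) - 1)) * M + B1 + B2)
      ≤ 2 * ((Λ * ℓ + (Fintype.card J : ℝ) / ((pr r : ℝ) - 1)) * M +
        2 * C * (ℓ + 1) / Ct * M + (Fintype.card J : ℝ) * (2 * C * (ℓ + 1)) / Ct * M) := by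
        linarith
    _ = 2 * (Λ * ℓ + (Fintype.card J : ℝ) / ((pr r : ℝ) - 1) +
        2 * C * ((Fintype.card J : ℝ) + 1) * (ℓ + 1) / Ct) * M := by ring
    _ ≤ _ := mul_le_mul_of_nonneg_left hMm (by linarith)

/-- the error term -/
theorem err_le (pr : ι → ℕ) (hp : ∀ t, (pr t).Prime) (r : ι)
    (o q : J) (GG : J → ℝ → ℝ) (hG : Prof J GG) (Lc L0 Λ Ct : ℝ)
    (hpr : (Fintype.card J : ℝ) ≤ (pr r : ℝ) - 1) (hΛ : 0 ≤ Λ)
    (hlip : ∀ s u, 0 ≤ s → 0 ≤ u → GG q s - GG q (s + u) ≤ Λ * u +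
      (if s ≤ Ct ∧ Ct < s + u then 1 else 0))
    (hcut : ∀ s, 0 ≤ s → L0 < s → GG o s = 0) :
    ∑ σ', |cw (fun t : {t : ι // t ≠ r} => pr t.1) (yr pr r q (yw pr o GG Lc)) σ'| *
      mulc (fun t : {t : ι // t ≠ r} => pr t.1) (fun p => (p : ℝ) + 1) σ' ≤
      2 * (Real.exp (L0 + Lc) * ∏ t, (1 + 3 * (Fintype.card J : ℝ) / (pr t : ℝ))) := by
  classical
  have hr2 : (2 : ℝ) ≤ pr r := by exact_mod_cast (hp r).two_le
  have hpr1 : (0 : ℝ) < (pr r : ℝ) - 1 := by linarith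
  obtain ⟨pr', hpr'⟩ : ∃ pr' : {t : ι // t ≠ r} → ℕ, pr' = fun t => pr t.1 := ⟨_, rfl⟩
  rw [← hpr']
  have hp2 : ∀ t, 2 ≤ pr' t := fun t => by rw [hpr']; exact (hp t.1).two_le
  have hp1 : ∀ t, (0 : ℝ) < (pr' t : ℝ) - 1 := by
    intro t
    have : (2 : ℝ) ≤ pr' t := by exact_mod_cast hp2 t
    linarith
  have h1 : ∑ σ', |cw pr' (yr pr r q (yw pr o GG Lc)) σ'| *
      mulc pr' (fun p => (p : ℝ) + 1) σ' ≤ ∑ σ' ∈ univ.filter (fun σ' :
        {t : ι // t ≠ r} → Option J => lgt pr' σ' ≤ L0 + Lc),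
        2 * mulc pr' (fun p => ((p : ℝ) + 1) / ((p : ℝ) - 1)) σ' := by
    rw [Finset.sum_filter]
    refine Finset.sum_le_sum fun σ' _ => ?_
    have hnn : 0 ≤ mulc pr' (fun p => ((p : ℝ) + 1) / ((p : ℝ) - 1)) σ' := by
      unfold mulc
      exact Finset.prod_nonneg fun t _ => by
        split_ifs
        · exact zero_le_one
        · have := hp1 t
          positivity
    obtain ⟨_, h3, h4, h5⟩ := yr_sq pr r o q GG hG Lc L0 Λ Ct hpr hpr1 hΛ hlip hcut σ'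
    rw [← hpr'] at h3
    rw [abs_cw pr' hp2]
    have e1 : mulc pr' (fun p => 1 / ((p : ℝ) - 1)) σ' * mulc pr' (fun p => (p : ℝ) + 1) σ' =
        mulc pr' (fun p => ((p : ℝ) + 1) / ((p : ℝ) - 1)) σ' := by
      unfold mulc
      rw [← Finset.prod_mul_distrib]
      refine Finset.prod_congr rfl fun t _ => ?_
      by_cases h : σ' t = none
      · simp [h]
      · simp only [h, if_false]
        ring
    have e2 : mulc pr' (fun p => 1 / ((p : ℝ) - 1)) σ' * |yr pr r q (yw pr o GG Lc) σ'| *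
        mulc pr' (fun p => (p : ℝ) + 1) σ' = yr pr r q (yw pr o GG Lc) σ' *
        mulc pr' (fun p => ((p : ℝ) + 1) / ((p : ℝ) - 1)) σ' := by
      rw [abs_of_nonneg h4, ← e1]
      ring
    rw [e2]
    by_cases hz : yr pr r q (yw pr o GG Lc) σ' = 0
    · rw [hz, zero_mul]
      split_ifs
      · positivity
      · exact le_rfl
    · have h6 := mem_Su.1 (h3 hz)
      rw [if_pos]
      · exact mul_le_mul_of_nonneg_right h5 hnn
      · rw [lgt_eq, ← Finset.add_sum_erase _ _ (Finset.mem_univ o)]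
        exact add_le_add h6.1 h6.2
  refine h1.trans ?_
  rw [← Finset.mul_sum]
  refine mul_le_mul_of_nonneg_left ((rankin pr' hp2 (L0 + Lc)).trans ?_) (by norm_num)
  apply mul_le_mul_of_nonneg_left _ (Real.exp_pos _).le
  rw [Fintype.prod_eq_mul_prod_subtype_ne (fun t => (1 + 3 * (Fintype.card J : ℝ) / (pr t : ℝ))) r]
  have h3 : 1 ≤ 1 + 3 * (Fintype.card J : ℝ) / (pr r : ℝ) := by
    have : 0 ≤ 3 * (Fintype.card J : ℝ) / (pr r : ℝ) := by positivity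
    linarith
  have h4 : 0 ≤ ∏ t : {t : ι // t ≠ r}, (1 + 3 * (Fintype.card J : ℝ) / (pr t.1 : ℝ)) :=
    Finset.prod_nonneg fun t _ => by positivity
  rw [hpr']
  nlinarith

end

end Pool.Agent.Y827.RO
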