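import Mathlib
import Pool.Agent.Y827.RO.Mass
import Pool.Agent.W25.UN.S12
import Pool.Agent.W25.UB.NWUf

/-! Project RO: the first sum restricted to the multiples of a fixed prime. -/

set_option autoImplicit false

namespace Pool.Agent.Y827.RO

open Finset Filter Topology
open Pool.Agent.H410R2 hiding GP GP_prof GP_cut_some GP_cut_none GP_lip gg_pos gg_le_one gg_anti ee_bound ee_nonneg gg_lip LB_gg LB_ee Sums exists_sums yx wx wxi Br sum_GP_none sum_GP_some sum_GP_some_ee sum_GP_some_one sum_GPr_none sum_GPr_some S1_final QI_final S2_final w_abs_le wmax gg ee I1 I2 IE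
open Pool.Agent.H361R2.GM
open Pool.Agent.H362R2.CM
open Pool.Agent.W25.UN

variable {k : ℕ}

theorem gp_lip (Q : SPar) (L : ℝ) (hL : 0 < L) (q : Option (Fin k)) (s u : ℝ) (hs : 0 ≤ s)
    (hu : 0 ≤ u) : GP Q k L (L / 48) q s - GP Q k L (L / 48) q (s + u) ≤
      (48 + Q.G) / L * u + (if s ≤ Q.c * L ∧ Q.c * L < s + u then 1 else 0) := by
  have hG := Q.G0
  have hi : (0 : ℝ) ≤ (if s ≤ Q.c * L ∧ Q.c * L < s + u then 1 else 0) := by
    split_ifs <;> norm_num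
  have h0 : 0 ≤ u / L := by positivity
  have e : (48 + Q.G) / L * u = 48 * (u / L) + Q.G * (u / L) := by ring
  rcases q with _ | i
  · have h1 := GP_lip Q k L (L / 48) (by positivity) s u hs hu
    have h2 : u / (L / 48) = 48 * (u / L) := by
      field_simp
    rw [h2] at h1
    have h3 : 0 ≤ Q.G * (u / L) := by positivity
    linarith
  · simp only [GP]
    by_cases h1 : s ≤ Q.c * L
    · rw [if_pos h1]
      by_cases h2 : s + u ≤ Q.c * L
      · rw [if_pos h2]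
        have h3 := (abs_le.1 (gg_lip Q (s / L) ((s + u) / L) (by positivity) (by positivity))).2
        have h4 : |s / L - (s + u) / L| = u / L := by
          have : s / L - (s + u) / L = -(u / L) := by ring
          rw [this, abs_neg, abs_of_nonneg h0]
        rw [h4] at h3
        linarith
      · rw [if_neg h2, if_pos ⟨h1, not_le.1 h2⟩]
        have h3 := gg_le_one Q (t := s / L) (by positivity)
        have h4 : 0 ≤ Q.G * (u / L) := by positivity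
        linarith
    · rw [if_neg h1, if_neg (show ¬ s + u ≤ Q.c * L by linarith)]
      have h4 : 0 ≤ Q.G * (u / L) := by positivity
      linarith

theorem ps1_inst {κ C0 : ℕ} (h : PS1At κ C0) (ι J : Type) [Fintype ι] [d1 : DecidableEq ι]
    [Fintype J] [d2 : DecidableEq J] (pr : ι → ℕ) (L : J → ℕ → ℕ) (b Jj z0 : ℕ) (P : Finset ℕ)
    (Om : ℕ → Finset ℕ) (W v : ℕ) (h1 : SieveData ι J pr L 1) (h2 : C0 ≤ b) (h3 : C0 ≤ z0)
    (h4 : ∀ p ∈ P, p.Prime ∧ z0 < p ∧ p ≤ 2 ^ 2 ^ Jj)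
    (h5 : ∀ p ∈ P, (Om p).card ≤ κ ∧ ∀ c ∈ Om p, c < p) (h6 : 1 ≤ W)
    (h7 : ∀ p ∈ P, p.Coprime W) (h8 : ∀ t, pr t ∉ P ∧ (pr t).Coprime W)
    (c : (ι → Option J) → ℝ) (S : Finset ℕ) (wt : ℕ → ℝ) (K Dv : ℝ) (h9 : ∀ n ∈ S, 0 ≤ wt n)
    (h10 : 0 ≤ K) (h11 : 0 ≤ Dv)
    (h12 : ∀ m : ℕ, 1 ≤ m → ∀ r : ℕ,
      |∑ n ∈ S.filter (fun n => n ≡ r [MOD m]), wt n - K / m| ≤ Dv) :
    |∑ n ∈ S.filter (fun n => n ≡ v [MOD W] ∧ ∀ p ∈ P, n % p ∉ Om p),
        wt n * (∑ σ, c σ * hN L pr σ n) ^ 2 -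
      K / W * Q1f pr c * ∏ p ∈ P, (1 - ((Om p).card : ℝ) / p)| ≤
      (1 / 2 : ℝ) ^ b * (K / W * Q1f pr c * ∏ p ∈ P, (1 - ((Om p).card : ℝ) / p)) +
        ((Jj : ℝ) + 2) * ((2 : ℝ) ^ 2 ^ Jj) ^ (2 * (C0 * b)) *
          (Dv * (∑ σ, |c σ| * mulc pr (fun p => (p : ℝ) + 1) σ) ^ 2) := by
  obtain rfl : d1 = (fun a b => Classical.propDecidable (a = b)) := Subsingleton.elim _ _
  obtain rfl : d2 = (fun a b => Classical.propDecidable (a = b)) := Subsingleton.elim _ _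
  exact h ι J pr L b Jj z0 P Om W v h1 h2 h3 h4 h5 h6 h7 h8 c S wt K Dv h9 h10 h11 h12

/-- counting in residue classes -/
theorem cnt_mod (X m r : ℕ) (hm : 1 ≤ m) :
    |∑ _n ∈ (Icc 1 X).filter (fun n => n ≡ r [MOD m]), (1 : ℝ) - (X : ℝ) / m| ≤ 1 := by
  rw [Finset.sum_const, nsmul_eq_mul, mul_one]
  have h := Nat.Ioc_filter_modEq_card 0 X (by omega : 0 < m) r
  have h0 : Icc 1 X = Ioc 0 X := by ext; simp [Nat.succ_le_iff]
  rw [h0]
  have hq0 : (0 : ℚ) < m := by exact_mod_cast hm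
  have h2 := Int.floor_le (((X : ℚ) - r) / m)
  have h2' := Int.lt_floor_add_one (((X : ℚ) - r) / m)
  have h3 := Int.lt_floor_add_one ((((0 : ℕ) : ℚ) - r) / m)
  have h3' := Int.floor_le ((((0 : ℕ) : ℚ) - r) / m)
  have hmono : ⌊(((0 : ℕ) : ℚ) - r) / m⌋ ≤ ⌊((X : ℚ) - r) / m⌋ := by
    apply Int.floor_le_floor
    apply div_le_div_of_nonneg_right _ hq0.le
    have : (0 : ℚ) ≤ X := Nat.cast_nonneg _
    push_cast
    linarith
  obtain ⟨u, hu⟩ : ∃ u : ℤ, u = ⌊((X : ℚ) - r) / m⌋ := ⟨_, rfl⟩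
  obtain ⟨v, hv⟩ : ∃ v : ℤ, v = ⌊(((0 : ℕ) : ℚ) - r) / m⌋ := ⟨_, rfl⟩
  rw [← hu, ← hv] at h hmono
  rw [← hu] at h2 h2'
  rw [← hv] at h3 h3'
  rw [max_eq_left (by omega)] at h
  have h4 : ((X : ℚ) - r) / m - (((0 : ℕ) : ℚ) - r) / m = X / m := by
    rw [Nat.cast_zero]; ring
  have h5 : ((((Ioc 0 X).filter (fun n => n ≡ r [MOD m])).card : ℤ) : ℚ) = u - v := by
    rw [h]; push_cast; ring
  have h6 : |((((Ioc 0 X).filter (fun n => n ≡ r [MOD m])).card : ℕ) : ℚ) - X / m| ≤ 1 := by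
    have h7 : ((((Ioc 0 X).filter (fun n => n ≡ r [MOD m])).card : ℕ) : ℚ) = u - v := by
      exact_mod_cast h5
    rw [h7, abs_le]
    constructor <;> linarith
  have h8 := (Rat.cast_le (K := ℝ)).mpr h6
  push_cast at h8
  exact h8

open Classical in
/-- **the first sum over the multiples of a fixed prime of the sieve** -/
theorem small_one {C0 : ℕ} (hPS : PS1At (k + 1) C0) (hRC : RootsCount) (hSd : SdLZ)
    (hS1G : S1Gen) {α h : Fin k → ℤ} {D D' N v : ℕ} {P : Finset ℕ} (H : Hyp α h D D' N v P)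
    (Q : SPar) (L C : ℝ) (b Jj X : ℕ) (hb : C0 ≤ b) (hCD : C0 ≤ D) (hJ : D' ≤ 2 ^ 2 ^ Jj)
    (hL : 0 < L) (hC : 1 ≤ C)
    (hcheb : ∀ (P : Finset ℕ), (∀ p ∈ P, p.Prime) → ∀ u x : ℝ, 0 ≤ x →
      ∑ p ∈ P.filter (fun p : ℕ => u < Real.log p ∧ Real.log p ≤ u + x),
        (p : ℝ) / ((p : ℝ) - 1) ^ 2 * Real.log p ≤ C * (x + 1))
    (r : IP P) (q : Option (Fin k)) (hℓ : 2 * Real.log (prP P r) ≤ Q.c * L) :
    ∑ n ∈ (Ns α h D D' N v X).filter (fun n => prP P r ∣ LZ (uB α) (wB h N) q n),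
      (wZ Q (uB α) (wB h N) P L n) ^ 2 ≤
      2 * ((X : ℝ) / (WW D * prP P r)) * VV α h N D D' *
        (2 * ((48 + Q.G) / L * Real.log (prP P r) +
          ((k : ℝ) + 1) / ((prP P r : ℝ) - 1) +
          2 * C * ((k : ℝ) + 1 + 1) * (Real.log (prP P r) + 1) / (Q.c * L)) *
          m1 (prP P) L ^ (k + 1)) +
      ((Jj : ℝ) + 2) * ((2 : ℝ) ^ 2 ^ Jj) ^ (2 * (C0 * b)) *
        (2 * (Real.exp (L / 48 + L) * ∏ t : IP P, (1 + 3 * ((k : ℝ) + 1) / (prP P t : ℝ)))) ^ 2 := by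
  have hsd := H.sd0 hSd
  have hDD := H.hDD
  have hDk := H.hDk
  have hG := Q.G0
  have hc := Q.hc
  have hc1 := Q.hc1
  have hpp : ∀ t : IP P, (prP P t).Prime := fun t => (H.hP t.1 t.2).1
  have hp2 : ∀ t : IP P, 2 ≤ prP P t := fun t => (hpp t).two_le
  have hbig : ∀ t : IP P, D' < prP P t := fun t => (H.hP t.1 t.2).2
  have hcardJ : Fintype.card (Option (Fin k)) = k + 1 := by simp
  have hcardR : (Fintype.card (Option (Fin k)) : ℝ) = (k : ℝ) + 1 := by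
    rw [hcardJ]; push_cast; ring
  -- the residue class
  obtain ⟨r0, hr0⟩ := hsd.sol r q
  have hcopW : (WW D).Coprime (prP P r) := (H.P_cop r).2.symm
  obtain ⟨v', hv1, hv2⟩ := Nat.chineseRemainder hcopW v r0
  -- reduction
  have hred : ∀ n : ℕ, prP P r ∣ LZ (uB α) (wB h N) q n → wZ Q (uB α) (wB h N) P L n =
      ∑ σ' : {t : IP P // t ≠ r} → Option (Option (Fin k)),
        cw (fun t : {t : IP P // t ≠ r} => prP P t.1) (yr (prP P) r q (yP Q k P L)) σ' *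
          hN (LZ (uB α) (wB h N)) (fun t : {t : IP P // t ≠ r} => prP P t.1) σ' n := by
    intro n hn
    have h1 := hN_reduce (prP P) hp2 (LZ (uB α) (wB h N)) r q n hn
      (fun t i j h1 h2 => hsd.excl t i j n h1 h2) (yP Q k P L)
    rw [← h1]
    unfold wZ
    refine Finset.sum_congr ?_ fun σ _ => ?_
    · ext σ; simp
    · rfl
  have hfilt : (Ns α h D D' N v X).filter (fun n => prP P r ∣ LZ (uB α) (wB h N) q n) =
      (Icc 1 X).filter (fun n => n ≡ v' [MOD (WW D * prP P r)] ∧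
        ∀ p ∈ QQ D D', n % p ∉ Om (uB α) (wB h N) p) := by
    ext n
    unfold Ns
    simp only [Finset.mem_filter, hr0 n]
    rw [← Nat.modEq_and_modEq_iff_modEq_mul hcopW]
    constructor
    · rintro ⟨⟨h1, h2, h3⟩, h4⟩
      exact ⟨h1, ⟨h2.trans hv1.symm, h4.trans hv2.symm⟩, h3⟩
    · rintro ⟨h1, ⟨h2, h4⟩, h3⟩
      exact ⟨⟨h1, h2.trans hv1, h3⟩, h4.trans hv2⟩
  have hsd' : SieveData {t : IP P // t ≠ r} (Option (Fin k)) (fun t => prP P t.1)
      (LZ (uB α) (wB h N)) 1 :=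
    { prime := fun t => hsd.prime t.1
      inj := fun a b h => Subtype.ext (hsd.inj h)
      cop := fun t => Nat.coprime_one_right _
      sol := fun t j => hsd.sol t.1 j
      excl := fun t i j n h1 h2 => hsd.excl t.1 i j n h1 h2 }
  have hmain := ps1_inst hPS {t : IP P // t ≠ r} (Option (Fin k)) (fun t => prP P t.1)
    (LZ (uB α) (wB h N)) b Jj D (QQ D D') (Om (uB α) (wB h N)) (WW D * prP P r) v' hsd' hb hCD
    (fun p hp => by
      have := QQ_prime hp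
      exact ⟨this.1, this.2.1, this.2.2.trans hJ⟩)
    (fun p hp => by
      have h2 := QQ_prime hp
      refine ⟨(hRC k _ _ p h2.1 (fun j => H.uB_ndvd h2.1 h2.2.1 j)).2.1, fun c hc => ?_⟩
      exact Hyp.Om_lt hc)
    (Nat.mul_pos (Nat.lt_of_lt_of_le Nat.one_pos H.hW) (hpp r).pos)
    (fun p hp => by
      apply Nat.Coprime.mul_right (H.QQ_cop hp)
      rw [Nat.coprime_primes (QQ_prime hp).1 (hpp r)]
      intro h1
      have h2 := (QQ_prime hp).2.2
      have h3 := hbig r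
      omega)
    (fun t => by
      refine ⟨(H.P_cop t.1).1, Nat.Coprime.mul_right (H.P_cop t.1).2 ?_⟩
      rw [Nat.coprime_primes (hpp t.1) (hpp r)]
      intro h1
      exact t.2 (hsd.inj h1))
    (cw (fun t : {t : IP P // t ≠ r} => prP P t.1) (yr (prP P) r q (yP Q k P L))) (Icc 1 X)
    (fun _ => 1) X 1 (fun _ _ => zero_le_one) (Nat.cast_nonneg _) zero_le_one
    (fun m hm r => cnt_mod X m r hm)
  obtain ⟨q0, q1⟩ := Pool.Agent.W25.UB.NWUf.s1g_inst hS1G {t : IP P // t ≠ r} (Option (Fin k))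
    (fun t => prP P t.1) (LZ (uB α) (wB h N)) hsd'
    (cw (fun t : {t : IP P // t ≠ r} => prP P t.1) (yr (prP P) r q (yP Q k P L)))
  have hprof := GP_prof Q k L (L / 48) hL (by positivity)
  have hprJ : (Fintype.card (Option (Fin k)) : ℝ) ≤ (prP P r : ℝ) - 1 := by
    rw [hcardR]
    have h1 : k + 2 ≤ prP P r := by have := hbig r; omega
    have h2 : ((k + 2 : ℕ) : ℝ) ≤ (prP P r : ℝ) := by exact_mod_cast h1
    push_cast at h2
    linarith
  have hΛ : 0 ≤ (48 + Q.G) / L := by positivity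
  have q2 := quad_le (prP P) hpp hsd.inj r none q (GP Q k L (L / 48)) hprof L (L / 48)
    ((48 + Q.G) / L) (Q.c * L) C hprJ hΛ (fun s u hs hu => gp_lip Q L hL q s u hs hu)
    (fun s hs h => GP_cut_none Q k L (L / 48) s hs h) hC hcheb (by linarith) (by positivity)
    (by nlinarith) hℓ
  have q3 := err_le (prP P) hpp r none q (GP Q k L (L / 48)) hprof L (L / 48)
    ((48 + Q.G) / L) (Q.c * L) hprJ hΛ (fun s u hs hu => gp_lip Q L hL q s u hs hu)
    (fun s hs h => GP_cut_none Q k L (L / 48) s hs h)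
  rw [hcardR] at q2 q3
  rw [hcardJ] at q2
  have hVV : VV α h N D D' = ∏ p ∈ QQ D D', (1 - ((Om (uB α) (wB h N) p).card : ℝ) / p) := rfl
  rw [← hVV] at hmain
  obtain ⟨qf, hqf⟩ : ∃ qf : ℝ, qf = Q1f (fun t : {t : IP P // t ≠ r} => prP P t.1)
    (cw (fun t : {t : IP P // t ≠ r} => prP P t.1) (yr (prP P) r q (yP Q k P L))) := ⟨_, rfl⟩
  rw [← hqf] at hmain q0 q1
  have hVV0 : 0 ≤ VV α h N D D' := by
    rw [hVV]
    refine Finset.prod_nonneg fun p hp => ?_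
    have h1 := QQ_prime hp
    have h2 := (hRC k (uB α) (wB h N) p h1.1 (fun j => H.uB_ndvd h1.1 h1.2.1 j)).2.1
    have h3 : ((Om (uB α) (wB h N) p).card : ℝ) ≤ p := by
      exact_mod_cast h2.trans (by omega)
    have h4 : (0 : ℝ) < p := by exact_mod_cast h1.1.pos
    have h5 : ((Om (uB α) (wB h N) p).card : ℝ) / p ≤ 1 := (div_le_one h4).2 h3
    linarith
  have hE : ∑ n ∈ (Ns α h D D' N v X).filter (fun n => prP P r ∣ LZ (uB α) (wB h N) q n),
      (wZ Q (uB α) (wB h N) P L n) ^ 2 =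
      ∑ n ∈ (Icc 1 X).filter (fun n => n ≡ v' [MOD (WW D * prP P r)] ∧
        ∀ p ∈ QQ D D', n % p ∉ Om (uB α) (wB h N) p), (1 : ℝ) *
        (∑ σ' : {t : IP P // t ≠ r} → Option (Option (Fin k)),
        cw (fun t : {t : IP P // t ≠ r} => prP P t.1) (yr (prP P) r q (yP Q k P L)) σ' *
          hN (LZ (uB α) (wB h N)) (fun t : {t : IP P // t ≠ r} => prP P t.1) σ' n) ^ 2 := by
    rw [← hfilt]
    refine Finset.sum_congr rfl fun n hn => ?_
    rw [hred n (Finset.mem_filter.1 hn).2, one_mul]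
  rw [hE]
  have hm2 := (abs_le.1 hmain).2
  have hpow : (1 / 2 : ℝ) ^ b ≤ 1 := pow_le_one₀ (by norm_num) (by norm_num)
  have hpow0 : (0 : ℝ) ≤ (1 / 2 : ℝ) ^ b := by positivity
  have hXW : (0 : ℝ) ≤ (X : ℝ) / (WW D * prP P r) := by positivity
  have hcast : (X : ℝ) / ((WW D * prP P r : ℕ) : ℝ) = (X : ℝ) / (WW D * prP P r) := by push_cast; rfl
  rw [hcast] at hm2
  have hM : 0 ≤ (X : ℝ) / (WW D * prP P r) * qf * VV α h N D D' :=
    mul_nonneg (mul_nonneg hXW q0) hVV0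
  have hA : (X : ℝ) / (WW D * prP P r) * qf * VV α h N D D' ≤
      (X : ℝ) / (WW D * prP P r) * VV α h N D D' *
        (2 * ((48 + Q.G) / L * Real.log (prP P r) +
          ((k : ℝ) + 1) / ((prP P r : ℝ) - 1) +
          2 * C * ((k : ℝ) + 1 + 1) * (Real.log (prP P r) + 1) / (Q.c * L)) *
          m1 (prP P) L ^ (k + 1)) := by
    calc _ = (X : ℝ) / (WW D * prP P r) * VV α h N D D' * qf := by ring
      _ ≤ _ := mul_le_mul_of_nonneg_left (q1.trans q2) (mul_nonneg hXW hVV0)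
  have hs0 : 0 ≤ ∑ σ', |cw (fun t : {t : IP P // t ≠ r} => prP P t.1)
      (yr (prP P) r q (yP Q k P L)) σ'| *
      mulc (fun t : {t : IP P // t ≠ r} => prP P t.1) (fun p => (p : ℝ) + 1) σ' := by
    refine Finset.sum_nonneg fun σ _ => mul_nonneg (abs_nonneg _) ?_
    unfold mulc
    refine Finset.prod_nonneg fun t _ => ?_
    split_ifs <;> positivity
  have hsq := pow_le_pow_left₀ hs0 q3 2
  have hcE : (0 : ℝ) ≤ ((Jj : ℝ) + 2) * ((2 : ℝ) ^ 2 ^ Jj) ^ (2 * (C0 * b)) := by positivity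
  have hB := mul_le_mul_of_nonneg_left hsq hcE
  rw [one_mul] at hm2
  nlinarith [mul_nonneg hpow0 hM, mul_le_mul_of_nonneg_right hpow hM]

end Pool.Agent.Y827.RO
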