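import Mathlib
import Pool.Agent.Y827.RO.Fix
import Pool.Agent.W25.UN.Est3

/-! Project RO: the first sum over the numbers with a small prime factor in one of the forms. -/

set_option autoImplicit false

namespace Pool.Agent.Y827.RO

open Finset Filter Topology
open Pool.Agent.H410R2 hiding GP GP_prof GP_cut_some GP_cut_none GP_lip gg_pos gg_le_one gg_anti ee_bound ee_nonneg gg_lip LB_gg LB_ee Sums exists_sums yx wx wxi Br sum_GP_none sum_GP_some sum_GP_some_ee sum_GP_some_one sum_GPr_none sum_GPr_some S1_final QI_final S2_final w_abs_le wmax gg ee I1 I2 IE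
open Pool.Agent.H361R2.GM
open Pool.Agent.H362R2.CM
open Pool.Agent.W25.UN

variable {k : ℕ}

theorem tele (D M : ℕ) (hD : 1 ≤ D) :
    ∑ n ∈ Ioc D (D + M), 1 / ((n : ℝ) * ((n : ℝ) - 1)) = 1 / (D : ℝ) - 1 / ((D + M : ℕ) : ℝ) := by
  induction M with
  | zero => simp
  | succ M ih =>
    rw [← add_assoc, Finset.sum_Ioc_succ_top (by omega), ih]
    have h1 : (1 : ℝ) ≤ D := by exact_mod_cast hD
    have h2 : (0 : ℝ) ≤ M := Nat.cast_nonneg _
    push_cast
    have h3 : (D : ℝ) + M ≠ 0 := by linarith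
    have h4 : (D : ℝ) + M + 1 ≠ 0 := by linarith
    have h5 : (D : ℝ) ≠ 0 := by linarith
    have h6 : (D : ℝ) + M + 1 - 1 ≠ 0 := by
      have : (D : ℝ) + M + 1 - 1 = D + M := by ring
      rw [this]; exact h3
    field_simp
    ring

/-- the tail of the sum of `1 / (p (p - 1))` -/
theorem tail_sum (T : Finset ℕ) (D : ℕ) (hD : 1 ≤ D) (hT : ∀ n ∈ T, D < n) :
    ∑ n ∈ T, 1 / ((n : ℝ) * ((n : ℝ) - 1)) ≤ 1 / (D : ℝ) := by
  have h1 : T ⊆ Ioc D (D + T.sup id) := by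
    intro n hn
    rw [Finset.mem_Ioc]
    have := Finset.le_sup (f := id) hn
    simp only [id] at this
    exact ⟨hT n hn, by omega⟩
  refine (Finset.sum_le_sum_of_subset_of_nonneg h1 fun n hn _ => ?_).trans ?_
  · rw [Finset.mem_Ioc] at hn
    have : (1 : ℝ) ≤ n := by exact_mod_cast (by omega : 1 ≤ n)
    apply div_nonneg zero_le_one
    apply mul_nonneg <;> linarith
  · rw [tele D _ hD]
    have : (0 : ℝ) ≤ 1 / ((D + T.sup id : ℕ) : ℝ) := by positivity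
    linarith

open Classical in
/-- the first sum over the multiples of a prime outside the sieve -/
theorem small_cl {C0 : ℕ} (hPS : PS1At (k + 1) C0) (hRC : RootsCount) (hSd : SdLZ)
    (hS1G : S1Gen) {α h : Fin k → ℤ} {D D' N v : ℕ} {P : Finset ℕ} (H : Hyp α h D D' N v P)
    (Q : SPar) (L M E : ℝ) (b Jj X : ℕ) (hb : C0 ≤ b) (hCD : C0 ≤ D) (hJ : D' ≤ 2 ^ 2 ^ Jj)
    (hQ1 : ∑ σ, cw (prP P) (yP Q k P L) σ ^ 2 * mulc (prP P) (fun p => (p : ℝ)) σ ≤ M)
    (hE1 : ∑ σ, |cw (prP P) (yP Q k P L) σ| * mulc (prP P) (fun p => (p : ℝ) + 1) σ ≤ E)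
    (p : ℕ) (hp : p.Prime) (hpD : D' < p) (hpP : p ∉ P) (q : Option (Fin k)) :
    ∑ n ∈ (Ns α h D D' N v X).filter (fun n => p ∣ LZ (uB α) (wB h N) q n),
      (wZ Q (uB α) (wB h N) P L n) ^ 2 ≤
      2 * ((X : ℝ) / (WW D * p)) * VV α h N D D' * M +
      ((Jj : ℝ) + 2) * ((2 : ℝ) ^ 2 ^ Jj) ^ (2 * (C0 * b)) * E ^ 2 := by
  have hsd := H.sd0 hSd
  have hDD := H.hDD
  have hDk := H.hDk
  have hpp : ∀ t : IP P, (prP P t).Prime := fun t => (H.hP t.1 t.2).1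
  have hbig : ∀ t : IP P, D' < prP P t := fun t => (H.hP t.1 t.2).2
  have hnd : ¬ (p : ℤ) ∣ uB α q := H.uB_ndvd hp (by omega) q
  -- the residue class
  have hsd1 := hSd 0 (fun _ => uB α q) (fun _ => wB h N q) {p} (fun x hx => by
    rw [Finset.mem_singleton] at hx; subst hx; exact hp) (fun x hx _ => by
    rw [Finset.mem_singleton] at hx; subst hx; exact hnd) (fun x _ j l hjl => by
    exfalso
    rcases j with _ | j
    · rcases l with _ | l
      · exact hjl rfl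
      · exact l.elim0
    · exact j.elim0)
  obtain ⟨r0, hr0'⟩ := hsd1.sol ⟨p, Finset.mem_singleton_self p⟩ none
  have hr0 : ∀ n, p ∣ LZ (uB α) (wB h N) q n ↔ n ≡ r0 [MOD p] := hr0'
  have hcopW : (WW D).Coprime p := by
    rw [Nat.coprime_comm, hp.coprime_iff_not_dvd, H.hdvd p hp]
    omega
  obtain ⟨v', hv1, hv2⟩ := Nat.chineseRemainder hcopW v r0
  have hfilt : (Ns α h D D' N v X).filter (fun n => p ∣ LZ (uB α) (wB h N) q n) =
      (Icc 1 X).filter (fun n => n ≡ v' [MOD (WW D * p)] ∧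
        ∀ p ∈ QQ D D', n % p ∉ Om (uB α) (wB h N) p) := by
    ext n
    unfold Ns
    simp only [Finset.mem_filter, hr0 n]
    rw [← Nat.modEq_and_modEq_iff_modEq_mul hcopW]
    constructor
    · rintro ⟨⟨h1, h2, h3⟩, h4⟩
      exact ⟨h1, ⟨h2.trans hv1.symm, h4.trans hv2.symm⟩, h3⟩
    · rintro ⟨h1, ⟨h2, h4⟩, h3⟩
      exact ⟨⟨h1, h2.trans hv1, h3⟩, h4.trans hv2⟩
  have hmain := ps1_inst hPS (IP P) (Option (Fin k)) (prP P)
    (LZ (uB α) (wB h N)) b Jj D (QQ D D') (Om (uB α) (wB h N)) (WW D * p) v' hsd hb hCD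
    (fun p hp => by
      have := QQ_prime hp
      exact ⟨this.1, this.2.1, this.2.2.trans hJ⟩)
    (fun p hp => by
      have h2 := QQ_prime hp
      refine ⟨(hRC k _ _ p h2.1 (fun j => H.uB_ndvd h2.1 h2.2.1 j)).2.1, fun c hc => ?_⟩
      exact Hyp.Om_lt hc)
    (Nat.mul_pos (Nat.lt_of_lt_of_le Nat.one_pos H.hW) hp.pos)
    (fun x hx => by
      apply Nat.Coprime.mul_right (H.QQ_cop hx)
      rw [Nat.coprime_primes (QQ_prime hx).1 hp]
      intro h1
      have h2 := (QQ_prime hx).2.2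
      omega)
    (fun t => by
      refine ⟨(H.P_cop t).1, Nat.Coprime.mul_right (H.P_cop t).2 ?_⟩
      rw [Nat.coprime_primes (hpp t) hp]
      intro h1
      apply hpP
      rw [← h1]
      exact t.2)
    (cw (prP P) (yP Q k P L)) (Icc 1 X)
    (fun _ => 1) X 1 (fun _ _ => zero_le_one) (Nat.cast_nonneg _) zero_le_one
    (fun m hm r => cnt_mod X m r hm)
  have hnn := Pool.Agent.W25.UB.NWUf.s1g_inst hS1G (IP P) (Option (Fin k))
    (prP P) (LZ (uB α) (wB h N)) hsd (cw (prP P) (yP Q k P L))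
  have q0 := hnn.1
  have q1 := hnn.2.trans hQ1
  have hVV : VV α h N D D' = ∏ p ∈ QQ D D', (1 - ((Om (uB α) (wB h N) p).card : ℝ) / p) := rfl
  rw [← hVV] at hmain
  obtain ⟨qf, hqf⟩ : ∃ qf : ℝ, qf = Q1f (prP P) (cw (prP P) (yP Q k P L)) := ⟨_, rfl⟩
  rw [← hqf] at hmain q0 q1
  have hVV0 : 0 ≤ VV α h N D D' := (VV_pos hRC H).le
  have hE : ∑ n ∈ (Ns α h D D' N v X).filter (fun n => p ∣ LZ (uB α) (wB h N) q n),
      (wZ Q (uB α) (wB h N) P L n) ^ 2 =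
      ∑ n ∈ (Icc 1 X).filter (fun n => n ≡ v' [MOD (WW D * p)] ∧
        ∀ p ∈ QQ D D', n % p ∉ Om (uB α) (wB h N) p), (1 : ℝ) *
        (∑ σ, cw (prP P) (yP Q k P L) σ * hN (LZ (uB α) (wB h N)) (prP P) σ n) ^ 2 := by
    rw [← hfilt]
    refine Finset.sum_congr rfl fun n hn => ?_
    rw [one_mul]
    rfl
  rw [hE]
  have hm2 := (abs_le.1 hmain).2
  have hpow : (1 / 2 : ℝ) ^ b ≤ 1 := pow_le_one₀ (by norm_num) (by norm_num)
  have hpow0 : (0 : ℝ) ≤ (1 / 2 : ℝ) ^ b := by positivity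
  have hXW : (0 : ℝ) ≤ (X : ℝ) / (WW D * p) := by positivity
  have hcast : (X : ℝ) / ((WW D * p : ℕ) : ℝ) = (X : ℝ) / (WW D * p) := by push_cast; rfl
  rw [hcast] at hm2
  have hM : 0 ≤ (X : ℝ) / (WW D * p) * qf * VV α h N D D' :=
    mul_nonneg (mul_nonneg hXW q0) hVV0
  have hA : (X : ℝ) / (WW D * p) * qf * VV α h N D D' ≤
      (X : ℝ) / (WW D * p) * VV α h N D D' * M := by
    calc _ = (X : ℝ) / (WW D * p) * VV α h N D D' * qf := by ring
      _ ≤ _ := mul_le_mul_of_nonneg_left q1 (mul_nonneg hXW hVV0)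
  have hs0 : 0 ≤ ∑ σ, |cw (prP P) (yP Q k P L) σ| *
      mulc (prP P) (fun p => (p : ℝ) + 1) σ := by
    refine Finset.sum_nonneg fun σ _ => mul_nonneg (abs_nonneg _) ?_
    unfold mulc
    refine Finset.prod_nonneg fun t _ => ?_
    split_ifs <;> positivity
  have hsq := pow_le_pow_left₀ hs0 hE1 2
  have hcE : (0 : ℝ) ≤ ((Jj : ℝ) + 2) * ((2 : ℝ) ^ 2 ^ Jj) ^ (2 * (C0 * b)) := by positivity
  have hB := mul_le_mul_of_nonneg_left hsq hcE
  rw [one_mul] at hm2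
  nlinarith [mul_nonneg hpow0 hM, mul_le_mul_of_nonneg_right hpow hM]

end Pool.Agent.Y827.RO
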