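import Mathlib
import Pool.Agent.Y827.RO.Small

/-! Project RO: the first sum over the numbers with a small prime factor, total. -/

set_option autoImplicit false

namespace Pool.Agent.Y827.RO

open Finset Filter Topology
open Pool.Agent.H410R2 hiding GP GP_prof GP_cut_some GP_cut_none GP_lip gg_pos gg_le_one gg_anti ee_bound ee_nonneg gg_lip LB_gg LB_ee Sums exists_sums yx wx wxi Br sum_GP_none sum_GP_some sum_GP_some_ee sum_GP_some_one sum_GPr_none sum_GPr_some S1_final QI_final S2_final w_abs_le wmax gg ee I1 I2 IE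
open Pool.Agent.H361R2.GM
open Pool.Agent.H362R2.CM
open Pool.Agent.W25.UN

variable {k : ℕ}

open Classical in
theorem cover_sum {κ : Type} (S B : Finset ℕ) (T : Finset κ) (R : κ → ℕ → Prop) (w : ℕ → ℝ)
    (hw : ∀ n, 0 ≤ w n) (hB : B ⊆ S) (h : ∀ n ∈ B, ∃ t ∈ T, R t n) :
    ∑ n ∈ B, w n ≤ ∑ t ∈ T, ∑ n ∈ S.filter (R t), w n := by
  have h1 : ∑ t ∈ T, ∑ n ∈ S.filter (R t), w n = ∑ n ∈ S, ∑ t ∈ T, if R t n then w n else 0 := by
    rw [Finset.sum_comm]
    refine Finset.sum_congr rfl fun t _ => ?_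
    rw [Finset.sum_filter]
  rw [h1]
  have hnn : ∀ n, 0 ≤ ∑ t ∈ T, if R t n then w n else 0 := fun n =>
    Finset.sum_nonneg fun t _ => by
      split_ifs
      · exact hw n
      · exact le_rfl
  refine le_trans ?_ (Finset.sum_le_sum_of_subset_of_nonneg hB fun n _ _ => hnn n)
  refine Finset.sum_le_sum fun n hn => ?_
  obtain ⟨t, ht, hR⟩ := h n hn
  have h2 := Finset.single_le_sum (f := fun t => if R t n then w n else 0) (fun t _ => by
      show (0 : ℝ) ≤ if R t n then w n else 0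
      split_ifs
      · exact hw n
      · exact le_rfl) ht
  simp only [hR, if_true] at h2
  exact h2

open Classical in
/-- the numbers with a prime factor `≤ exp lz` in one of the forms -/
noncomputable def Bad (α h : Fin k → ℤ) (D D' N v X : ℕ) (lz : ℝ) : Finset ℕ :=
  (Ns α h D D' N v X).filter (fun n => ∃ p : ℕ, p.Prime ∧ Real.log p ≤ lz ∧
    ∃ q, p ∣ LZ (uB α) (wB h N) q n)

theorem bad_big {α h : Fin k → ℤ} {D D' N v : ℕ} {P : Finset ℕ} (hRC : RootsCount)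
    (H : Hyp α h D D' N v P) (X n p : ℕ) (hn : n ∈ Ns α h D D' N v X) (hp : p.Prime)
    (q : Option (Fin k)) (hd : p ∣ LZ (uB α) (wB h N) q n) : D' < p := by
  by_contra hc
  unfold Ns at hn
  rw [Finset.mem_filter] at hn
  obtain ⟨h1, h2, h3⟩ := hn
  by_cases hD : p ≤ D
  · have h4 := H.hv q (n : ℤ) ((Int.natCast_modEq_iff).2 h2)
    have h5 : (p : ℤ) ∣ ((WW D : ℕ) : ℤ) := by exact_mod_cast (H.hdvd p hp).2 hD
    have h6 : (p : ℤ) ∣ uB α q * n + wB h N q := by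
      unfold LZ at hd
      exact Int.natCast_dvd.2 hd
    have h7 := h4.isUnit_of_dvd' h6 h5
    rw [Int.isUnit_iff] at h7
    have := hp.two_le
    omega
  · have hpQ : p ∈ QQ D D' := by
      unfold QQ
      rw [Finset.mem_filter, Finset.mem_Icc]
      exact ⟨⟨by omega, by omega⟩, hp⟩
    apply h3 p hpQ
    unfold Om
    rw [Finset.mem_filter, Finset.mem_range]
    refine ⟨Nat.mod_lt _ hp.pos, q, ?_⟩
    exact ((hRC k (uB α) (wB h N) p hp (fun j => H.uB_ndvd hp (by omega) j)).2.2.1 q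
      (n % p) n (Nat.mod_modEq n p)).2 hd

open Classical in
/-- **the bad numbers have small mass** -/
theorem small_fix {C0 : ℕ} (hPS : PS1At (k + 1) C0) (hRC : RootsCount) (hSd : SdLZ)
    (hS1G : S1Gen) {α h : Fin k → ℤ} {D D' N v : ℕ} {P : Finset ℕ} (H : Hyp α h D D' N v P)
    (Q : SPar) (L C lz M E : ℝ) (b Jj X : ℕ) (hb : C0 ≤ b) (hCD : C0 ≤ D)
    (hJ : D' ≤ 2 ^ 2 ^ Jj) (hD3 : 3 ≤ D')
    (hL : 0 < L) (hC : 1 ≤ C)
    (hcheb : ∀ (P : Finset ℕ), (∀ p ∈ P, p.Prime) → ∀ u x : ℝ, 0 ≤ x →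
      ∑ p ∈ P.filter (fun p : ℕ => u < Real.log p ∧ Real.log p ≤ u + x),
        (p : ℝ) / ((p : ℝ) - 1) ^ 2 * Real.log p ≤ C * (x + 1))
    (hlz : 0 ≤ lz) (hlz2 : 2 * lz ≤ Q.c * L) (Cl : Finset ℕ)
    (hCl : ∀ p : ℕ, p.Prime → D' < p → Real.log p ≤ lz → p ∉ P → p ∈ Cl)
    (hM : m1 (prP P) L ^ (k + 1) ≤ M)
    (hQ1 : ∑ σ, cw (prP P) (yP Q k P L) σ ^ 2 * mulc (prP P) (fun p => (p : ℝ)) σ ≤ M)
    (hE1 : ∑ σ, |cw (prP P) (yP Q k P L) σ| * mulc (prP P) (fun p => (p : ℝ) + 1) σ ≤ E)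
    (hE2 : 2 * (Real.exp (L / 48 + L) * ∏ t : IP P, (1 + 3 * ((k : ℝ) + 1) / (prP P t : ℝ))) ≤ E) :
    ∑ n ∈ Bad α h D D' N v X lz, (wZ Q (uB α) (wB h N) P L n) ^ 2 ≤
      ((k : ℝ) + 1) * (4 * ((X : ℝ) / WW D * VV α h N D D' * M) *
        (((48 + Q.G) / L * C + 4 * C ^ 2 * ((k : ℝ) + 2) / (Q.c * L)) * (lz + 1) +
          ((k : ℝ) + 1) / D') +
        2 * ((X : ℝ) / WW D * VV α h N D D' * M) * (Cl.card / D')) +
      ((k : ℝ) + 1) * (Real.exp lz + Cl.card) *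
        (((Jj : ℝ) + 2) * ((2 : ℝ) ^ 2 ^ Jj) ^ (2 * (C0 * b)) * E ^ 2) := by
  have hG := Q.G0
  have hc := Q.hc
  have hVV0 : 0 ≤ VV α h N D D' := (VV_pos hRC H).le
  have hM0 : 0 ≤ M := (pow_nonneg (m1_nn _ _) _).trans hM
  have hW : (0 : ℝ) < WW D := by exact_mod_cast H.hW
  have hD0 : (0 : ℝ) < D' := by exact_mod_cast (by omega : 0 < D')
  obtain ⟨Er, hEr⟩ : ∃ Er : ℝ, Er = ((Jj : ℝ) + 2) * ((2 : ℝ) ^ 2 ^ Jj) ^ (2 * (C0 * b)) * E ^ 2 :=
    ⟨_, rfl⟩
  obtain ⟨Z0, hZ0⟩ : ∃ Z0 : ℝ, Z0 = (X : ℝ) / WW D * VV α h N D D' * M := ⟨_, rfl⟩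
  have hEr0 : 0 ≤ Er := by rw [hEr]; positivity
  have hZ00 : 0 ≤ Z0 := by rw [hZ0]; positivity
  rw [← hEr, ← hZ0]
  obtain ⟨w, hw⟩ : ∃ w : ℕ → ℝ, w = fun n => (wZ Q (uB α) (wB h N) P L n) ^ 2 := ⟨_, rfl⟩
  have hw0 : ∀ n, 0 ≤ w n := fun n => by rw [hw]; exact sq_nonneg _
  obtain ⟨T1, hT1⟩ : ∃ T1 : Finset ℕ, T1 = P.filter (fun p : ℕ => Real.log p ≤ lz) := ⟨_, rfl⟩
  obtain ⟨T2, hT2⟩ : ∃ T2 : Finset ℕ, T2 = Cl.filter (fun p : ℕ => p.Prime ∧ D' < p ∧ p ∉ P) :=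
    ⟨_, rfl⟩
  have hcov := cover_sum (Ns α h D D' N v X) (Bad α h D D' N v X lz)
    ((T1 ∪ T2) ×ˢ (univ : Finset (Option (Fin k))))
    (fun t n => t.1 ∣ LZ (uB α) (wB h N) t.2 n) w hw0 (Finset.filter_subset _ _) (by
      intro n hn
      unfold Bad at hn
      rw [Finset.mem_filter] at hn
      obtain ⟨h1, p, hp, hpl, q, hd⟩ := hn
      have hbig := bad_big hRC H X n p h1 hp q hd
      refine ⟨(p, q), ?_, hd⟩
      rw [Finset.mem_product, Finset.mem_union]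
      refine ⟨?_, Finset.mem_univ _⟩
      by_cases hpP : p ∈ P
      · left
        rw [hT1, Finset.mem_filter]
        exact ⟨hpP, hpl⟩
      · right
        rw [hT2, Finset.mem_filter]
        exact ⟨hCl p hp hbig hpl hpP, hp, hbig, hpP⟩)
  have hdisj : Disjoint T1 T2 := by
    rw [Finset.disjoint_left]
    intro p h1 h2
    rw [hT1, Finset.mem_filter] at h1
    rw [hT2, Finset.mem_filter] at h2
    exact h2.2.2.2 h1.1
  rw [Finset.sum_product, Finset.sum_union hdisj] at hcov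
  -- the two parts
  obtain ⟨τ, hτ⟩ : ∃ τ : ℕ → ℝ, τ = fun p : ℕ => (48 + Q.G) / L * Real.log p +
          ((k : ℝ) + 1) / ((p : ℝ) - 1) +
          2 * C * ((k : ℝ) + 1 + 1) * (Real.log p + 1) / (Q.c * L) := ⟨_, rfl⟩
  have hcardq : (Fintype.card (Option (Fin k)) : ℝ) = (k : ℝ) + 1 := by
    simp
  have hp1 : ∀ p ∈ T1, ∑ q : Option (Fin k), ∑ n ∈ (Ns α h D D' N v X).filter
      (fun n => p ∣ LZ (uB α) (wB h N) q n), w n ≤
      ((k : ℝ) + 1) * (4 * Z0 * (τ p / p) + Er) := by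
    intro p hp
    rw [hT1, Finset.mem_filter] at hp
    have hpp := (H.hP p hp.1).1
    have hpR : (0 : ℝ) < p := by exact_mod_cast hpp.pos
    have hp2 : (2 : ℝ) ≤ p := by exact_mod_cast hpp.two_le
    have hlog : 0 ≤ Real.log p := Real.log_natCast_nonneg p
    have hτ0 : 0 ≤ τ p := by
      rw [hτ]
      have : (0 : ℝ) < (p : ℝ) - 1 := by linarith
      positivity
    have h1 : ∀ q : Option (Fin k), ∑ n ∈ (Ns α h D D' N v X).filter
        (fun n => p ∣ LZ (uB α) (wB h N) q n), w n ≤ 4 * Z0 * (τ p / p) + Er := by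
      intro q
      have h2 := small_one hPS hRC hSd hS1G H Q L C b Jj X hb hCD hJ hL hC hcheb ⟨p, hp.1⟩ q
        (by
          have : (prP P ⟨p, hp.1⟩ : ℕ) = p := rfl
          rw [this]
          linarith [hp.2])
      have e1 : (prP P ⟨p, hp.1⟩ : ℕ) = p := rfl
      simp only [e1] at h2
      rw [hw]
      refine h2.trans ?_
      have hfac : 2 * ((X : ℝ) / (WW D * p)) * VV α h N D D' *
          (2 * τ p * m1 (prP P) L ^ (k + 1)) ≤ 4 * Z0 * (τ p / p) := by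
        rw [hZ0]
        have e2 : 4 * ((X : ℝ) / WW D * VV α h N D D' * M) * (τ p / p) =
            2 * ((X : ℝ) / (WW D * p)) * VV α h N D D' * (2 * τ p * M) := by
          field_simp
          ring
        rw [e2]
        gcongr
      have hEE : ((Jj : ℝ) + 2) * ((2 : ℝ) ^ 2 ^ Jj) ^ (2 * (C0 * b)) *
          (2 * (Real.exp (L / 48 + L) * ∏ t : IP P, (1 + 3 * ((k : ℝ) + 1) /
            (prP P t : ℝ)))) ^ 2 ≤ Er := by
        rw [hEr]
        have h0 : 0 ≤ 2 * (Real.exp (L / 48 + L) * ∏ t : IP P, (1 + 3 * ((k : ℝ) + 1) /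
            (prP P t : ℝ))) := by positivity
        gcongr
      refine add_le_add ?_ hEE
      refine le_trans (le_of_eq ?_) hfac
      rw [hτ]
    refine (Finset.sum_le_sum fun q _ => h1 q).trans (le_of_eq ?_)
    rw [Finset.sum_const, Finset.card_univ, nsmul_eq_mul, hcardq]
  have hp2 : ∀ p ∈ T2, ∑ q : Option (Fin k), ∑ n ∈ (Ns α h D D' N v X).filter
      (fun n => p ∣ LZ (uB α) (wB h N) q n), w n ≤
      ((k : ℝ) + 1) * (2 * Z0 * (1 / D') + Er) := by
    intro p hp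
    rw [hT2, Finset.mem_filter] at hp
    obtain ⟨-, hpp, hpD, hpP⟩ := hp
    have hpR : (0 : ℝ) < p := by exact_mod_cast hpp.pos
    have h1 : ∀ q : Option (Fin k), ∑ n ∈ (Ns α h D D' N v X).filter
        (fun n => p ∣ LZ (uB α) (wB h N) q n), w n ≤ 2 * Z0 * (1 / D') + Er := by
      intro q
      have h2 := small_cl hPS hRC hSd hS1G H Q L M E b Jj X hb hCD hJ hQ1 hE1 p hpp hpD hpP q
      rw [hw]
      refine h2.trans ?_
      rw [← hEr]
      refine add_le_add ?_ le_rfl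
      rw [hZ0]
      have e2 : 2 * ((X : ℝ) / (WW D * p)) * VV α h N D D' * M =
          2 * ((X : ℝ) / WW D * VV α h N D D' * M) * (1 / p) := by
        field_simp
      rw [e2]
      have h3 : 1 / (p : ℝ) ≤ 1 / D' := by
        apply one_div_le_one_div_of_le hD0
        exact_mod_cast hpD.le
      exact mul_le_mul_of_nonneg_left h3 (by positivity)
    refine (Finset.sum_le_sum fun q _ => h1 q).trans (le_of_eq ?_)
    rw [Finset.sum_const, Finset.card_univ, nsmul_eq_mul, hcardq]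
  have hs1 := Finset.sum_le_sum hp1
  have hs2 := Finset.sum_le_sum hp2
  -- the sums
  have hcheb0 := hcheb P (fun p hp => (H.hP p hp).1) 0 lz hlz
  rw [zero_add] at hcheb0
  have hlogsum : ∑ p ∈ T1, Real.log p / p ≤ C * (lz + 1) := by
    refine le_trans ?_ hcheb0
    have e : T1 ⊆ P.filter (fun p : ℕ => (0 : ℝ) < Real.log p ∧ Real.log p ≤ lz) := by
      intro p hp
      rw [hT1, Finset.mem_filter] at hp
      rw [Finset.mem_filter]
      refine ⟨hp.1, Real.log_pos ?_, hp.2⟩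
      exact_mod_cast (H.hP p hp.1).1.one_lt
    refine (Finset.sum_le_sum fun p hp => ?_).trans
      (Finset.sum_le_sum_of_subset_of_nonneg e fun p _ _ => ?_)
    · rw [hT1, Finset.mem_filter] at hp
      have hpp := (H.hP p hp.1).1
      have hp2 : (2 : ℝ) ≤ p := by exact_mod_cast hpp.two_le
      have hlog : 0 ≤ Real.log p := Real.log_natCast_nonneg p
      rw [div_eq_mul_one_div, mul_comm]
      apply mul_le_mul_of_nonneg_right _ hlog
      rw [div_le_div_iff₀ (by linarith) (by nlinarith)]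
      nlinarith
    · exact mul_nonneg (by positivity) (Real.log_natCast_nonneg _)
  have htail : ∑ p ∈ T1, 1 / ((p : ℝ) * ((p : ℝ) - 1)) ≤ 1 / (D' : ℝ) :=
    tail_sum T1 D' (by omega) fun p hp => by
      rw [hT1, Finset.mem_filter] at hp
      exact (H.hP p hp.1).2
  have hτs : ∑ p ∈ T1, τ p / p ≤ ((48 + Q.G) / L * C + 4 * C ^ 2 * ((k : ℝ) + 2) / (Q.c * L)) *
      (lz + 1) + ((k : ℝ) + 1) / D' := by
    have h1 : ∀ p ∈ T1, τ p / p ≤ ((48 + Q.G) / L + 4 * C * ((k : ℝ) + 2) / (Q.c * L)) *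
        (Real.log p / p) + ((k : ℝ) + 1) * (1 / ((p : ℝ) * ((p : ℝ) - 1))) := by
      intro p hp
      rw [hT1, Finset.mem_filter] at hp
      have hpp := (H.hP p hp.1).1
      have hp2 : (2 : ℝ) ≤ p := by exact_mod_cast hpp.two_le
      have hp4 : (4 : ℝ) ≤ p := by
        have := (H.hP p hp.1).2
        exact_mod_cast (by omega : 4 ≤ p)
      have hp0 : (p : ℝ) ≠ 0 := by linarith
      have hp1 : (p : ℝ) - 1 ≠ 0 := by linarith
      have hlog1 : 1 ≤ Real.log p := by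
        rw [Real.le_log_iff_exp_le (by linarith)]
        have := Real.exp_one_lt_d9
        linarith
      have e1 : τ p / p = (48 + Q.G) / L * (Real.log p / p) +
          2 * C * ((k : ℝ) + 2) / (Q.c * L) * ((Real.log p + 1) / p) +
          ((k : ℝ) + 1) * (1 / ((p : ℝ) * ((p : ℝ) - 1))) := by
        rw [hτ]
        have := hL.ne'
        have := hc.ne'
        field_simp
        ring
      rw [e1]
      have h3 : (Real.log p + 1) / p ≤ 2 * (Real.log p / p) := by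
        rw [← mul_div_assoc]
        apply div_le_div_of_nonneg_right _ (by linarith)
        linarith
      have h4 : 2 * C * ((k : ℝ) + 2) / (Q.c * L) * ((Real.log p + 1) / p) ≤
          2 * C * ((k : ℝ) + 2) / (Q.c * L) * (2 * (Real.log p / p)) :=
        mul_le_mul_of_nonneg_left h3 (by positivity)
      have e2 : 2 * C * ((k : ℝ) + 2) / (Q.c * L) * (2 * (Real.log p / p)) =
          4 * C * ((k : ℝ) + 2) / (Q.c * L) * (Real.log p / p) := by ring
      rw [e2] at h4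
      linarith
    refine (Finset.sum_le_sum h1).trans ?_
    rw [Finset.sum_add_distrib, ← Finset.mul_sum, ← Finset.mul_sum]
    have h5 : ((48 + Q.G) / L + 4 * C * ((k : ℝ) + 2) / (Q.c * L)) * ∑ p ∈ T1, Real.log p / p ≤
        ((48 + Q.G) / L + 4 * C * ((k : ℝ) + 2) / (Q.c * L)) * (C * (lz + 1)) :=
      mul_le_mul_of_nonneg_left hlogsum (by positivity)
    have h6 : ((k : ℝ) + 1) * ∑ p ∈ T1, 1 / ((p : ℝ) * ((p : ℝ) - 1)) ≤
        ((k : ℝ) + 1) * (1 / (D' : ℝ)) := mul_le_mul_of_nonneg_left htail (by positivity)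
    have e3 : ((48 + Q.G) / L * C + 4 * C ^ 2 * ((k : ℝ) + 2) / (Q.c * L)) * (lz + 1) =
        ((48 + Q.G) / L + 4 * C * ((k : ℝ) + 2) / (Q.c * L)) * (C * (lz + 1)) := by ring
    rw [e3, div_eq_mul_one_div ((k : ℝ) + 1) (D' : ℝ)]
    linarith
  have hc1 : (T1.card : ℝ) ≤ Real.exp lz := by
    have h1 : T1 ⊆ Icc 1 ⌊Real.exp lz⌋₊ := by
      intro p hp
      rw [hT1, Finset.mem_filter] at hp
      have hpp := (H.hP p hp.1).1
      rw [Finset.mem_Icc]
      refine ⟨hpp.one_lt.le, Nat.le_floor ?_⟩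
      rw [← Real.log_le_iff_le_exp (by exact_mod_cast hpp.pos)]
      exact hp.2
    have h2 := Finset.card_le_card h1
    rw [Nat.card_Icc, Nat.add_sub_cancel] at h2
    exact (by exact_mod_cast h2 : (T1.card : ℝ) ≤ (⌊Real.exp lz⌋₊ : ℝ)).trans
      (Nat.floor_le (Real.exp_pos _).le)
  have hc2 : (T2.card : ℝ) ≤ Cl.card := by
    rw [hT2]
    exact_mod_cast Finset.card_le_card (Finset.filter_subset _ _)
  have hf1 : ∑ p ∈ T1, ((k : ℝ) + 1) * (4 * Z0 * (τ p / p) + Er) ≤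
      ((k : ℝ) + 1) * (4 * Z0 * (((48 + Q.G) / L * C + 4 * C ^ 2 * ((k : ℝ) + 2) / (Q.c * L)) *
      (lz + 1) + ((k : ℝ) + 1) / D') + Real.exp lz * Er) := by
    rw [← Finset.mul_sum, Finset.sum_add_distrib, ← Finset.mul_sum, Finset.sum_const,
      nsmul_eq_mul]
    gcongr
  have hf2 : ∑ _p ∈ T2, ((k : ℝ) + 1) * (2 * Z0 * (1 / D') + Er) ≤
      ((k : ℝ) + 1) * (2 * Z0 * (Cl.card / D') + Cl.card * Er) := by
    rw [Finset.sum_const, nsmul_eq_mul]
    have e : ((k : ℝ) + 1) * (2 * Z0 * (Cl.card / D') + Cl.card * Er) =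
        Cl.card * (((k : ℝ) + 1) * (2 * Z0 * (1 / D') + Er)) := by ring
    rw [e]
    gcongr
  have hcov' : ∑ n ∈ Bad α h D D' N v X lz, w n ≤
      ∑ p ∈ T1, ∑ q : Option (Fin k), ∑ n ∈ (Ns α h D D' N v X).filter
      (fun n => p ∣ LZ (uB α) (wB h N) q n), w n +
      ∑ p ∈ T2, ∑ q : Option (Fin k), ∑ n ∈ (Ns α h D D' N v X).filter
      (fun n => p ∣ LZ (uB α) (wB h N) q n), w n := by
    refine hcov.trans (le_of_eq ?_)
    congr 1
    · refine Finset.sum_congr rfl fun p _ => Finset.sum_congr rfl fun q _ => ?_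
      congr!
    · refine Finset.sum_congr rfl fun p _ => Finset.sum_congr rfl fun q _ => ?_
      congr!
  have hfin := (hcov'.trans (add_le_add hs1 hs2)).trans (add_le_add hf1 hf2)
  rw [hw] at hfin
  refine hfin.trans (le_of_eq ?_)
  ring

end Pool.Agent.Y827.RO
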