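import Mathlib
import Pool.Agent.Y827.LS.Core
import Pool.Agent.Y827.RO.SmallF

/-! Project RO: the counting argument, right order of magnitude. -/

set_option autoImplicit false

namespace Pool.Agent.Y827.RO

open Finset Filter Topology
open Pool.Agent.H410R2 hiding GP GP_prof GP_cut_some GP_cut_none GP_lip gg_pos gg_le_one gg_anti ee_bound ee_nonneg gg_lip LB_gg LB_ee Sums exists_sums yx wx wxi Br sum_GP_none sum_GP_some sum_GP_some_ee sum_GP_some_one sum_GPr_none sum_GPr_some S1_final QI_final S2_final w_abs_le wmax gg ee I1 I2 IE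
open Pool.Agent.H361R2.GM
open Pool.Agent.H362R2.CM
open Pool.Agent.W25.UN
open Pool.Agent.W25.UB
open Pool.Agent.TH899.UG
open Pool.Agent.W804.UBUD
open Pool.Agent.H442R2.KF (Wt)
open Pool.Agent.W23.PL (DW Ev hat xx)
open Pool.Agent.Y827.LS

open Classical in
theorem core_atR {T K Mc nb : ℕ} {Q : SPar} {α h : Fin (T * K) → ℤ} {θ ε₁ ρ ρ₁ ε η₀ CR κ₁ g0 : ℝ}
    {Mo A E₁ D B N v D₁ Zl : ℕ} {Tr : ℤ → ℝ} {t : ℝ} {th dl b : ℕ → ℝ} {Zb : ℕ → ℕ}
    {cb : ℕ → ℕ → ℝ}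
    (h0 : St_U0F) (h1 : St_L1F) (h2 : St_U2F) (hd : St_UDF) (hNWU : St_NWU) (hNWE : St_NWE)
    (hI1 : ε < Q.I1) (hI2 : ε < Q.I2) (hBr : 0 < Br Q (T * K) ε) (hBr2 : 0 < Br2 Q (T * K) ε)
    (hCR : 1 ≤ CR) (hκ₁ : 0 ≤ κ₁) (hg0 : 0 ≤ g0)
    (hnum : (1 + muL Q T K nb g0 ε₁ ρ CR κ₁ ε) * ((Mc + 2 * ε) * Ac Q (T * K) ε) <
      T * (K * (ρ * βc Q (T * K) ε)))
    (HL : DatL Q α h Mo θ ε₁ ρ ρ₁ ε η₀ CR κ₁ g0 nb A E₁ D B N v D₁ Zl Tr t th dl b Zb cb)
    (hHB : HB h Mo N) (hnd : Nd α h Mo)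
    (cl : Fin (T * K) → Fin T) (hcl : ∀ g, (univ.filter (fun i => cl i = g)).card = K)
    (hD : 2 ≤ D)
    (hTa : ∀ r < Rn (ε / 400), ∑ n ∈ Ns α h D (DB (2 * N) B) Mo v N,
      lt (ctr (ε / 400) r * N) (ε / 400 * (ctr (ε / 400) r * N)) n *
        (wZ Q (uB α) (wB h Mo) (PBF α h Mo N B ρ₁) (ρ * Real.log N) n) ^ 2 ≤
      ZZ (T * K) (Pool.Agent.W25.UN.VV α h Mo D (DB (2 * N) B))
        (ε / 400 * (ctr (ε / 400) r * N)) (WW D) (BD (DB (2 * N) B)) (ρ * Real.log N) *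
        Ac Q (T * K) ε)
    (hTb : ∀ r < Rn (ε / 400), ∀ i : Fin (T * K),
      ZZ (T * K) (Pool.Agent.W25.UN.VV α h Mo D (DB (2 * N) B))
        (ε / 400 * (ctr (ε / 400) r * N)) (WW D) (BD (DB (2 * N) B)) (ρ * Real.log N) *
        (ρ * βc Q (T * K) ε) ≤ ∑ n ∈ Ns α h D (DB (2 * N) B) Mo v N,
      (if (Fm α h Mo i n).toNat.Prime then
        lt (ctr (ε / 400) r * N) (ε / 400 * (ctr (ε / 400) r * N)) n *
        (wZ Q (uB α) (wB h Mo) (PBF α h Mo N B ρ₁) (ρ * Real.log N) n) ^ 2 else 0))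
    (hh : PosF α h Mo N) (hbig : ((2 * N : ℕ) : ℝ) ^ ε₁ ≤ N / 64)
    (hbigθ : ((2 * N : ℕ) : ℝ) ^ θ ≤ N / 64)
    (δ lz Cq ε' c : ℝ) (hδ : lz = δ * Real.log N) (hCq : 0 ≤ Cq) (hc : 0 ≤ c)
    (hsm : ∑ n ∈ Bad α h D (DB (2 * N) B) Mo v N lz,
        (wZ Q (uB α) (wB h Mo) (PBF α h Mo N B ρ₁) (ρ * Real.log N) n) ^ 2 ≤
      ε' * ((N : ℝ) / WW D * Pool.Agent.W25.UN.VV α h Mo D (DB (2 * N) B) *
        (bb N B ρ) ^ (T * K + 1)))
    (hpt : ∀ n : ℕ, 1 ≤ n → n ≤ N → (∀ i, (Mo : ℤ) + α i * n + h i ≠ 0) →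
      (∀ p : ℕ, p.Prime → Real.log p ≤ lz → ∀ q, ¬ p ∣ LZ (uB α) (wB h Mo) q n) →
      (wZ Q (uB α) (wB h Mo) (PBF α h Mo N B ρ₁) (ρ * Real.log N) n) ^ 2 ≤
        Cq * (bb N B ρ) ^ (2 * (T * K + 1)))
    (hε' : 6144 * T * ε' ≤ ε * Ac Q (T * K) ε) (hcE : 6144 * T * (c * Cq) ≤ ε * Ac Q (T * K) ε) :
    c * ((N : ℝ) / WW D * Pool.Agent.W25.UN.VV α h Mo D (DB (2 * N) B) /
      (bb N B ρ) ^ (T * K + 1)) ≤ (((Icc 1 N).filter (fun n : ℕ => n ≡ v [MOD (WW D)] ∧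
        (N : ℝ) / 16 ≤ n ∧ (n : ℝ) ≤ N / 2 ∧
        (∀ p : ℕ, p.Prime → Real.log p ≤ lz → ∀ q, ¬ p ∣ LZ (uB α) (wB h Mo) q n) ∧
        Mc + 1 ≤ (univ.filter (fun g : Fin T => ∃ i, cl i = g ∧
          (Fm α h Mo i n).toNat.Prime)).card)).card : ℝ) := by
  have H := HL.dB
  have hε := H.ε0
  have hε3 := H.ε3
  have hI1p : 0 < Q.I1 := hε.trans hI1
  have hI2p : 0 < Q.I2 := hε.trans hI2
  have h1ε : 0 < 1 - ε := by linarith
  have hI1ε : 0 < Q.I1 - ε := by linarith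
  have hρ := H.ρ0
  have hAc : 0 < Ac Q (T * K) ε := by unfold Ac; positivity
  have hβc : 0 < βc Q (T * K) ε := by unfold βc; positivity
  have hN8 := H.N8
  have hN0 : 0 < N := by omega
  have hNR : (0 : ℝ) < N := by exact_mod_cast hN0
  have hl1 := H.l1
  have hl : 0 < Real.log N := by linarith
  have hW : (0 : ℝ) < ((WW D / 2 : ℕ) : ℝ) := by
    have := H.W2
    exact_mod_cast (by omega : 0 < WW D / 2)
  have hVp := H.Vp
  have hb1 := H.b1
  have hbp : 0 < bb N B ρ := by linarith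
  have hκ : 0 < ε / 400 := by positivity
  have hκ1 : ε / 400 ≤ 1 / 400 := by linarith
  set κ : ℝ := ε / 400 with hκd
  set E : Finset ℕ := (Icc 1 N).filter (fun n : ℕ => n ≡ v [MOD (WW D)] ∧
        (N : ℝ) / 16 ≤ n ∧ (n : ℝ) ≤ N / 2 ∧
        (∀ p : ℕ, p.Prime → Real.log p ≤ lz → ∀ q, ¬ p ∣ LZ (uB α) (wB h Mo) q n) ∧
        Mc + 1 ≤ (univ.filter (fun g : Fin T => ∃ i, cl i = g ∧
          (Fm α h Mo i n).toNat.Prime)).card) with hE
  set E2 : Finset ℕ := (Icc 1 N).filter (fun n : ℕ => n ≡ v [MOD (WW D)] ∧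
        (N : ℝ) / 16 ≤ n ∧ (n : ℝ) ≤ N / 2 ∧
        Mc + 1 ≤ (univ.filter (fun g : Fin T => ∃ i, cl i = g ∧
          (Fm α h Mo i n).toNat.Prime)).card) with hE2
  by_contra hcon
  push Not at hcon
  set w2 : ℕ → ℝ := fun n =>
    (wZ Q (uB α) (wB h Mo) (PBF α h Mo N B ρ₁) (ρ * Real.log N) n) ^ 2 with hw2
  have hw20 : ∀ n, 0 ≤ w2 n := fun n => sq_nonneg _
  set S : Finset ℕ := (Ns α h D (DB (2 * N) B) Mo v N).filter
    (fun n : ℕ => (N : ℝ) / 16 ≤ n ∧ (n : ℝ) ≤ N / 2) with hS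
  set u : ℕ → ℝ := fun n => Ut κ N n * w2 n with hu
  have hu0 : ∀ n, 0 ≤ u n := fun n => mul_nonneg (Ut_nonneg _ _ _) (hw20 n)
  have hSm : ∀ n ∈ S, n ∈ Ns α h D (DB (2 * N) B) Mo v N ∧ (N : ℝ) / 16 ≤ n ∧
      (n : ℝ) ≤ N / 2 := by
    intro n hn
    rw [hS, Finset.mem_filter] at hn
    exact hn
  have hNsm : ∀ n ∈ Ns α h D (DB (2 * N) B) Mo v N, 1 ≤ n ∧ n ≤ N ∧ n ≡ v [MOD (WW D)] := by
    intro n hn
    unfold Ns at hn
    rw [Finset.mem_filter, Finset.mem_Icc] at hn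
    exact ⟨hn.1.1, hn.1.2, hn.2.1⟩
  set Zr : ℕ → ℝ := fun r => ZZ (T * K) (Pool.Agent.W25.UN.VV α h Mo D (DB (2 * N) B))
        (κ * (ctr κ r * N)) (WW D) (BD (DB (2 * N) B)) (ρ * Real.log N) with hZr
  set Z : ℝ := ∑ r ∈ range (Rn κ), Zr r with hZ
  have hMM : MMF α h Mo D N B ρ ≤ 512 * Z :=
    MM_leF α h Mo D N B ρ κ hκ hD H.W2 hVp hbp
  -- the main size
  obtain ⟨Z1, hZ1⟩ : ∃ Z1 : ℝ, Z1 = (N : ℝ) / WW D * Pool.Agent.W25.UN.VV α h Mo D
      (DB (2 * N) B) * (bb N B ρ) ^ (T * K + 1) := ⟨_, rfl⟩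
  have hWW : ((WW D : ℕ) : ℝ) = 2 * ((WW D / 2 : ℕ) : ℝ) := by
    have h1 : 2 * (WW D / 2) = WW D := Nat.mul_div_cancel' (two_dvd_WW hD)
    have h2 : ((2 * (WW D / 2) : ℕ) : ℝ) = ((WW D : ℕ) : ℝ) := by rw [h1]
    rw [← h2]
    push_cast
    ring
  have hWp : (0 : ℝ) < WW D := by rw [hWW]; positivity
  have hZ1p : 0 < Z1 := by rw [hZ1]; positivity
  have hZ1M : Z1 = 12 * MMF α h Mo D N B ρ := by
    rw [hZ1, hWW]
    unfold MMF
    push_cast
    field_simp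
    ring
  have hZ1Z : Z1 ≤ 6144 * Z := by rw [hZ1M]; linarith
  have hZp : 0 < Z := by linarith
  -- first sum
  have hS1 : ∑ n ∈ S, u n ≤ Z * Ac Q (T * K) ε := by
    have h3 : ∑ n ∈ S, u n ≤ ∑ n ∈ Ns α h D (DB (2 * N) B) Mo v N, u n :=
      Finset.sum_le_sum_of_subset_of_nonneg (Finset.filter_subset _ _) (fun n _ _ => hu0 n)
    refine h3.trans ?_
    have h4 : ∑ n ∈ Ns α h D (DB (2 * N) B) Mo v N, u n =
        ∑ r ∈ range (Rn κ), ∑ n ∈ Ns α h D (DB (2 * N) B) Mo v N,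
          lt (ctr κ r * N) (κ * (ctr κ r * N)) n * w2 n := by
      rw [Finset.sum_comm]
      refine Finset.sum_congr rfl fun n _ => ?_
      simp only [hu, Ut]
      rw [Finset.sum_mul]
    rw [h4, hZ, Finset.sum_mul]
    exact Finset.sum_le_sum fun r hr => hTa r (Finset.mem_range.1 hr)
  -- prime sums
  have hS2 : ∀ i : Fin (T * K), Z * (ρ * βc Q (T * K) ε) ≤
      ∑ n ∈ S, if (Fm α h Mo i n).toNat.Prime then u n else 0 := by
    intro i
    have h3 : ∑ n ∈ S, (if (Fm α h Mo i n).toNat.Prime then u n else 0) =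
        ∑ n ∈ Ns α h D (DB (2 * N) B) Mo v N,
          (if (Fm α h Mo i n).toNat.Prime then u n else 0) := by
      apply Finset.sum_subset (Finset.filter_subset _ _)
      intro n hn hnS
      have h4 : u n = 0 := by
        by_contra hne
        apply hnS
        rw [Finset.mem_filter]
        refine ⟨hn, ?_⟩
        apply Ut_range hκ hκ1 hN0
        intro h5
        apply hne
        simp only [hu]
        rw [h5, zero_mul]
      rw [h4]
      simp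
    rw [h3]
    have h4 : ∑ n ∈ Ns α h D (DB (2 * N) B) Mo v N,
          (if (Fm α h Mo i n).toNat.Prime then u n else 0) =
        ∑ r ∈ range (Rn κ), ∑ n ∈ Ns α h D (DB (2 * N) B) Mo v N,
          (if (Fm α h Mo i n).toNat.Prime then
            lt (ctr κ r * N) (κ * (ctr κ r * N)) n * w2 n else 0) := by
      rw [Finset.sum_comm]
      refine Finset.sum_congr rfl fun n _ => ?_
      split_ifs
      · simp only [hu, Ut]
        rw [Finset.sum_mul]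
      · simp
    rw [h4, hZ, Finset.sum_mul]
    exact Finset.sum_le_sum fun r hr => hTb r (Finset.mem_range.1 hr) i
  -- pair sums
  have hnn : ∀ (j : Fin (T * K)) (n : ℤ), 0 ≤ sjL α h Mo ε₁ B N Zl b j n := fun j n =>
    mul_nonneg (FF_nonneg _ _ _ _ _ _ _ _) (HL.bn _)
  have hone : ∀ (j : Fin (T * K)) (n : ℕ), (N : ℝ) / 16 ≤ n → (n : ℝ) ≤ N / 2 →
      (Fm α h Mo j n).toNat.Prime → 1 ≤ sjL α h Mo ε₁ B N Zl b j n := by
    intro j n hn1 hn2 hp
    have h3 : FF α h Mo ε₁ B N j n = 1 := by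
      unfold FF xx
      rw [if_pos]
      intro p hp'
      have h4 := H.gd p (Finset.mem_union_right _ hp')
      exact no_smallF hn1 hn2 hh hN0 hp h4.1.1 (h4.2.2.trans hbig)
    have h5 : ds b Zl (Lf α h Mo (some j) n) = 1 := by
      apply HL.bo
      intro p hp1 hp2
      exact no_smallF hn1 hn2 hh hN0 hp hp1 (hp2.trans hbigθ)
    unfold sjL
    rw [h3, h5, mul_one]
  have hmuc : 0 ≤ muL Q T K nb g0 ε₁ ρ CR κ₁ ε := by
    unfold muL
    positivity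
  have hS3 : ∀ g : Fin T, ∀ i ∈ univ.filter (fun i => cl i = g),
      ∑ j ∈ (univ.filter (fun i => cl i = g)).erase i,
        (∑ n ∈ S, if (Fm α h Mo i n).toNat.Prime ∧ (Fm α h Mo j n).toNat.Prime then u n else 0) ≤
      muL Q T K nb g0 ε₁ ρ CR κ₁ ε * ∑ n ∈ S, if (Fm α h Mo i n).toNat.Prime then u n else 0 := by
    intro g i hi
    set J := (univ.filter (fun i => cl i = g)).erase i with hJ
    set f : ℕ → ℝ := fun n => if (Fm α h Mo i n).toNat.Prime then u n else 0 with hf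
    have hf0 : ∀ n ∈ S, 0 ≤ f n := by
      intro n _
      simp only [hf]
      split_ifs
      · exact hu0 n
      · exact le_rfl
    have hmu0 := muF_nonneg H i
    have hfm : ∀ n ∈ S, f n ≤ 2 * muF Q α h Mo ρ ρ₁ D B N v Tr i n := by
      intro n hn
      obtain ⟨hn1, hn0, hn2⟩ := hSm n hn
      simp only [hf]
      split_ifs with hp
      · have h3 := pt_leF hNWE H hD i n hn1 hn0 hn2 hh hbig hp
        have h4 : u n ≤ 1 * w2 n :=
          mul_le_mul_of_nonneg_right (Ut_le_one hκ hN0 _) (hw20 n)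
        rw [one_mul] at h4
        exact h4.trans h3
      · have := hmu0 n
        linarith
    have hJK : J.card ≤ K := (Finset.card_le_card (Finset.erase_subset _ _)).trans (hcl g).le
    have hpair := pairL h0 h1 h2 hd hNWU hNWE hI1 hI2 hBr2 hCR hκ₁ HL hHB hnd i J
      (Finset.notMem_erase i _) hJK S f hf0 hfm hβc Z hMM (hS2 i)
    refine le_trans ?_ hpair
    rw [Finset.sum_comm]
    apply Finset.sum_le_sum
    intro n hn
    obtain ⟨hn1, hn0, hn2⟩ := hSm n hn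
    rw [Finset.mul_sum]
    apply Finset.sum_le_sum
    intro j _
    by_cases hpi : (Fm α h Mo i n).toNat.Prime
    · by_cases hpj : (Fm α h Mo j n).toNat.Prime
      · rw [if_pos ⟨hpi, hpj⟩]
        have h3 := hone j n hn0 hn2 hpj
        have h4 : f n = u n := by simp only [hf]; rw [if_pos hpi]
        rw [h4]
        exact le_mul_of_one_le_right (hu0 n) h3
      · rw [if_neg (fun h' => hpj h'.2)]
        exact mul_nonneg (hf0 n hn) (hnn j n)
    · rw [if_neg (fun h' => hpi h'.1)]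
      exact mul_nonneg (hf0 n hn) (hnn j n)
  -- exceptional set
  have hS4 : ∀ n ∈ S, n ∉ E2 → (univ.filter (fun g : Fin T => ∃ i, cl i = g ∧
      (Fm α h Mo i n).toNat.Prime)).card ≤ Mc := by
    intro n hn hnE
    by_contra hc
    apply hnE
    obtain ⟨hn1, hn2, hn3⟩ := hSm n hn
    obtain ⟨hn4, hn5, hn6⟩ := hNsm n hn1
    rw [hE2, Finset.mem_filter, Finset.mem_Icc]
    exact ⟨⟨hn4, hn5⟩, hn6, hn2, hn3, Nat.succ_le_of_lt (not_le.1 hc)⟩
  have hS5 : T * ∑ n ∈ S.filter (fun n => n ∈ E2), u n ≤ Z * (2 * ε * Ac Q (T * K) ε) := by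
    have hu2 : ∀ n, u n ≤ w2 n := by
      intro n
      have h3 : u n ≤ 1 * w2 n :=
        mul_le_mul_of_nonneg_right (Ut_le_one hκ hN0 _) (hw20 n)
      rwa [one_mul] at h3
    have hsub : S.filter (fun n => n ∈ E2) ⊆ Bad α h D (DB (2 * N) B) Mo v N lz ∪
        S.filter (fun n => n ∈ E) := by
      intro n hn
      rw [Finset.mem_filter] at hn
      obtain ⟨hnS, hnE⟩ := hn
      obtain ⟨hn1, hn2, hn3⟩ := hSm n hnS
      rw [Finset.mem_union]
      by_cases hb : ∃ p : ℕ, p.Prime ∧ Real.log p ≤ lz ∧ ∃ q, p ∣ LZ (uB α) (wB h Mo) q n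
      · left
        unfold Bad
        rw [Finset.mem_filter]
        exact ⟨hn1, hb⟩
      · right
        rw [Finset.mem_filter]
        refine ⟨hnS, ?_⟩
        rw [hE2, Finset.mem_filter] at hnE
        rw [hE, Finset.mem_filter]
        refine ⟨hnE.1, hnE.2.1, hnE.2.2.1, hnE.2.2.2.1, ?_, hnE.2.2.2.2⟩
        intro p hp hpl q hd
        exact hb ⟨p, hp, hpl, q, hd⟩
    have h1 : ∑ n ∈ S.filter (fun n => n ∈ E2), u n ≤
        ∑ n ∈ Bad α h D (DB (2 * N) B) Mo v N lz, w2 n + ∑ n ∈ S.filter (fun n => n ∈ E), w2 n := by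
      calc ∑ n ∈ S.filter (fun n => n ∈ E2), u n ≤ ∑ n ∈ S.filter (fun n => n ∈ E2), w2 n :=
            Finset.sum_le_sum fun n _ => hu2 n
        _ ≤ ∑ n ∈ Bad α h D (DB (2 * N) B) Mo v N lz ∪ S.filter (fun n => n ∈ E), w2 n :=
            Finset.sum_le_sum_of_subset_of_nonneg hsub fun n _ _ => hw20 n
        _ ≤ _ := by
            rw [← Finset.sum_union_inter]
            have : 0 ≤ ∑ n ∈ Bad α h D (DB (2 * N) B) Mo v N lz ∩ S.filter (fun n => n ∈ E),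
              w2 n := Finset.sum_nonneg fun n _ => hw20 n
            linarith
    have h2 : ∑ n ∈ S.filter (fun n => n ∈ E), w2 n ≤ c * Cq * Z1 := by
      have h3 : ∑ n ∈ S.filter (fun n => n ∈ E), w2 n ≤
          ∑ _n ∈ S.filter (fun n => n ∈ E), Cq * (bb N B ρ) ^ (2 * (T * K + 1)) := by
        apply Finset.sum_le_sum
        intro n hn
        rw [Finset.mem_filter] at hn
        obtain ⟨hn1, hn2, hn3⟩ := hSm n hn.1
        obtain ⟨hn4, hn5, hn6⟩ := hNsm n hn1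
        have hnE := hn.2
        rw [hE, Finset.mem_filter] at hnE
        refine hpt n hn4 hn5 ?_ hnE.2.2.2.2.1
        intro i h4
        have h5 := hh i n hn2 hn3
        have h6 : Fm α h Mo i n = 0 := h4
        rw [h6] at h5
        push_cast at h5
        linarith
      refine h3.trans ?_
      rw [Finset.sum_const, nsmul_eq_mul]
      have h4 : ((S.filter (fun n => n ∈ E)).card : ℝ) ≤ E.card := by
        exact_mod_cast Finset.card_le_card (fun n hn => (Finset.mem_filter.1 hn).2)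
      have h5 : ((S.filter (fun n => n ∈ E)).card : ℝ) ≤ c * ((N : ℝ) / WW D *
          Pool.Agent.W25.UN.VV α h Mo D (DB (2 * N) B) / (bb N B ρ) ^ (T * K + 1)) :=
        h4.trans hcon.le
      calc ((S.filter (fun n => n ∈ E)).card : ℝ) * (Cq * (bb N B ρ) ^ (2 * (T * K + 1))) ≤
          c * ((N : ℝ) / WW D * Pool.Agent.W25.UN.VV α h Mo D (DB (2 * N) B) /
            (bb N B ρ) ^ (T * K + 1)) * (Cq * (bb N B ρ) ^ (2 * (T * K + 1))) :=
            mul_le_mul_of_nonneg_right h5 (by positivity)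
        _ = c * Cq * Z1 := by
            rw [hZ1, two_mul (T * K + 1), pow_add (bb N B ρ) (T * K + 1) (T * K + 1)]
            have hbq : 0 < bb N B ρ ^ (T * K + 1) := by positivity
            obtain ⟨bq, hbqd⟩ : ∃ bq : ℝ, bq = bb N B ρ ^ (T * K + 1) := ⟨_, rfl⟩
            rw [← hbqd] at hbq ⊢
            field_simp
    have h3 : ∑ n ∈ S.filter (fun n => n ∈ E2), u n ≤ (ε' + c * Cq) * Z1 := by
      refine h1.trans ?_
      rw [← hZ1] at hsm
      have : ∑ n ∈ Bad α h D (DB (2 * N) B) Mo v N lz, w2 n ≤ ε' * Z1 := hsm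
      linarith
    have hTr : (0 : ℝ) ≤ T := Nat.cast_nonneg _
    have hεc : 0 ≤ (ε' + c * Cq) := by
      have h4 : 0 ≤ (ε' + c * Cq) * Z1 :=
        (Finset.sum_nonneg fun n _ => hu0 n).trans h3
      exact nonneg_of_mul_nonneg_left h4 hZ1p
    calc T * ∑ n ∈ S.filter (fun n => n ∈ E2), u n ≤ T * ((ε' + c * Cq) * Z1) := by gcongr
      _ ≤ T * ((ε' + c * Cq) * (6144 * Z)) := by gcongr
      _ = (6144 * T * ε' + 6144 * T * (c * Cq)) * Z := by ring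
      _ ≤ (ε * Ac Q (T * K) ε + ε * Ac Q (T * K) ε) * Z := by gcongr
      _ = _ := by ring
  have hfin := countT Mc cl hcl S u (fun n _ => hu0 n)
    (fun i n => (Fm α h Mo i n).toNat.Prime) E2 Z ρ (βc Q (T * K) ε) (Ac Q (T * K) ε)
    (muL Q T K nb g0 ε₁ ρ CR κ₁ ε) (2 * ε) hZp hmuc hS1 hS2 hS3 hS4 hS5
  linarith

end Pool.Agent.Y827.RO
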