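import Mathlib
import Pool.Agent.Y827.RO.SmallF
import Pool.Agent.TH899.UG.PtH
import Pool.Agent.TH899.UG.TWaH
import Pool.Agent.H510R2.Maier.MA4

/-! Project RO: the weights at the numbers without small prime factors. -/

set_option autoImplicit false

namespace Pool.Agent.Y827.RO

open Finset Filter Topology
open Pool.Agent.H410R2 hiding GP GP_prof GP_cut_some GP_cut_none GP_lip gg_pos gg_le_one gg_anti ee_bound ee_nonneg gg_lip LB_gg LB_ee Sums exists_sums yx wx wxi Br sum_GP_none sum_GP_some sum_GP_some_ee sum_GP_some_one sum_GPr_none sum_GPr_some S1_final QI_final S2_final w_abs_le wmax gg ee I1 I2 IE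
open Pool.Agent.H361R2.GM
open Pool.Agent.H362R2.CM
open Pool.Agent.W25.UN Pool.Agent.W25.UB
open Pool.Agent.TH899.UG
open Pool.Agent.W714.UN.Pt (NZ NZ_eq NZ_ne card_le_omega)

theorem pt_abs {k : ℕ} (Q : SPar) (u w : Option (Fin k) → ℤ) (P : Finset ℕ)
    (hP : ∀ p ∈ P, p.Prime)
    (hsd : SieveData (IP P) (Option (Fin k)) (prP P) (LZ u w) 1)
    (L : ℝ) (hL : 0 < L) (n : ℕ) (hn : NZ u w n ≠ 0) :
    |wZ Q u w P L n| ≤ (∏ t : IP P, (1 + ((k : ℝ) + 1) / ((prP P t : ℝ) - 1))) *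
        2 ^ (NZ u w n).primeFactors.card := by
  have hL0 : 0 < L / 48 := by positivity
  have hprof := GP_prof Q k (L) (L / 48) hL hL0
  have hp : ∀ t, 2 ≤ prP P t := fun t => (hsd.prime t).two_le
  have hy : ∀ σ, |yP Q k P L σ| ≤ 1 := by
    intro σ
    rw [yP, abs_of_nonneg (yw_nonneg _ _ _ hprof _ _)]
    exact yw_le_one _ _ _ hprof _ _
  have hcard : (2 : ℝ) ^ (univ.filter (fun t : IP P => ∃ j, prP P t ∣ LZ u w j n)).card ≤
      2 ^ (NZ u w n).primeFactors.card :=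
    pow_le_pow_right₀ (by norm_num) (card_le_omega u w P hP n hn)
  have hc : (Fintype.card (Option (Fin k)) : ℝ) = (k : ℝ) + 1 := by simp
  have h := pointwise (prP P) hp (LZ u w) n (fun t i j => hsd.excl t i j n) (yP Q k P L) hy
      (fun t v => hl (LZ u w) (prP P t) n v) (fun t => by simp [hl]) (fun t j => by
        have h2 : (2 : ℝ) ≤ prP P t := by exact_mod_cast hp t
        simp only [hl]
        split_ifs with h
        · rw [abs_of_nonneg (by linarith)]; linarith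
        · simp)
  rw [hc] at h
  unfold wZ hN
  refine h.trans ?_
  apply mul_le_mul_of_nonneg_left hcard
  refine Finset.prod_nonneg fun t _ => ?_
  have h2 : (2 : ℝ) ≤ prP P t := by exact_mod_cast hp t
  have h1 : (0 : ℝ) < (prP P t : ℝ) - 1 := by linarith
  positivity

/-- the product over the sieving primes -/
theorem prod_up {k : ℕ} (P : Finset ℕ) (D' M : ℕ) (hDM : D' ≤ M)
    (hP : ∀ p ∈ P, p.Prime ∧ D' < p ∧ p ≤ M) :
    ∏ t : IP P, (1 + ((k : ℝ) + 1) / ((prP P t : ℝ) - 1)) ≤ (BD D' / BD M) ^ (k + 1) := by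
  have hsub : P ⊆ (Icc (D' + 1) M).filter Nat.Prime := by
    intro p hp
    obtain ⟨h1, h2, h3⟩ := hP p hp
    rw [Finset.mem_filter, Finset.mem_Icc]
    exact ⟨⟨h2, h3⟩, h1⟩
  have hsplit := BD_split hDM
  have hB := BD_pos D'
  have hM := BD_pos M
  have hterm : ∀ p : ℕ, p.Prime → 1 + ((k : ℝ) + 1) / ((p : ℝ) - 1) ≤
      ((1 - 1 / (p : ℝ))⁻¹) ^ (k + 1) := by
    intro p hp
    have h2 : (2 : ℝ) ≤ p := by exact_mod_cast hp.two_le
    have h1 : (0 : ℝ) < (p : ℝ) - 1 := by linarith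
    have e : (1 - 1 / (p : ℝ))⁻¹ = 1 + 1 / ((p : ℝ) - 1) := by
      have : (p : ℝ) ≠ 0 := by linarith
      field_simp
      ring
    rw [e]
    have h3 := one_add_mul_le_pow (a := 1 / ((p : ℝ) - 1)) (by
      have : 0 ≤ 1 / ((p : ℝ) - 1) := by positivity
      linarith) (k + 1)
    refine le_trans (le_of_eq ?_) h3
    push_cast
    ring
  have hge1 : ∀ p : ℕ, p.Prime → 1 ≤ ((1 - 1 / (p : ℝ))⁻¹) ^ (k + 1) := by
    intro p hp
    have h2 : (2 : ℝ) ≤ p := by exact_mod_cast hp.two_le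
    apply one_le_pow₀
    have h3 : 1 / (p : ℝ) ≤ 1 / 2 := one_div_le_one_div_of_le (by norm_num) h2
    have h4 : 0 < 1 / (p : ℝ) := by positivity
    rw [one_le_inv₀ (by linarith)]
    linarith
  have e1 : ∏ t : IP P, (1 + ((k : ℝ) + 1) / ((prP P t : ℝ) - 1)) =
      ∏ p ∈ P, (1 + ((k : ℝ) + 1) / ((p : ℝ) - 1)) :=
    Finset.prod_coe_sort P (fun p => 1 + ((k : ℝ) + 1) / ((p : ℝ) - 1))
  rw [e1]
  calc ∏ p ∈ P, (1 + ((k : ℝ) + 1) / ((p : ℝ) - 1)) ≤ ∏ p ∈ P, ((1 - 1 / (p : ℝ))⁻¹) ^ (k + 1) := by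
        apply Finset.prod_le_prod
        · intro p hp
          have h2 : (2 : ℝ) ≤ p := by exact_mod_cast (hP p hp).1.two_le
          have h1 : (0 : ℝ) < (p : ℝ) - 1 := by linarith
          positivity
        · intro p hp
          exact hterm p (hP p hp).1
    _ ≤ ∏ p ∈ (Icc (D' + 1) M).filter Nat.Prime, ((1 - 1 / (p : ℝ))⁻¹) ^ (k + 1) := by
        apply prod_le_prod_subset _ _ hsub
        intro p hp
        exact hge1 p (Finset.mem_filter.1 hp).2
    _ = (∏ p ∈ (Icc (D' + 1) M).filter Nat.Prime, (1 - 1 / (p : ℝ)))⁻¹ ^ (k + 1) := by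
        rw [Finset.prod_pow, Finset.prod_inv_distrib]
    _ = _ := by
        congr 1
        have h1 : (0 : ℝ) < ∏ p ∈ QQ D' M, (1 - 1 / (p : ℝ)) := by
          by_contra hc
          rw [hsplit] at hM
          nlinarith
        rw [hsplit]
        have e3 : ∏ p ∈ (Icc (D' + 1) M).filter Nat.Prime, (1 - 1 / (p : ℝ)) =
            ∏ p ∈ QQ D' M, (1 - 1 / (p : ℝ)) := rfl
        rw [e3]
        field_simp

/-- **the weights at the numbers without small prime factors** -/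
theorem rough_pt (k : ℕ) (α : Fin k → ℤ) (Q : SPar) (ρ ρ₁ δ : ℝ) (B : ℕ) (hρ : 0 < ρ)
    (hρ₁ : ρ₁ ≤ 1 / 4) (hδ : 0 < δ) (Cq : ℝ)
    (hCq : Cq = ((2 : ℝ) ^ ⌈((k : ℝ) + 2) / δ⌉₊ *
      (2 * Real.exp Real.eulerMascheroniConstant / ρ) ^ (k + 1)) ^ 2) :
    ∀ᶠ N : ℕ in atTop, ∀ (h : Fin k → ℤ) (Mo : ℕ), HB h Mo N →
      SieveData (IP (PBF α h Mo N B ρ₁)) (Option (Fin k)) (prP (PBF α h Mo N B ρ₁))
        (LZ (uB α) (wB h Mo)) 1 → DB (2 * N) B ≤ N →
      ∀ n : ℕ, 1 ≤ n → n ≤ N → (∀ i, (Mo : ℤ) + α i * n + h i ≠ 0) →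
        (∀ p : ℕ, p.Prime → Real.log p ≤ δ * Real.log N → ∀ q,
          ¬ p ∣ LZ (uB α) (wB h Mo) q n) →
      (wZ Q (uB α) (wB h Mo) (PBF α h Mo N B ρ₁) (ρ * Real.log N) n) ^ 2 ≤
        Cq * (BD (DB (2 * N) B) * (ρ * Real.log N)) ^ (2 * (k + 1)) := by
  obtain ⟨A, hA⟩ : ∃ A : ℝ, A = ∏ i, (2 + |(α i : ℝ)|) := ⟨_, rfl⟩
  have hA0 : 0 ≤ A := by rw [hA]; exact Finset.prod_nonneg fun i _ => by positivity
  have hγ : 0 < Real.exp Real.eulerMascheroniConstant := Real.exp_pos _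
  have hq := (Pool.Agent.H510R2.Maier.QQ_real.comp (tendsto_natCast_atTop_atTop (R := ℝ))).eventually
    (gt_mem_nhds (show Real.exp Real.eulerMascheroniConstant <
      2 * Real.exp Real.eulerMascheroniConstant by linarith))
  filter_upwards [hq, ev_log 1, eventually_ge_atTop 3, eventually_ge_atTop ⌈A⌉₊]
    with N hq hl1 hN3 hNA h Mo hMo hsd hDN n hn hnN hne hro
  have hN1 : 1 ≤ N := by omega
  have hNR : (3 : ℝ) ≤ N := by exact_mod_cast hN3
  have hN0 : (0 : ℝ) < N := by linarith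
  have hl0 : 0 < Real.log N := by linarith
  have hPs := PBF_spec α h Mo N B ρ₁ hρ₁ hN1
  have hNZ := NZ_ne α h Mo n hn hne
  have h1 := pt_abs Q (uB α) (wB h Mo) (PBF α h Mo N B ρ₁) (fun p hp => (hPs p hp).1) hsd
    (ρ * Real.log N) (by positivity) n hNZ
  have h2 := prod_up (k := k) (PBF α h Mo N B ρ₁) (DB (2 * N) B) N hDN (fun p hp =>
    ⟨(hPs p hp).1, (hPs p hp).2.1, by exact_mod_cast (hPs p hp).2.2.2.2⟩)
  have hBN := BD_pos N
  have hBD := BD_pos (DB (2 * N) B)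
  have h3 : (BD N)⁻¹ ≤ 2 * Real.exp Real.eulerMascheroniConstant * Real.log N := by
    simp only [Function.comp, Nat.floor_natCast] at hq
    have e : Pool.Agent.H510R2.Maier.QQ N = BD N := rfl
    rw [e, div_lt_iff₀ hl0] at hq
    exact hq.le
  -- the number of prime factors
  have h4 : ((NZ (uB α) (wB h Mo) n).primeFactors.card : ℝ) ≤ ((k : ℝ) + 2) / δ := by
    have hNZle := NZ_leH α h Mo N n hMo hn hnN
    rw [← hA] at hNZle
    have hAN : A ≤ N := (Nat.le_ceil A).trans (by exact_mod_cast hNA)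
    have h5 : (NZ (uB α) (wB h Mo) n : ℝ) ≤ (N : ℝ) ^ (k + 2) := by
      refine hNZle.trans ?_
      calc A * (N : ℝ) ^ (k + 1) ≤ N * (N : ℝ) ^ (k + 1) := by gcongr
        _ = _ := by ring
    have h6 : ∏ p ∈ (NZ (uB α) (wB h Mo) n).primeFactors, p ≤ NZ (uB α) (wB h Mo) n :=
      Nat.le_of_dvd (Nat.pos_of_ne_zero hNZ) (Nat.prod_primeFactors_dvd _)
    have h7 : ∏ p ∈ (NZ (uB α) (wB h Mo) n).primeFactors, (p : ℝ) ≤ (N : ℝ) ^ (k + 2) := by
      refine le_trans ?_ h5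
      have h6' := (Nat.cast_le (α := ℝ)).2 h6
      rw [Nat.cast_prod] at h6'
      exact h6'
    have h8 : ∀ p ∈ (NZ (uB α) (wB h Mo) n).primeFactors, δ * Real.log N ≤ Real.log p := by
      intro p hp
      rw [Nat.mem_primeFactors] at hp
      by_contra hc
      obtain ⟨hpp, hd, -⟩ := hp
      unfold NZ at hd
      rw [(Nat.prime_iff.1 hpp).dvd_finsetProd_iff] at hd
      obtain ⟨q, -, hq⟩ := hd
      exact hro p hpp (not_le.1 hc).le q hq
    have h9 : ((NZ (uB α) (wB h Mo) n).primeFactors.card : ℝ) * (δ * Real.log N) ≤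
        ((k + 2 : ℕ) : ℝ) * Real.log N := by
      calc _ = ∑ _p ∈ (NZ (uB α) (wB h Mo) n).primeFactors, δ * Real.log N := by
            rw [Finset.sum_const, nsmul_eq_mul]
        _ ≤ ∑ p ∈ (NZ (uB α) (wB h Mo) n).primeFactors, Real.log p := Finset.sum_le_sum h8
        _ = Real.log (∏ p ∈ (NZ (uB α) (wB h Mo) n).primeFactors, (p : ℝ)) := by
            rw [Real.log_prod]
            intro p hp
            have := (Nat.mem_primeFactors.1 hp).1.pos
            exact_mod_cast this.ne'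
        _ ≤ Real.log ((N : ℝ) ^ (k + 2)) := by
            apply Real.log_le_log _ h7
            apply Finset.prod_pos
            intro p hp
            have := (Nat.mem_primeFactors.1 hp).1.pos
            exact_mod_cast this
        _ = _ := Real.log_pow _ _
    rw [le_div_iff₀ hδ]
    push_cast at h9
    nlinarith
  have h5 : (2 : ℝ) ^ (NZ (uB α) (wB h Mo) n).primeFactors.card ≤
      2 ^ ⌈((k : ℝ) + 2) / δ⌉₊ := by
    apply pow_le_pow_right₀ (by norm_num)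
    exact_mod_cast h4.trans (Nat.le_ceil _)
  have h6 : (BD (DB (2 * N) B) / BD N) ^ (k + 1) ≤
      (2 * Real.exp Real.eulerMascheroniConstant / ρ) ^ (k + 1) *
        (BD (DB (2 * N) B) * (ρ * Real.log N)) ^ (k + 1) := by
    rw [← mul_pow]
    apply pow_le_pow_left₀ (by positivity)
    have e : 2 * Real.exp Real.eulerMascheroniConstant / ρ *
        (BD (DB (2 * N) B) * (ρ * Real.log N)) =
        BD (DB (2 * N) B) * (2 * Real.exp Real.eulerMascheroniConstant * Real.log N) := by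
      field_simp
    rw [e, div_eq_mul_inv]
    exact mul_le_mul_of_nonneg_left h3 hBD.le
  have h7 : |wZ Q (uB α) (wB h Mo) (PBF α h Mo N B ρ₁) (ρ * Real.log N) n| ≤
      (2 ^ ⌈((k : ℝ) + 2) / δ⌉₊ * (2 * Real.exp Real.eulerMascheroniConstant / ρ) ^ (k + 1)) *
        (BD (DB (2 * N) B) * (ρ * Real.log N)) ^ (k + 1) := by
    refine h1.trans ?_
    calc _ ≤ ((2 * Real.exp Real.eulerMascheroniConstant / ρ) ^ (k + 1) *
        (BD (DB (2 * N) B) * (ρ * Real.log N)) ^ (k + 1)) * 2 ^ ⌈((k : ℝ) + 2) / δ⌉₊ :=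
          mul_le_mul (h2.trans h6) h5 (by positivity) (by positivity)
      _ = _ := by ring
  rw [← sq_abs, hCq]
  calc |wZ Q (uB α) (wB h Mo) (PBF α h Mo N B ρ₁) (ρ * Real.log N) n| ^ 2 ≤
      ((2 ^ ⌈((k : ℝ) + 2) / δ⌉₊ * (2 * Real.exp Real.eulerMascheroniConstant / ρ) ^ (k + 1)) *
        (BD (DB (2 * N) B) * (ρ * Real.log N)) ^ (k + 1)) ^ 2 :=
        pow_le_pow_left₀ (abs_nonneg _) h7 2
    _ = _ := by rw [mul_pow, ← pow_mul, mul_comm (k + 1) 2]

end Pool.Agent.Y827.RO
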