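import Mathlib
import Pool.Agent.Y827.RO.SmallF
import Pool.Agent.TH899.UG.TWaH

/-! Project RO: the numbers with a small prime factor have small mass, asymptotic form. -/

set_option autoImplicit false

namespace Pool.Agent.Y827.RO

open Finset Filter Topology
open Pool.Agent.H410R2 hiding GP GP_prof GP_cut_some GP_cut_none GP_lip gg_pos gg_le_one gg_anti ee_bound ee_nonneg gg_lip LB_gg LB_ee Sums exists_sums yx wx wxi Br sum_GP_none sum_GP_some sum_GP_some_ee sum_GP_some_one sum_GPr_none sum_GPr_some S1_final QI_final S2_final w_abs_le wmax gg ee I1 I2 IE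
open Pool.Agent.H361R2.GM
open Pool.Agent.H362R2.CM
open Pool.Agent.W25.UN Pool.Agent.W25.UB
open Pool.Agent.TH899.UG
open Pool.Agent.W22.UB (Jb Jb_le Jb_up ev_DB DB_up DB_ge)

/-- (SML) the numbers with a small prime factor in one of the forms have small mass -/
def St_SML : Prop := ∀ (k : ℕ) (Q : SPar) (ρ ρ₁ ε' : ℝ) (B : ℕ), 0 < ρ → ρ ≤ 1 / 16 → ρ < ρ₁ →
  ρ₁ ≤ 1 / 4 → 0 < ε' → 0 < Q.I2 → 3 ≤ B → ∃ δ : ℝ, 0 < δ ∧
  ∃ D₀ : ℕ, ∀ D : ℕ, D₀ ≤ D → ∀ (α : Fin k → ℤ), (∀ i, α i ≠ 0) →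
  (∀ i, (α i).natAbs ≤ D) → ∀ᶠ N : ℕ in atTop,
  ∀ (h : Fin k → ℤ) (Mo : ℕ), HB h Mo N → Nd α h Mo → ∀ v : ℕ,
    (∀ j, ∀ n : ℤ, n ≡ v [ZMOD (WW D)] → IsCoprime (uB α j * n + wB h Mo j) ((WW D : ℕ) : ℤ)) →
    ∑ n ∈ Bad α h D (DB (2 * N) B) Mo v N (δ * Real.log N),
        (wZ Q (uB α) (wB h Mo) (PBF α h Mo N B ρ₁) (ρ * Real.log N) n) ^ 2 ≤
      ε' * ((N : ℝ) / WW D * Pool.Agent.W25.UN.VV α h Mo D (DB (2 * N) B) *
        (BD (DB (2 * N) B) * (ρ * Real.log N)) ^ (k + 1))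

theorem m1_eq (P : Finset ℕ) (hP : ∀ p ∈ P, 0 < p) (L : ℝ) :
    m1 (prP P) L = SS P (gB 0) 1 L (fun _ => 1) := by
  rw [SS_eq _ _ _ _ _ hP]
  unfold m1
  refine Finset.sum_congr rfl fun a _ => ?_
  rw [one_mul]
  congr 1
  refine Finset.prod_congr rfl fun t _ => ?_
  unfold gB
  rw [mul_zero, pow_zero, mul_one]

theorem low_num (k B A1 D' : ℕ) (l N W V BDv ρ bq : ℝ) (hA1 : A1 = 3 * (B + 1) * (k + 1) + 1)
    (hl1 : 2 ≤ l) (hN0 : 0 < N) (hWR : 0 < W) (hρ : 0 < ρ) (hD0 : (0 : ℝ) < D')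
    (hDl : (D' : ℝ) ≤ l ^ (B + 1)) (hV1 : (1 / (D' : ℝ)) ^ (2 * (k + 1)) ≤ V) (hVp : 0 < V)
    (hb : 1 / (D' : ℝ) ≤ BDv) (hBD : 0 < BDv) (hbq : bq = BDv * (ρ * l))
    (hl3 : W / ρ ^ (k + 1) ≤ l) : N / l ^ A1 ≤ N / W * V * bq ^ (k + 1) := by
  have hl0 : 0 < l := by linarith
  have hbqp : 0 < bq := by rw [hbq]; positivity
  have h1 : 1 / l ^ (B + 1) ≤ 1 / (D' : ℝ) := one_div_le_one_div_of_le hD0 hDl
  have h2 : (1 / l ^ (B + 1)) ^ (2 * (k + 1)) ≤ V :=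
    (pow_le_pow_left₀ (by positivity) h1 _).trans hV1
  have h3 : ρ * (1 / l ^ (B + 1)) ≤ bq := by
    rw [hbq]
    calc ρ * (1 / l ^ (B + 1)) = 1 / l ^ (B + 1) * (ρ * 1) := by ring
      _ ≤ BDv * (ρ * l) := by
        apply mul_le_mul (h1.trans hb) _ (by positivity) hBD.le
        exact mul_le_mul_of_nonneg_left (by linarith) hρ.le
  have h4 : ρ ^ (k + 1) * (1 / l ^ (B + 1)) ^ (k + 1) ≤ bq ^ (k + 1) := by
    rw [← mul_pow]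
    exact pow_le_pow_left₀ (by positivity) h3 _
  have h5 : 1 / l ≤ ρ ^ (k + 1) / W := by
    rw [div_le_iff₀ (by positivity)] at hl3
    rw [div_le_div_iff₀ hl0 hWR]
    linarith
  have e2 : N / l ^ A1 = N * (1 / l) * ((1 / l ^ (B + 1)) ^ (2 * (k + 1)) *
      (1 / l ^ (B + 1)) ^ (k + 1)) := by
    rw [hA1, ← pow_add, ← one_div_pow, ← pow_mul]
    have : (B + 1) * (2 * (k + 1) + (k + 1)) = 3 * (B + 1) * (k + 1) := by ring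
    rw [this, pow_succ, one_div_pow]
    field_simp
  rw [e2]
  have h6 : 0 ≤ (1 / l ^ (B + 1)) ^ (2 * (k + 1)) * (1 / l ^ (B + 1)) ^ (k + 1) := by positivity
  calc N * (1 / l) * ((1 / l ^ (B + 1)) ^ (2 * (k + 1)) *
      (1 / l ^ (B + 1)) ^ (k + 1)) ≤ N * (ρ ^ (k + 1) / W) *
      ((1 / l ^ (B + 1)) ^ (2 * (k + 1)) * (1 / l ^ (B + 1)) ^ (k + 1)) :=
        mul_le_mul_of_nonneg_right (mul_le_mul_of_nonneg_left h5 hN0.le) h6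
    _ = N / W * ((1 / l ^ (B + 1)) ^ (2 * (k + 1)) *
        (ρ ^ (k + 1) * (1 / l ^ (B + 1)) ^ (k + 1))) := by ring
    _ ≤ N / W * (V * bq ^ (k + 1)) := by
        apply mul_le_mul_of_nonneg_left _ (by positivity)
        exact mul_le_mul h2 h4 (by positivity) hVp.le
    _ = _ := by ring

theorem err_num (k C1 m3 B A1 A2 : ℕ) (l N ρ δ ε' Z1 Cc J2 T E Pr : ℝ)
    (hA2 : A2 = A1 + ((2 * B + 2) + 2 * (2 * B + 1) * (C1 * C1) + 2 * m3))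
    (hl : l = Real.log N) (hl1 : 2 ≤ l) (hN0 : 0 < N) (hε' : 0 < ε')
    (hδ3 : δ ≤ 1 / 8) (hCc : Cc ≤ N ^ (1 / 8 : ℝ)) (hCc0 : 0 ≤ Cc)
    (hJ1 : T ≤ l ^ (2 * B + 1)) (hT0 : 0 ≤ T) (hJ2 : J2 ≤ l ^ (2 * B + 2)) (hJ20 : 0 ≤ J2)
    (hE : E = 2 * (Real.exp (ρ * l / 48 + ρ * l) * Pr)) (hPr0 : 0 ≤ Pr) (hPr : Pr ≤ l ^ m3)
    (hpoly : 64 * ((k : ℝ) + 1) / ε' * l ^ A2 * N ^ (1 / 8 + 49 / 24 * ρ) ≤ N ^ (1 : ℝ))
    (hZlow : N / l ^ A1 ≤ Z1) :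
    ((k : ℝ) + 1) * (Real.exp (δ * l) + Cc) * J2 * T ^ (2 * (C1 * C1)) * E ^ 2 ≤ ε' / 8 * Z1 := by
  have hl0 : 0 < l := by linarith
  have g1 : Real.exp (δ * l) ≤ N ^ (1 / 8 : ℝ) := by
    rw [Real.rpow_def_of_pos hN0, ← hl]
    apply Real.exp_le_exp.2
    nlinarith
  have hE0 : 0 ≤ E := by rw [hE]; positivity
  have g3 : E ≤ 2 * (N ^ (49 / 48 * ρ) * l ^ m3) := by
    rw [hE]
    have h2 : Real.exp (ρ * l / 48 + ρ * l) = N ^ (49 / 48 * ρ) := by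
      rw [Real.rpow_def_of_pos hN0, ← hl]
      congr 1
      ring
    rw [h2]
    apply mul_le_mul_of_nonneg_left _ (by norm_num)
    exact mul_le_mul_of_nonneg_left hPr (by positivity)
  have g4 : E ^ 2 ≤ 4 * (N ^ (49 / 24 * ρ) * l ^ (2 * m3)) := by
    calc E ^ 2 ≤ (2 * (N ^ (49 / 48 * ρ) * l ^ m3)) ^ 2 := pow_le_pow_left₀ hE0 g3 2
      _ = 4 * ((N ^ (49 / 48 * ρ)) ^ 2 * (l ^ m3) ^ 2) := by ring
      _ = _ := by
        rw [← Real.rpow_natCast (N ^ (49 / 48 * ρ)) 2, ← Real.rpow_mul hN0.le, ← pow_mul]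
        congr 3
        · push_cast; ring
        · ring
  have g5 : T ^ (2 * (C1 * C1)) ≤ l ^ (2 * (2 * B + 1) * (C1 * C1)) := by
    calc T ^ (2 * (C1 * C1)) ≤ (l ^ (2 * B + 1)) ^ (2 * (C1 * C1)) :=
          pow_le_pow_left₀ hT0 hJ1 _
      _ = _ := by rw [← pow_mul]; congr 1; ring
  have s1 : ((k : ℝ) + 1) * (Real.exp (δ * l) + Cc) ≤
      ((k : ℝ) + 1) * (N ^ (1 / 8 : ℝ) + N ^ (1 / 8 : ℝ)) :=
    mul_le_mul_of_nonneg_left (add_le_add g1 hCc) (by positivity)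
  have s2 : ((k : ℝ) + 1) * (Real.exp (δ * l) + Cc) * J2 ≤
      ((k : ℝ) + 1) * (N ^ (1 / 8 : ℝ) + N ^ (1 / 8 : ℝ)) * l ^ (2 * B + 2) :=
    mul_le_mul s1 hJ2 hJ20 (by positivity)
  have s3 := mul_le_mul s2 g5 (by positivity) (by positivity)
  have s4 := mul_le_mul s3 g4 (by positivity) (by positivity)
  refine s4.trans ?_
  calc ((k : ℝ) + 1) * (N ^ (1 / 8 : ℝ) + N ^ (1 / 8 : ℝ)) *
        l ^ (2 * B + 2) * l ^ (2 * (2 * B + 1) * (C1 * C1)) *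
        (4 * (N ^ (49 / 24 * ρ) * l ^ (2 * m3)))
      = ε' / 8 * ((64 * ((k : ℝ) + 1) / ε' * l ^ A2 *
        N ^ (1 / 8 + 49 / 24 * ρ)) / l ^ A1) := by
        rw [Real.rpow_add hN0, hA2, pow_add, pow_add, pow_add]
        field_simp
        ring
    _ ≤ ε' / 8 * (N ^ (1 : ℝ) / l ^ A1) := by
        apply mul_le_mul_of_nonneg_left _ (by positivity)
        exact div_le_div_of_nonneg_right hpoly (by positivity)
    _ = ε' / 8 * (N / l ^ A1) := by rw [Real.rpow_one]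
    _ ≤ ε' / 8 * Z1 := mul_le_mul_of_nonneg_left hZlow (by positivity)

theorem main_num (k : ℕ) (l D' ρ δ ε' Z1 CM Cc C' K1 A c G C R : ℝ)
    (hK1 : K1 = (48 + G) * C + 4 * C ^ 2 * ((k : ℝ) + 2) / c) (hA : A = ((k : ℝ) + 1) * CM)
    (hAp : 0 < A) (hK1p : 0 < K1) (hc : 0 < c) (hρ : 0 < ρ) (hε' : 0 < ε') (hZ1p : 0 < Z1)
    (hl1 : 2 ≤ l) (hδ1 : δ ≤ ε' * ρ / (16 * A * K1)) (hD0 : 0 < D')
    (hD'low : (l - 1) * l ≤ D') (hCc : Cc ≤ C' * l)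
    (hl4 : 32 * A * K1 / (ρ * ε') ≤ l) (hl5 : 32 * A * ((k : ℝ) + 1) / ε' + 1 ≤ l)
    (hl6 : 32 * A * C' / ε' + 1 ≤ l) (hR : R ≤ ε' / 8 * Z1) :
    ((k : ℝ) + 1) * (4 * (Z1 * CM) * (((48 + G) / (ρ * l) * C +
      4 * C ^ 2 * ((k : ℝ) + 2) / (c * (ρ * l))) * (δ * l + 1) + ((k : ℝ) + 1) / D') +
      2 * (Z1 * CM) * (Cc / D')) + R ≤ ε' * Z1 := by
  have hl0 : 0 < l := by linarith
  have hD1 : (l - 1) ≤ D' := by nlinarith
  have hl1' : 0 < l - 1 := by linarith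
  have q1 : ((48 + G) / (ρ * l) * C + 4 * C ^ 2 * ((k : ℝ) + 2) / (c * (ρ * l))) *
      (δ * l + 1) = K1 * δ / ρ + K1 / (ρ * l) := by
    rw [hK1]
    field_simp
  have q2 : 4 * A * (K1 * δ / ρ) ≤ ε' / 4 := by
    rw [le_div_iff₀ (by positivity)] at hδ1
    rw [← mul_div_assoc, div_le_iff₀ hρ]
    linarith
  have q3 : 4 * A * (K1 / (ρ * l)) ≤ ε' / 8 := by
    rw [div_le_iff₀ (by positivity)] at hl4
    rw [← mul_div_assoc, div_le_iff₀ (by positivity)]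
    linarith
  have q4 : 4 * A * (((k : ℝ) + 1) / D') ≤ ε' / 8 := by
    have h1 : 32 * A * ((k : ℝ) + 1) / ε' ≤ D' := by linarith
    rw [div_le_iff₀ hε'] at h1
    rw [← mul_div_assoc, div_le_iff₀ hD0]
    linarith
  have q5 : 2 * A * (Cc / D') ≤ ε' / 16 := by
    have h1 : 32 * A * C' / ε' ≤ l - 1 := by linarith
    rw [div_le_iff₀ hε'] at h1
    rw [← mul_div_assoc, div_le_iff₀ hD0]
    calc 2 * A * Cc ≤ 2 * A * (C' * l) := mul_le_mul_of_nonneg_left hCc (by positivity)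
      _ = (32 * A * C') * l / 16 := by ring
      _ ≤ ((l - 1) * ε') * l / 16 := by
          apply div_le_div_of_nonneg_right _ (by norm_num)
          exact mul_le_mul_of_nonneg_right h1 hl0.le
      _ = ε' / 16 * ((l - 1) * l) := by ring
      _ ≤ _ := mul_le_mul_of_nonneg_left hD'low (by positivity)
  rw [q1]
  have e3 : ((k : ℝ) + 1) * (4 * (Z1 * CM) * (K1 * δ / ρ + K1 / (ρ * l) + ((k : ℝ) + 1) / D') +
      2 * (Z1 * CM) * (Cc / D')) =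
      (4 * A * (K1 * δ / ρ) + 4 * A * (K1 / (ρ * l)) + 4 * A * (((k : ℝ) + 1) / D') +
        2 * A * (Cc / D')) * Z1 := by
    rw [hA]; ring
  rw [e3]
  have h9 : (4 * A * (K1 * δ / ρ) + 4 * A * (K1 / (ρ * l)) + 4 * A * (((k : ℝ) + 1) / D') +
        2 * A * (Cc / D')) * Z1 ≤
      (ε' / 4 + ε' / 8 + ε' / 8 + ε' / 16) * Z1 := by
    apply mul_le_mul_of_nonneg_right _ hZ1p.le
    linarith
  have h10 : 0 < ε' * Z1 := by positivity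
  linarith

theorem smlA (hPS1 : PS1) (hRC : RootsCount) (hSd : SdLZ)
    (hS1P : S1Parts) (hWF : WFacts) (hVL : VLow) (hS1G : S1Gen) (hSUM : St_SUM) : St_SML := by
  classical
  intro k Q ρ ρ₁ ε' B hρ hρ1 hρlt hρ₁ hε' hI2p hB
  obtain ⟨C1, hC1, hPS1⟩ := ps1At_of hPS1 (k + 1)
  obtain ⟨DW, hWF⟩ := hWF
  obtain ⟨C, hC, hcheb⟩ := cheb
  obtain ⟨m3, hm3⟩ := prods_le (3 * ((k + 1 : ℕ) : ℝ)) (by positivity)
  have hc := Q.hc
  have hc1 := Q.hc1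
  have hG := Q.G0
  obtain ⟨K1, hK1⟩ : ∃ K1 : ℝ, K1 = (48 + Q.G) * C + 4 * C ^ 2 * ((k : ℝ) + 2) / Q.c := ⟨_, rfl⟩
  have hK1p : 0 < K1 := by rw [hK1]; positivity
  obtain ⟨CM, hCM⟩ : ∃ CM : ℝ, CM = 2 ^ (k + 1) * (Q.I2 + 2) ^ k := ⟨_, rfl⟩
  have hCMp : 0 < CM := by rw [hCM]; positivity
  obtain ⟨A, hA⟩ : ∃ A : ℝ, A = ((k : ℝ) + 1) * CM := ⟨_, rfl⟩
  have hAp : 0 < A := by rw [hA]; positivity
  refine ⟨min (min (ε' * ρ / (16 * A * K1)) (Q.c * ρ / 2)) (1 / 8), by positivity, ?_⟩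
  obtain ⟨δ, hδ⟩ : ∃ δ : ℝ, δ = min (min (ε' * ρ / (16 * A * K1)) (Q.c * ρ / 2)) (1 / 8) :=
    ⟨_, rfl⟩
  rw [← hδ]
  have hδ0 : 0 < δ := by rw [hδ]; positivity
  have hδ1 : δ ≤ ε' * ρ / (16 * A * K1) := by
    rw [hδ]; exact (min_le_left _ _).trans (min_le_left _ _)
  have hδ2 : δ ≤ Q.c * ρ / 2 := by
    rw [hδ]; exact (min_le_left _ _).trans (min_le_right _ _)
  have hδ3 : δ ≤ 1 / 8 := by rw [hδ]; exact min_le_right _ _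
  refine ⟨DW + C1 + 2 * (k + 1) + 1, fun D hD α hα hαD => ?_⟩
  obtain ⟨C', hCC⟩ := clH k α
  obtain ⟨hW, htot, hBDp, hdvd, -⟩ := hWF D (by omega)
  have hWR : (0 : ℝ) < WW D := by exact_mod_cast hW
  obtain ⟨A1, hA1⟩ : ∃ A1 : ℕ, A1 = 3 * (B + 1) * (k + 1) + 1 := ⟨_, rfl⟩
  obtain ⟨A2, hA2⟩ : ∃ A2 : ℕ, A2 = A1 + ((2 * B + 2) + 2 * (2 * B + 1) * (C1 * C1) + 2 * m3) :=
    ⟨_, rfl⟩
  filter_upwards [hCC, hSUM Q (k + 1) 1 ρ ρ₁ C' B one_pos hρ hρlt hB,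
    ev_DB B (by omega) (D + 4), Jb_up B (by omega), DB_up B, hm3,
    ev_poly (64 * ((k : ℝ) + 1) / ε') A2 (1 / 8 + 49 / 24 * ρ) 1 (by linarith),
    ev_poly C' 1 0 (1 / 8) (by norm_num),
    ev_log 2, ev_log (2 ^ B), ev_log (WW D / ρ ^ (k + 1)),
    ev_log (32 * A * K1 / (ρ * ε')), ev_log (32 * A * ((k : ℝ) + 1) / ε' + 1),
    ev_log (32 * A * C' / ε' + 1), eventually_ge_atTop 16]
    with N hCC hsums hDp hJ hDup hm3 hpoly hpolyC hl1 hl2 hl3 hl4 hl5 hl6 hN16 h Mo hMo hnd v hv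
  replace hCC := hCC h Mo hMo hnd
  have hN1 : 1 ≤ N := by omega
  have hNR : (16 : ℝ) ≤ N := by exact_mod_cast hN16
  have hN0 : (0 : ℝ) < N := by linarith
  have hl0 : 0 < Real.log N := by linarith
  obtain ⟨l, hl⟩ : ∃ l : ℝ, l = Real.log N := ⟨_, rfl⟩
  rw [← hl] at hl1 hl2 hl3 hl4 hl5 hl6 hl0 hCC hDup hJ hpoly hpolyC hm3 hsums ⊢
  have hPs := PBF_spec α h Mo N B ρ₁ hρ₁ hN1
  obtain ⟨P, hPd⟩ : ∃ P : Finset ℕ, P = PBF α h Mo N B ρ₁ := ⟨_, rfl⟩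
  have hPd' := hPd
  rw [← hPd] at hPs ⊢
  have hPle : ∀ p ∈ P, p.Prime ∧ (p : ℝ) ≤ N :=
    fun p hp => ⟨(hPs p hp).1, (hPs p hp).2.2.2.2⟩
  have hPD : ∀ p ∈ P, p.Prime ∧ DB (2 * N) B < p :=
    fun p hp => ⟨(hPs p hp).1, (hPs p hp).2.1⟩
  have H : Hyp α h D (DB (2 * N) B) Mo v P := {
    hα := hα
    hW := hW
    tot := htot
    BDpos := hBDp
    hdvd := hdvd
    hDk := by omega
    hDα := hαD
    hDD := by omega
    hP := hPD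
    hres := fun p hp j l hjl => CL_ndvd hnd (hPs p hp).1 (hPs p hp).2.2.1 j l hjl
    hv := hv }
  have hin : ∀ p : ℕ, p.Prime → DB (2 * N) B < p → (p : ℝ) ≤ Real.exp (ρ₁ * l) →
      p ∉ CL (uB α) (wB h Mo) → p ∈ P := fun p hp hDp' hple hpC => by
      rw [hPd]
      unfold PBF
      rw [Finset.mem_filter, Finset.mem_Icc]
      rw [hl] at hple
      exact ⟨⟨hDp', Nat.le_floor hple⟩, hp, hpC⟩
  have hS0 := (hsums (CL (uB α) (wB h Mo)) P hCC hPD).1 hin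
  have hS1 := hS0.2
  have hu3 := hS0.1.u3 0 (by omega)
  have hDp1 : 1 ≤ DB (2 * N) B := by omega
  have hVlow := hVL (k + 1) (DB (2 * N) B) (QQ D (DB (2 * N) B))
    (fun p => (Om (uB α) (wB h Mo) p).card) hDp1 (fun p hp => by
      have h1 := QQ_prime hp
      exact ⟨h1.1, by omega, h1.2.2,
        (hRC k (uB α) (wB h Mo) p h1.1 (fun j => H.uB_ndvd h1.1 h1.2.1 j)).2.1⟩)
  have hDl : (DB (2 * N) B : ℝ) ≤ l ^ (B + 1) := by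
    refine hDup.trans ?_
    rw [pow_succ, mul_comm]
    exact mul_le_mul_of_nonneg_left hl2 (by positivity)
  obtain ⟨D', hD'⟩ : ∃ D' : ℕ, D' = DB (2 * N) B := ⟨_, rfl⟩
  have hlog2 : l ≤ Real.log (2 * N : ℕ) := by
    rw [hl]
    apply Real.log_le_log (by exact_mod_cast hN1)
    push_cast
    linarith
  have hD'low : (l - 1) * l ≤ (D' : ℝ) := by
    rw [hD']
    have h1 := DB_ge N B
    have h2 : (1 : ℝ) ≤ Real.log (2 * N : ℕ) := by linarith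
    have h3 : Real.log (2 * N : ℕ) ^ 2 ≤ Real.log (2 * N : ℕ) ^ B :=
      pow_le_pow_right₀ h2 (by omega)
    have h4 : l ^ 2 ≤ Real.log (2 * N : ℕ) ^ 2 := pow_le_pow_left₀ hl0.le hlog2 2
    nlinarith
  rw [← hD'] at hDp hDup hPD H hin hS0 hS1 hu3 hDp1 hVlow hDl ⊢
  have hBD := BD_pos D'
  have hD0 : (0 : ℝ) < D' := by exact_mod_cast (by omega : 0 < D')
  have hVp := VV_pos hRC H
  obtain ⟨V, hV⟩ : ∃ V : ℝ, V = Pool.Agent.W25.UN.VV α h Mo D D' := ⟨_, rfl⟩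
  obtain ⟨bq, hbq⟩ : ∃ bq : ℝ, bq = BD D' * (ρ * l) := ⟨_, rfl⟩
  have hL : 0 < ρ * l := by positivity
  have hbqp : 0 < bq := by rw [hbq]; positivity
  have hV1 : (1 / (D' : ℝ)) ^ (2 * (k + 1)) ≤ V := by rw [hV]; exact hVlow.1
  rw [← hV] at hVp
  -- the constant `M`
  have hM : m1 (prP P) (ρ * l) ^ (k + 1) ≤ bq ^ (k + 1) * CM := by
    have h1 : m1 (prP P) (ρ * l) ≤ 2 * bq := by
      rw [m1_eq P (fun p hp => (hPD p hp).1.pos), hbq]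
      refine hu3.trans (le_of_eq ?_)
      ring
    calc m1 (prP P) (ρ * l) ^ (k + 1) ≤ (2 * bq) ^ (k + 1) := pow_le_pow_left₀ (m1_nn _ _) h1 _
      _ = bq ^ (k + 1) * (2 ^ (k + 1) * 1) := by rw [mul_pow]; ring
      _ ≤ _ := by
        rw [hCM]
        have : (1 : ℝ) ≤ (Q.I2 + 2) ^ k := one_le_pow₀ (by linarith)
        gcongr
  have hSP := hS1P Q k D' 1 (ρ * l) P one_pos hL hI2p hBD H.hP hS1
  have hQ1 : ∑ σ, cw (prP P) (yP Q k P (ρ * l)) σ ^ 2 * mulc (prP P) (fun p => (p : ℝ)) σ ≤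
      bq ^ (k + 1) * CM := by
    refine hSP.1.trans ?_
    rw [← hbq]
    have e1 : BD D' * (ρ * l / 48) * (1 / 3 + 1) = bq * (1 / 36) := by rw [hbq]; ring
    rw [e1, mul_pow bq (Q.I2 + 1) k]
    have h1 : (Q.I2 + 1) ^ k ≤ (Q.I2 + 2) ^ k := by gcongr; norm_num
    have h2 : (1 : ℝ) ≤ 2 ^ (k + 1) := one_le_pow₀ (by norm_num)
    calc bq * (1 / 36) * (bq ^ k * (Q.I2 + 1) ^ k) = bq ^ (k + 1) * (1 / 36 * (Q.I2 + 1) ^ k) := by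
          ring
      _ ≤ bq ^ (k + 1) * CM := by
          rw [hCM]
          gcongr
          linarith
  obtain ⟨E, hE⟩ : ∃ E : ℝ, E = 2 * (Real.exp (ρ * l / 48 + ρ * l) *
      ∏ t : IP P, (1 + 3 * ((k : ℝ) + 1) / (prP P t : ℝ))) := ⟨_, rfl⟩
  have hpr0 : 0 ≤ ∏ t : IP P, (1 + 3 * ((k : ℝ) + 1) / (prP P t : ℝ)) :=
    Finset.prod_nonneg fun t _ => by positivity
  have hcastk : ∏ t : IP P, (1 + 3 * ((k + 1 : ℕ) : ℝ) / (prP P t : ℝ)) =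
      ∏ t : IP P, (1 + 3 * ((k : ℝ) + 1) / (prP P t : ℝ)) := by push_cast; rfl
  have hE1 : ∑ σ, |cw (prP P) (yP Q k P (ρ * l)) σ| * mulc (prP P) (fun p => (p : ℝ) + 1) σ ≤
      E := by
    refine hSP.2.trans ?_
    rw [hcastk, hE]
    have := mul_nonneg (Real.exp_pos (ρ * l / 48 + ρ * l)).le hpr0
    linarith
  have hE0 : 0 ≤ E := by rw [hE]; positivity
  have hfix := small_fix hPS1 hRC hSd hS1G H Q (ρ * l) C (δ * l) (bq ^ (k + 1) * CM) E C1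
    (Jb N B) N le_rfl (by omega) (by rw [hD']; exact Jb_le N B) (by omega) hL hC hcheb
    (by positivity) (by nlinarith) (CL (uB α) (wB h Mo)) (by
      intro p hp hpD' hpl hpP
      by_contra hc'
      apply hpP
      apply hin p hp hpD' _ hc'
      rw [← Real.log_le_iff_le_exp (by exact_mod_cast hp.pos)]
      have : δ ≤ ρ₁ := by nlinarith
      nlinarith) hM hQ1 hE1 hE.symm.le
  refine hfix.trans ?_
  rw [← hV, ← hbq]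
  obtain ⟨Z1, hZ1⟩ : ∃ Z1 : ℝ, Z1 = (N : ℝ) / WW D * V * bq ^ (k + 1) := ⟨_, rfl⟩
  have hZ1p : 0 < Z1 := by rw [hZ1]; positivity
  have e1 : (N : ℝ) / WW D * V * (bq ^ (k + 1) * CM) = Z1 * CM := by rw [hZ1]; ring
  rw [e1, ← hZ1]
  have hZlow : N / l ^ A1 ≤ Z1 := by
    rw [hZ1]
    exact low_num k B A1 D' l N (WW D) V (BD D') ρ bq hA1 hl1 hN0 hWR hρ hD0 hDl hV1 hVp
      hVlow.2 hBD hbq hl3
  have hCc : ((CL (uB α) (wB h Mo)).card : ℝ) ≤ (N : ℝ) ^ (1 / 8 : ℝ) := by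
    rw [pow_one, Real.rpow_zero, mul_one] at hpolyC
    exact hCC.trans hpolyC
  have hErr := err_num k C1 m3 B A1 A2 l N ρ δ ε' Z1 ((CL (uB α) (wB h Mo)).card : ℝ)
    (((Jb N B : ℕ) : ℝ) + 2) ((2 : ℝ) ^ 2 ^ Jb N B) E
    (∏ t : IP P, (1 + 3 * ((k : ℝ) + 1) / (prP P t : ℝ))) hA2 hl hl1 hN0 hε' hδ3 hCc
    (Nat.cast_nonneg _) hJ.1 (by positivity) hJ.2 (by positivity) hE hpr0
    (by rw [← hcastk]; exact hm3 P hPle) hpoly hZlow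
  refine main_num k l D' ρ δ ε' Z1 CM ((CL (uB α) (wB h Mo)).card : ℝ) C' K1 A Q.c Q.G C _ hK1 hA
    hAp hK1p hc hρ hε' hZ1p hl1 hδ1 hD0 hD'low hCC hl4 hl5 hl6 ?_
  refine le_trans (le_of_eq ?_) hErr
  ring

end Pool.Agent.Y827.RO
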