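import Mathlib
import Pool.Agent.Y827.RO.SmallF
import Pool.Agent.Y827.LS.Den

/-! Project RO: lower bound for the product of the presieve. -/

set_option autoImplicit false

namespace Pool.Agent.Y827.RO

open Finset Filter Topology
open Pool.Agent.H410R2 hiding GP GP_prof GP_cut_some GP_cut_none GP_lip gg_pos gg_le_one gg_anti ee_bound ee_nonneg gg_lip LB_gg LB_ee Sums exists_sums yx wx wxi Br sum_GP_none sum_GP_some sum_GP_some_ee sum_GP_some_one sum_GPr_none sum_GPr_some S1_final QI_final S2_final w_abs_le wmax gg ee I1 I2 IE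
open Pool.Agent.H361R2.GM
open Pool.Agent.H362R2.CM
open Pool.Agent.W25.UN

theorem fac_low (κ : ℕ) (x : ℝ) (hx0 : 0 ≤ x) (hx1 : x ≤ 1) (h : (κ : ℝ) * x ≤ 1) :
    (1 - x) ^ κ * (1 - (κ : ℝ) ^ 2 * x ^ 2) ≤ 1 - κ * x := by
  have h1 : (1 - x) ^ κ * (1 + κ * x) ≤ 1 := by
    have h2 : 1 + (κ : ℝ) * x ≤ (1 + x) ^ κ := one_add_mul_le_pow (by linarith) κ
    calc (1 - x) ^ κ * (1 + κ * x) ≤ (1 - x) ^ κ * (1 + x) ^ κ :=
          mul_le_mul_of_nonneg_left h2 (pow_nonneg (by linarith) _)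
      _ = (1 - x ^ 2) ^ κ := by rw [← mul_pow]; congr 1; ring
      _ ≤ 1 := pow_le_one₀ (by nlinarith) (by nlinarith)
  have e : (1 - x) ^ κ * (1 - (κ : ℝ) ^ 2 * x ^ 2) =
      ((1 - x) ^ κ * (1 + κ * x)) * (1 - κ * x) := by ring
  rw [e]
  nlinarith

theorem uB_nd {k : ℕ} {α : Fin k → ℤ} {D p : ℕ} (hα : ∀ i, α i ≠ 0)
    (hαD : ∀ i, (α i).natAbs ≤ D) (hp : p.Prime) (hD : D < p)
    (j : Option (Fin k)) : ¬ (p : ℤ) ∣ uB α j := by
  rcases j with _ | i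
  · unfold uB
    intro h1
    have := Int.natAbs_dvd_natAbs.2 h1
    simp only [Int.natAbs_natCast, Int.natAbs_one, Nat.dvd_one] at this
    exact hp.one_lt.ne' this
  · unfold uB
    intro h1
    have h2 := Int.natAbs_dvd_natAbs.2 h1
    simp only [Int.natAbs_natCast] at h2
    have h3 := Nat.le_of_dvd (Int.natAbs_pos.2 (hα i)) h2
    have h4 := hαD i
    omega

theorem vv_low {k : ℕ} {α h : Fin k → ℤ} {D D' Mo : ℕ} (hRC : RootsCount) (hDD : D ≤ D')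
    (hα : ∀ i, α i ≠ 0) (hαD : ∀ i, (α i).natAbs ≤ D) (hDk : 2 * (k + 1) ≤ D)
    (hD : 2 * (k + 1) ^ 2 ≤ D) :
    1 / 2 * BD D' ^ (k + 1) ≤ VV α h Mo D D' := by
  have hD1 : 1 ≤ D := by omega
  have hDR : (0 : ℝ) < D := by exact_mod_cast hD1
  have hsplit := BD_split hDD
  have hB := BD_pos D
  have hB1 := BD_le_one D
  have hB' := BD_pos D'
  have hterm : ∀ p ∈ QQ D D', (1 - 1 / (p : ℝ)) ^ (k + 1) *
      (1 - ((k : ℝ) + 1) ^ 2 / (p : ℝ) ^ 2) ≤
      1 - ((Om (uB α) (wB h Mo) p).card : ℝ) / p := by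
    intro p hp
    have h1 := QQ_prime hp
    have hp0 : (0 : ℝ) < p := by exact_mod_cast h1.1.pos
    have h2 := (hRC k (uB α) (wB h Mo) p h1.1 (fun j => uB_nd hα hαD h1.1 h1.2.1 j)).2.1
    have h3 : ((Om (uB α) (wB h Mo) p).card : ℝ) ≤ (k : ℝ) + 1 := by exact_mod_cast h2
    have h4 := fac_low (k + 1) (1 / (p : ℝ)) (by positivity) (by
      rw [div_le_one hp0]
      exact_mod_cast h1.1.one_lt.le) (by
      rw [mul_one_div, div_le_one hp0]
      exact_mod_cast (by omega : k + 1 ≤ p))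
    have e1 : 1 - ((k + 1 : ℕ) : ℝ) ^ 2 * (1 / (p : ℝ)) ^ 2 =
        1 - ((k : ℝ) + 1) ^ 2 / (p : ℝ) ^ 2 := by push_cast; ring
    rw [e1] at h4
    refine h4.trans ?_
    have h5 : ((Om (uB α) (wB h Mo) p).card : ℝ) / p ≤ ((k : ℝ) + 1) / p :=
      div_le_div_of_nonneg_right h3 hp0.le
    have e2 : ((k + 1 : ℕ) : ℝ) * (1 / (p : ℝ)) = ((k : ℝ) + 1) / p := by push_cast; ring
    rw [e2]
    linarith
  have hbig : ∀ p ∈ QQ D D', ((k : ℝ) + 1) ^ 2 / (p : ℝ) ^ 2 ≤ 1 / 2 := by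
    intro p hp
    have h1 := QQ_prime hp
    have hDp : (2 * ((k : ℝ) + 1) ^ 2) ≤ p := by
      have : (2 * (k + 1) ^ 2 : ℕ) ≤ p := by omega
      exact_mod_cast this
    have hp1 : (1 : ℝ) ≤ p := by exact_mod_cast h1.1.one_lt.le
    rw [div_le_div_iff₀ (by positivity) (by norm_num)]
    nlinarith
  have h1 : ∏ p ∈ QQ D D', ((1 - 1 / (p : ℝ)) ^ (k + 1) *
      (1 - ((k : ℝ) + 1) ^ 2 / (p : ℝ) ^ 2)) ≤ VV α h Mo D D' := by
    unfold VV
    apply Finset.prod_le_prod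
    · intro p hp
      have h2 := hbig p hp
      have h3 := (QQ_prime hp).1.one_lt
      have hp1 : (1 : ℝ) ≤ p := by exact_mod_cast h3.le
      apply mul_nonneg
      · apply pow_nonneg
        rw [sub_nonneg, div_le_one (by linarith)]
        exact hp1
      · linarith
    · exact hterm
  rw [Finset.prod_mul_distrib, Finset.prod_pow] at h1
  have h2 : (1 : ℝ) / 2 ≤ ∏ p ∈ QQ D D', (1 - ((k : ℝ) + 1) ^ 2 / (p : ℝ) ^ 2) := by
    refine le_trans ?_ (Pool.Agent.Y827.LS.one_sub_sum_le_prod' (QQ D D')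
      (fun p => ((k : ℝ) + 1) ^ 2 / (p : ℝ) ^ 2) (fun p _ => by positivity) (fun p hp => by
        have := hbig p hp
        linarith))
    have h3 : ∑ p ∈ QQ D D', ((k : ℝ) + 1) ^ 2 / (p : ℝ) ^ 2 ≤ ((k : ℝ) + 1) ^ 2 * (1 / D) := by
      have h4 := tail_sum (QQ D D') D hD1 (fun p hp => (QQ_prime hp).2.1)
      calc ∑ p ∈ QQ D D', ((k : ℝ) + 1) ^ 2 / (p : ℝ) ^ 2 ≤
          ∑ p ∈ QQ D D', ((k : ℝ) + 1) ^ 2 * (1 / ((p : ℝ) * ((p : ℝ) - 1))) := by
            apply Finset.sum_le_sum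
            intro p hp
            have h3 := (QQ_prime hp).1.two_le
            have hp1 : (2 : ℝ) ≤ p := by exact_mod_cast h3
            rw [div_eq_mul_one_div]
            apply mul_le_mul_of_nonneg_left _ (by positivity)
            apply one_div_le_one_div_of_le (by nlinarith)
            nlinarith
        _ = ((k : ℝ) + 1) ^ 2 * ∑ p ∈ QQ D D', (1 / ((p : ℝ) * ((p : ℝ) - 1))) := by
            rw [Finset.mul_sum]
        _ ≤ _ := mul_le_mul_of_nonneg_left h4 (by positivity)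
    have h5 : ((k : ℝ) + 1) ^ 2 * (1 / D) ≤ 1 / 2 := by
      have : (2 * ((k : ℝ) + 1) ^ 2) ≤ D := by exact_mod_cast hD
      rw [mul_one_div, div_le_div_iff₀ hDR (by norm_num)]
      linarith
    linarith
  have h3 : BD D' ≤ ∏ p ∈ QQ D D', (1 - 1 / (p : ℝ)) := by
    have h4 : 0 ≤ ∏ p ∈ QQ D D', (1 - 1 / (p : ℝ)) := by
      apply Finset.prod_nonneg
      intro p hp
      have h3 := (QQ_prime hp).1.one_lt
      have hp1 : (1 : ℝ) ≤ p := by exact_mod_cast h3.le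
      rw [sub_nonneg, div_le_one (by linarith)]
      exact hp1
    rw [hsplit]
    nlinarith
  have h4 : BD D' ^ (k + 1) ≤ (∏ p ∈ QQ D D', (1 - 1 / (p : ℝ))) ^ (k + 1) :=
    pow_le_pow_left₀ hB'.le h3 _
  refine le_trans ?_ h1
  rw [mul_comm]
  exact mul_le_mul h4 h2 (by norm_num) (le_trans (by positivity) h4)

end Pool.Agent.Y827.RO
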