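import Mathlib
import Pool.Agent.Y827.GS.Final
import Pool.Agent.Y827.RO.AsmR

/-! Project RO: the coloured theorem with the constant `18 / 5` for arbitrary linear forms with the
right order of magnitude, unconditionally. -/

set_option autoImplicit false

namespace Pool.Agent.Y827.RO

open Pool.Agent
open Pool.Agent.W25.UN Pool.Agent.W25.UB
open Pool.Agent.H442R2
open Pool.Agent.TH899.UG
open Pool.Agent.Y827.LS Pool.Agent.Y827.GS

theorem hSML : St_SML :=
  smlA (Pool.Agent.W991.UN.main hFLA Pool.Agent.W21.UN.main)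
    Pool.Agent.W398.UNFO.rc Pool.Agent.W398.UNFO.sd
    Pool.Agent.W493.UN.S1P.main Pool.Agent.W493.UN.WD.main
    W310.UN.VL.main Pool.Agent.W21.UN.main hSUM

/-- **the uniform coloured theorem with the constant `18 / 5`, arbitrary slopes, right order** -/
theorem thmR : ThmR (fun _ => True) :=
  thmR_of hSML Pool.Agent.W398.UNFO.rc (r2bg (r2tr ttc)) hR2LF hEXM Pool.Agent.W505.UBGAU.main hFT3
    (Pool.Agent.W308.UB.main hEXM) (flc3 Pool.Agent.W308.PL.FLW Pool.Agent.W655.PL.VLB)
    hSUM hMASH (Pool.Agent.W940.UBNWL.main Pool.Agent.W21.UN.main)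
    Pool.Agent.W398.UNFO.sd hTWaH hTWbH
    (u0F hNWU) (l1F hNWU Pool.Agent.W469.UBNWE.main)
    (u2F hNWU Pool.Agent.W469.UBNWE.main)
    (udF hNWU Pool.Agent.W469.UBNWE.main) hNWU Pool.Agent.W469.UBNWE.main hVLNF

end Pool.Agent.Y827.RO
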