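import Mathlib
import Pool.Agent.Y677.RSZ.FinInst

/-! Project RO: preparations for narrow progressions: halving of intervals, pigeonhole principle for the
difference. -/

set_option autoImplicit false

namespace Pool.Agent.Y827.RO

open Finset Filter Topology
open Pool.Agent.Y677.RSZ (InProg Outside)

/-- half of `x`, rounded up -/
def hf (x : ℕ) : ℕ := (x + 1) / 2

theorem hf_iter_le (N j : ℕ) : hf^[j + 1] N ≤ hf^[j] N ∨ hf^[j] N = 0 := by
  rw [Function.iterate_succ_apply']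
  unfold hf
  omega

theorem hf_iter_lo (N : ℕ) : ∀ j : ℕ, N ≤ 2 ^ j * hf^[j] N := by
  intro j
  induction j with
  | zero => simp
  | succ j ih =>
    rw [Function.iterate_succ_apply']
    have h1 : hf^[j] N ≤ 2 * hf (hf^[j] N) := by unfold hf; omega
    calc N ≤ 2 ^ j * hf^[j] N := ih
      _ ≤ 2 ^ j * (2 * hf (hf^[j] N)) := Nat.mul_le_mul_left _ h1
      _ = 2 ^ (j + 1) * hf (hf^[j] N) := by rw [pow_succ]; ring

theorem hf_iter_hi (N : ℕ) : ∀ j : ℕ, 2 ^ j * hf^[j] N ≤ N + 2 ^ j := by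
  intro j
  induction j with
  | zero => simp
  | succ j ih =>
    rw [Function.iterate_succ_apply']
    have h1 : 2 * hf (hf^[j] N) ≤ hf^[j] N + 1 := by unfold hf; omega
    calc 2 ^ (j + 1) * hf (hf^[j] N) = 2 ^ j * (2 * hf (hf^[j] N)) := by rw [pow_succ]; ring
      _ ≤ 2 ^ j * (hf^[j] N + 1) := Nat.mul_le_mul_left _ h1
      _ = 2 ^ j * hf^[j] N + 2 ^ j := by ring
      _ ≤ N + 2 ^ j + 2 ^ j := by omega
      _ = N + 2 ^ (j + 1) := by rw [pow_succ]; ring

/-- the intervals `(hf^[j+1] N, hf^[j] N]`, `j < J`, cover `(hf^[J] N, N]` -/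
theorem hf_cover (N m : ℕ) (h1 : m ≤ N) : ∀ J : ℕ, hf^[J] N < m →
    ∃ j < J, hf^[j + 1] N < m ∧ m ≤ hf^[j] N := by
  intro J
  induction J with
  | zero =>
    intro h
    simp only [Function.iterate_zero, id_eq] at h
    omega
  | succ J ih =>
    intro h
    by_cases h2 : hf^[J] N < m
    · obtain ⟨j, hj, h3⟩ := ih h2
      exact ⟨j, by omega, h3⟩
    · exact ⟨J, by omega, h, by omega⟩

open Classical in
/-- the number of the elements of `A` in the interval is at most the sum over the halved intervals -/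
theorem cover_card (A : Set ℕ) (N J : ℕ) :
    Pool.Agent.TH977.PW.N A (hf^[J] N) N ≤
      ∑ j ∈ range J, Pool.Agent.TH977.PW.N A (hf^[j + 1] N) (hf^[j] N) := by
  unfold Pool.Agent.TH977.PW.N
  refine le_trans (card_le_card (t := (range J).biUnion fun j =>
    (Ioc (hf^[j + 1] N) (hf^[j] N)).filter (fun m => m ∈ A)) ?_) card_biUnion_le
  intro m hm
  obtain ⟨h1, h2⟩ := mem_filter.1 hm
  rw [mem_Ioc] at h1
  obtain ⟨j, hj, h3, h4⟩ := hf_cover N m h1.2 J h1.1
  exact mem_biUnion.2 ⟨j, mem_range.2 hj, mem_filter.2 ⟨mem_Ioc.2 ⟨h3, h4⟩, h2⟩⟩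

open Classical in
/-- pigeonhole principle for the difference -/
theorem pig (A P : Set ℕ) (l a b N₀ : ℕ) (D x : ℝ) (hb : b ≤ N₀) (hx : 0 < x)
    (hP : ∀ m ∈ P, InProg A l D a b m)
    (h : x ≤ (Pool.Agent.TH977.PW.N P a b : ℝ)) :
    ∃ d : ℕ, 1 ≤ d ∧ (d : ℝ) ≤ D ∧
      x ≤ l * D * (((Icc 1 N₀).filter (fun u : ℕ => ∀ j < l, u + j * d ∈ A)).card : ℝ) := by
  by_contra hcon
  push Not at hcon
  set cnt : ℕ → ℕ := fun d => ((Icc 1 N₀).filter (fun u : ℕ => ∀ j < l, u + j * d ∈ A)).card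
    with hcnt
  have hsub : (Ioc a b).filter (fun m => m ∈ P) ⊆
      (Icc 1 ⌊D⌋₊).biUnion (fun d => (range l).biUnion (fun i =>
        ((Icc 1 N₀).filter (fun u : ℕ => ∀ j < l, u + j * d ∈ A)).image (fun u => u + i * d))) := by
    intro m hm
    obtain ⟨h1, h2⟩ := mem_filter.1 hm
    obtain ⟨u, d, hd1, hdD, hu, i, hi, hmi⟩ := hP m h2
    have hu0 := hu 0 (by omega)
    rw [zero_mul, add_zero] at hu0
    refine mem_biUnion.2 ⟨d, mem_Icc.2 ⟨hd1, Nat.le_floor hdD⟩, mem_biUnion.2 ⟨i, mem_range.2 hi,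
      mem_image.2 ⟨u, mem_filter.2 ⟨mem_Icc.2 ⟨by omega, by omega⟩, fun j hj => (hu j hj).1⟩,
        hmi.symm⟩⟩⟩
  have h1 : Pool.Agent.TH977.PW.N P a b ≤
      ∑ d ∈ Icc 1 ⌊D⌋₊, l * cnt d := by
    unfold Pool.Agent.TH977.PW.N
    refine (card_le_card hsub).trans (card_biUnion_le.trans (sum_le_sum fun d _ => ?_))
    refine card_biUnion_le.trans ?_
    calc ∑ i ∈ range l, (((Icc 1 N₀).filter (fun u : ℕ => ∀ j < l, u + j * d ∈ A)).image
          (fun u => u + i * d)).card ≤ ∑ _i ∈ range l, cnt d :=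
          sum_le_sum fun i _ => card_image_le
      _ = l * cnt d := by rw [sum_const, card_range, smul_eq_mul]
  have h2 : x ≤ ∑ d ∈ Icc 1 ⌊D⌋₊, (l : ℝ) * cnt d := by
    refine h.trans ?_
    have := (Nat.cast_le (α := ℝ)).2 h1
    push_cast at this
    exact this
  rcases (Icc 1 ⌊D⌋₊).eq_empty_or_nonempty with he | hne
  · rw [he, sum_empty] at h2
    linarith
  · obtain ⟨d₀, hd₀⟩ := hne
    have hD1 : (1 : ℝ) ≤ D := by
      have h3 := mem_Icc.1 hd₀
      have h4 : 1 ≤ ⌊D⌋₊ := h3.1.trans h3.2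
      exact (Nat.one_le_floor_iff D).1 h4
    have h3 : ∑ d ∈ Icc 1 ⌊D⌋₊, (l : ℝ) * cnt d < ∑ _d ∈ Icc 1 ⌊D⌋₊, x / D := by
      refine sum_lt_sum_of_nonempty ⟨d₀, hd₀⟩ fun d hd => ?_
      have hd' := mem_Icc.1 hd
      have h5 := hcon d hd'.1 ((Nat.le_floor_iff (by linarith)).1 hd'.2)
      rw [lt_div_iff₀ (by linarith)]
      calc (l : ℝ) * cnt d * D = l * D * cnt d := by ring
        _ < x := h5
    rw [sum_const, Nat.card_Icc, Nat.add_sub_cancel, nsmul_eq_mul] at h3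
    have h4 : (⌊D⌋₊ : ℝ) * (x / D) ≤ D * (x / D) :=
      mul_le_mul_of_nonneg_right (Nat.floor_le (by linarith)) (by positivity)
    rw [mul_div_cancel₀ x (by linarith : D ≠ 0)] at h4
    linarith

open Classical in
/-- from all but few elements in progressions to many elements in progressions -/
theorem inside (A P : Set ℕ) (l a b : ℕ) (D : ℝ)
    (hP : ∀ m ∈ A, InProg A l D a b m → m ∈ P) :
    (Pool.Agent.TH977.PW.N A a b : ℝ) ≤
      Pool.Agent.TH977.PW.N P a b +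
      Pool.Agent.TH977.PW.N (Outside A l D a b) a b := by
  unfold Pool.Agent.TH977.PW.N
  rw [← Nat.cast_add, Nat.cast_le]
  refine le_trans (card_le_card ?_) (card_union_le _ _)
  intro m hm
  obtain ⟨h1, h2⟩ := mem_filter.1 hm
  by_cases h3 : InProg A l D a b m
  · exact mem_union_left _ (mem_filter.2 ⟨h1, hP m h2 h3⟩)
  · exact mem_union_right _ (mem_filter.2 ⟨h1, h2, h3⟩)

end Pool.Agent.Y827.RO
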