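import Mathlib
import Pool.Agent.Y827.RO.NarA
import Pool.Agent.Y827.RO.LamR

/-! Project RO: primes in many classes of linear forms simultaneously along narrow progressions. -/

set_option autoImplicit false

namespace Pool.Agent.Y827.RO

open Finset Filter Topology
open Pool.Agent.Y827.GS
open Pool.Agent.Y677.RSZ (InProg Outside)

/-- the number of the `n ≤ N` such that all forms of `F` are prime at `n, n + d, ..., n + (l-1) d` -/
def cntA (F : Finset (ℤ × ℤ)) (l d N : ℕ) : ℕ :=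
  ((Icc 1 N).filter (fun n : ℕ => ∀ j < l, ∀ f ∈ F,
    (f.1 * ((n + j * d : ℕ) : ℤ) + f.2).toNat.Prime)).card

/-- many narrow progressions -/
def QN (l C N : ℕ) (F : Finset (ℤ × ℤ)) : Prop :=
  ∃ d : ℕ, 1 ≤ d ∧ (d : ℝ) ≤ (Real.log N) ^ C ∧ (N : ℝ) / (Real.log N) ^ C ≤ (cntA F l d N : ℝ)

theorem QN_anti {l C N : ℕ} {F F' : Finset (ℤ × ℤ)} (h : F' ⊆ F) (hF : QN l C N F) :
    QN l C N F' := by
  obtain ⟨d, h1, h2, h3⟩ := hF
  refine ⟨d, h1, h2, h3.trans ?_⟩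
  rw [Nat.cast_le]
  unfold cntA
  apply card_le_card
  intro n hn
  rw [mem_filter] at hn ⊢
  exact ⟨hn.1, fun j hj f hf => hn.2 j hj f (h hf)⟩

theorem log_ge_one {N : ℕ} (hN : 3 ≤ N) : 1 ≤ Real.log N := by
  have h1 : (3 : ℝ) ≤ N := by exact_mod_cast hN
  rw [Real.le_log_iff_exp_le (by linarith)]
  have h2 := Real.exp_one_lt_d9
  linarith

theorem QN_mono {l C C' N : ℕ} {F : Finset (ℤ × ℤ)} (hN : 3 ≤ N) (hC : C ≤ C') (h : QN l C N F) :
    QN l C' N F := by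
  obtain ⟨d, h1, h2, h3⟩ := h
  have hl := log_ge_one hN
  have h4 : Real.log N ^ C ≤ Real.log N ^ C' := pow_le_pow_right₀ hl hC
  exact ⟨d, h1, h2.trans h4, (div_le_div_of_nonneg_left (Nat.cast_nonneg _) (by positivity) h4).trans h3⟩

theorem QN_len {l l' C N : ℕ} {F : Finset (ℤ × ℤ)} (hl : l ≤ l') (h : QN l' C N F) : QN l C N F := by
  obtain ⟨d, h1, h2, h3⟩ := h
  refine ⟨d, h1, h2, h3.trans ?_⟩
  rw [Nat.cast_le]
  unfold cntA
  apply card_le_card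
  intro n hn
  rw [mem_filter] at hn ⊢
  exact ⟨hn.1, fun j hj f hf => hn.2 j (by omega) f hf⟩

/-- the system of the forms together with `m - s` -/
theorem sys_s {T K : ℕ} (H : Fin T → Fin K → ℤ × ℤ)
    (hinj : Function.Injective (fun x : Fin T × Fin K => H x.1 x.2))
    (hpos : ∀ g i, 0 < (H g i).1 ∧ IsCoprime (H g i).1 (H g i).2) (l : ℕ) (hl : 2 ≤ l) (s : ℕ)
    (hs1 : ∀ g i, (H g i).2 + (H g i).1 * s ≠ 0)
    (hs2 : ∀ p : ℕ, p.Prime → ∃ r : ℤ, ¬ (p : ℤ) ∣ r - s ∧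
        ∀ g i, ¬ (p : ℤ) ∣ (H g i).1 * r + (H g i).2) :
    ∃ r0 : ℕ, 2 ≤ r0 ∧ ∀ r : ℕ, r0 ≤ r → ∀ ε : ℝ, 0 < ε → ∃ B : ℕ, ∀ᶠ X : ℕ in atTop, ∀ Y : ℕ,
      (X : ℝ) ^ (1 / 2 : ℝ) ≤ Y → Y ≤ X → ∀ A : Set ℕ, (∀ m ∈ A, (∀ p : ℕ, p.Prime →
        (p : ℤ) ∣ (m : ℤ) - s → (m : ℝ) ^ (1 / (r : ℝ)) < (p : ℝ)) ∧ ∀ g i, ∀ p : ℕ, p.Prime →
        (p : ℤ) ∣ (H g i).1 * m + (H g i).2 → (m : ℝ) ^ (1 / (r : ℝ)) < (p : ℝ)) →
        (Pool.Agent.TH977.PW.N (Outside A l (Real.log X ^ B) X (X + Y)) X (X + Y) : ℝ) ≤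
          ε * Y / Real.log X ^ (T * K + 1) := by
  have hnat : ∀ g i, (((H g i).1.natAbs : ℕ) : ℤ) = (H g i).1 := by
    intro g i
    have := (hpos g i).1
    omega
  set av : Option (Fin T × Fin K) → ℕ := fun o => o.elim 1 (fun x => (H x.1 x.2).1.natAbs) with hav
  set bv : Option (Fin T × Fin K) → ℤ := fun o => o.elim (-(s : ℤ)) (fun x => (H x.1 x.2).2)
    with hbv
  obtain ⟨r0, hr0, h⟩ := Pool.Agent.Y677.RSZ.narrow_lin (ι := Option (Fin T × Fin K)) av bv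
    (by
      rintro (_ | x)
      · exact one_pos
      · show 0 < (H x.1 x.2).1.natAbs
        have := (hpos x.1 x.2).1
        omega)
    (by
      rintro (_ | x)
      · show IsCoprime (((1 : ℕ) : ℤ)) _
        rw [Nat.cast_one]
        exact isCoprime_one_left
      · show IsCoprime (((H x.1 x.2).1.natAbs : ℕ) : ℤ) (H x.1 x.2).2
        rw [hnat]
        exact (hpos x.1 x.2).2)
    (by
      rintro (_ | x) (_ | y) h1 h2
      · rfl
      · exfalso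
        have h1' : 1 = (H y.1 y.2).1.natAbs := h1
        have h2' : -(s : ℤ) = (H y.1 y.2).2 := h2
        have h3 := hnat y.1 y.2
        rw [← h1'] at h3
        apply hs1 y.1 y.2
        rw [← h2', ← h3]
        push_cast
        ring
      · exfalso
        have h1' : (H x.1 x.2).1.natAbs = 1 := h1
        have h2' : (H x.1 x.2).2 = -(s : ℤ) := h2
        have h3 := hnat x.1 x.2
        rw [h1'] at h3
        apply hs1 x.1 x.2
        rw [h2', ← h3]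
        push_cast
        ring
      · have h1' : (H x.1 x.2).1.natAbs = (H y.1 y.2).1.natAbs := h1
        have h2' : (H x.1 x.2).2 = (H y.1 y.2).2 := h2
        have h3 := hnat x.1 x.2
        have h4 := hnat y.1 y.2
        rw [h1', h4] at h3
        have h5 : H x.1 x.2 = H y.1 y.2 := Prod.ext h3.symm h2'
        rw [hinj (a₁ := x) (a₂ := y) h5])
    (by
      intro p hp
      obtain ⟨r, hr1, hr2⟩ := hs2 p hp
      have hp0 : (0 : ℤ) < p := by exact_mod_cast hp.pos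
      have e1 : (((r % p).toNat : ℕ) : ℤ) = r % p := Int.toNat_of_nonneg (Int.emod_nonneg _ hp0.ne')
      have e2 : ∀ a b : ℤ, (p : ℤ) ∣ a * (r % p) + b ↔ (p : ℤ) ∣ a * r + b := by
        intro a b
        have h3 : a * (r % p) + b = (a * r + b) - p * (a * (r / p)) := by
          have := Int.emod_add_mul_ediv r p
          linear_combination a * this
        rw [h3]
        exact dvd_sub_left (dvd_mul_right _ _)
      refine ⟨(r % p).toNat, ?_⟩
      rintro (_ | x)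
      · show ¬ (p : ℤ) ∣ ((1 : ℕ) : ℤ) * (((r % p).toNat : ℕ) : ℤ) + -(s : ℤ)
        rw [e1, e2]
        intro hd
        apply hr1
        have h3 : ((1 : ℕ) : ℤ) * r + -(s : ℤ) = r - s := by push_cast; ring
        rwa [h3] at hd
      · show ¬ (p : ℤ) ∣ (((H x.1 x.2).1.natAbs : ℕ) : ℤ) * (((r % p).toNat : ℕ) : ℤ) +
          (H x.1 x.2).2
        rw [hnat, e1, e2]
        exact hr2 _ _)
    (fun r => {m | (∀ p : ℕ, p.Prime →
        (p : ℤ) ∣ (m : ℤ) - s → (m : ℝ) ^ (1 / (r : ℝ)) < (p : ℝ)) ∧ ∀ g i, ∀ p : ℕ, p.Prime →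
        (p : ℤ) ∣ (H g i).1 * m + (H g i).2 → (m : ℝ) ^ (1 / (r : ℝ)) < (p : ℝ)})
    (fun _ => Set.univ) (T * K + 1) (by
      rw [Fintype.card_option, Fintype.card_prod, Fintype.card_fin, Fintype.card_fin])
    (by
      rintro r m hr hm (_ | x) p hp hd
      · apply hm.1 p hp
        have hd' : (p : ℤ) ∣ ((1 : ℕ) : ℤ) * (m : ℤ) + -(s : ℤ) := hd
        have h3 : ((1 : ℕ) : ℤ) * (m : ℤ) + -(s : ℤ) = m - s := by push_cast; ring
        rwa [h3] at hd'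
      · apply hm.2 x.1 x.2 p hp
        have hd' : (p : ℤ) ∣ (((H x.1 x.2).1.natAbs : ℕ) : ℤ) * (m : ℤ) + (H x.1 x.2).2 := hd
        rwa [hnat] at hd')
    (fun _ _ _ _ _ => Set.mem_univ _) (1 / 2) (by norm_num) (by norm_num)
  refine ⟨r0, hr0, fun r hr ε hε => ?_⟩
  obtain ⟨B, hB⟩ := (h r hr).2 l hl ε hε
  refine ⟨B, ?_⟩
  filter_upwards [hB] with X hX Y h1 h2 A hA
  exact hX Y h1 h2 A (fun m hm => hA m hm)

open Classical in
theorem narR (T M : ℕ) (hT : 1 ≤ T) (hTM : (18 / 5 : ℝ) * M < T) : ∃ K : ℕ, 1 ≤ K ∧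
    ∀ H : Fin T → Fin K → ℤ × ℤ, Function.Injective (fun x : Fin T × Fin K => H x.1 x.2) →
    (∀ g i, 0 < (H g i).1 ∧ IsCoprime (H g i).1 (H g i).2) →
    (∀ p : ℕ, p.Prime → p ≤ T * K → ∃ r : ℤ, ∀ g i, ¬ (p : ℤ) ∣ (H g i).1 * r + (H g i).2) →
    ∀ l : ℕ, ∃ C : ℕ, ∀ᶠ N : ℕ in atTop, ∃ (S : Finset (Fin T)) (σ : Fin T → Fin K),
      M + 1 ≤ S.card ∧ QN l C N (S.image (fun g => H g (σ g))) := by
  obtain ⟨K, hK, δ, hδ, H0⟩ := lamR0 T M hT hTM
  refine ⟨K, hK, fun H hinj hpos hloc l₀ => ?_⟩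
  set l : ℕ := max l₀ 2 with hl
  have hl2 : 2 ≤ l := le_max_right _ _
  have hlr : (0 : ℝ) < l := by exact_mod_cast (by omega : 0 < l)
  obtain ⟨A, hA⟩ := adf_ev (univ.image (fun x : Fin T × Fin K => H x.1 x.2)) (by
    intro f hf
    obtain ⟨x, -, rfl⟩ := mem_image.1 hf
    exact hpos x.1 x.2)
  obtain ⟨s₀, c, hc, H1⟩ := H0 A
  set k : ℕ := T * K + 1 with hk
  set ε : ℝ := c / (10 * 2 ^ k) with hε
  have hε0 : 0 < ε := by positivity
  set Cs : ℕ → Prop := fun s => (∀ g i, (H g i).2 + (H g i).1 * s ≠ 0) ∧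
      (∀ p : ℕ, p.Prime → ∃ r : ℤ, ¬ (p : ℤ) ∣ r - s ∧
        ∀ g i, ¬ (p : ℤ) ∣ (H g i).1 * r + (H g i).2) with hCs
  have h2 : ∀ s : ℕ, ∃ r B : ℕ, 1 / δ ≤ r ∧ (Cs s → ∀ᶠ X : ℕ in atTop, ∀ Y : ℕ,
      (X : ℝ) ^ (1 / 2 : ℝ) ≤ Y → Y ≤ X → ∀ A : Set ℕ, (∀ m ∈ A, (∀ p : ℕ, p.Prime →
        (p : ℤ) ∣ (m : ℤ) - s → (m : ℝ) ^ (1 / (r : ℝ)) < (p : ℝ)) ∧ ∀ g i, ∀ p : ℕ, p.Prime →
        (p : ℤ) ∣ (H g i).1 * m + (H g i).2 → (m : ℝ) ^ (1 / (r : ℝ)) < (p : ℝ)) →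
        (Pool.Agent.TH977.PW.N (Outside A l (Real.log X ^ B) X (X + Y)) X (X + Y) : ℝ) ≤
          ε * Y / Real.log X ^ k) := by
    intro s
    by_cases hs : Cs s
    · obtain ⟨r0, -, h⟩ := sys_s H hinj hpos l hl2 s hs.1 hs.2
      obtain ⟨B, hB⟩ := h (max r0 ⌈1 / δ⌉₊) (le_max_left _ _) ε hε0
      refine ⟨max r0 ⌈1 / δ⌉₊, B, ?_, fun _ => hB⟩
      exact (Nat.le_ceil _).trans (by exact_mod_cast le_max_right _ _)
    · exact ⟨⌈1 / δ⌉₊, 0, Nat.le_ceil _, fun h => absurd h hs⟩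
  choose rf Bf hrf hBf using h2
  have h3 : ∀ᶠ X : ℕ in atTop, ∀ s ∈ range (s₀ + 1), Cs s → ∀ Y : ℕ,
      (X : ℝ) ^ (1 / 2 : ℝ) ≤ Y → Y ≤ X → ∀ A : Set ℕ, (∀ m ∈ A, (∀ p : ℕ, p.Prime →
        (p : ℤ) ∣ (m : ℤ) - s → (m : ℝ) ^ (1 / (rf s : ℝ)) < (p : ℝ)) ∧ ∀ g i, ∀ p : ℕ, p.Prime →
        (p : ℤ) ∣ (H g i).1 * m + (H g i).2 → (m : ℝ) ^ (1 / (rf s : ℝ)) < (p : ℝ)) →
        (Pool.Agent.TH977.PW.N (Outside A l (Real.log X ^ (Bf s)) X (X + Y)) X (X + Y) : ℝ) ≤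
          ε * Y / Real.log X ^ k := by
    rw [Filter.eventually_all_finset]
    intro s _
    by_cases hs : Cs s
    · filter_upwards [hBf s hs] with X hX _ using hX
    · exact Eventually.of_forall fun X h => absurd h hs
  obtain ⟨X₀, hX₀⟩ := eventually_atTop.1 h3
  set B : ℕ := ∑ s ∈ range (s₀ + 1), Bf s with hB
  refine ⟨k + B + 1, ?_⟩
  have hlog : ∀ᶠ N : ℕ in atTop, 10 * (l : ℝ) / c ≤ Real.log N :=
    (Real.tendsto_log_atTop.comp tendsto_natCast_atTop_atTop).eventually_ge_atTop _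
  filter_upwards [H1, hA, hlog, eventually_ge_atTop (32 * X₀ + 2000)] with N hN hAN hNl hNb
  have hN1 : 1 ≤ N := by omega
  have hNr : (0 : ℝ) < N := by exact_mod_cast hN1
  have hL1 : 1 ≤ Real.log N := log_ge_one (by omega)
  obtain ⟨s, S, σ, hs, hs1, hs2, hS, hcard⟩ := hN H hinj
    (fun g i => hAN _ (mem_image.2 ⟨(g, i), mem_univ _, rfl⟩)) hloc
  refine ⟨S, σ, hS, QN_len (l' := l) (le_max_left _ _) ?_⟩
  have hCss : Cs s := ⟨hs1, hs2⟩
  obtain ⟨As, hAs⟩ : ∃ As : Set ℕ, ∀ m, m ∈ As ↔ m ∈ Rs H δ s S σ N :=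
    ⟨{m | m ∈ Rs H δ s S σ N}, fun m => Iff.rfl⟩
  have hrough : ∀ m ∈ As, (∀ p : ℕ, p.Prime →
        (p : ℤ) ∣ (m : ℤ) - s → (m : ℝ) ^ (1 / (rf s : ℝ)) < (p : ℝ)) ∧ ∀ g i, ∀ p : ℕ, p.Prime →
        (p : ℤ) ∣ (H g i).1 * m + (H g i).2 → (m : ℝ) ^ (1 / (rf s : ℝ)) < (p : ℝ) := by
    intro m hm
    have hm' : m ∈ Rs H δ s S σ N := (hAs m).1 hm
    unfold Rs at hm'
    obtain ⟨h4, h5, h6, h7, -⟩ := mem_filter.1 hm'
    rw [mem_Icc] at h4
    have hrr : 1 / (rf s : ℝ) ≤ δ := by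
      have h8 := hrf s
      have h9 : (0 : ℝ) < rf s := lt_of_lt_of_le (by positivity) h8
      rw [div_le_iff₀ h9]
      rw [div_le_iff₀ hδ] at h8
      linarith
    have hm1 : (1 : ℝ) ≤ m := by exact_mod_cast h4.1
    have hbig : ∀ p : ℕ, p.Prime → δ * Real.log N < Real.log p →
        (m : ℝ) ^ (1 / (rf s : ℝ)) < (p : ℝ) := by
      intro p hp h8
      have hpr : (0 : ℝ) < p := by exact_mod_cast hp.pos
      have h10 : 0 ≤ 1 / (rf s : ℝ) := by positivity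
      rw [← Real.exp_log hpr, Real.rpow_def_of_pos (by linarith), Real.exp_lt_exp]
      have h11 : Real.log m ≤ Real.log N :=
        Real.log_le_log (by linarith) (by exact_mod_cast h4.2)
      have h12 : 0 ≤ Real.log m := Real.log_nonneg hm1
      calc Real.log m * (1 / (rf s : ℝ)) ≤ Real.log N * δ :=
            mul_le_mul h11 hrr h10 (by linarith)
        _ < Real.log p := by linarith
    refine ⟨fun p hp hd => hbig p hp ?_, fun g i p hp hd => hbig p hp ?_⟩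
    · by_contra h8
      exact h6 p hp (not_lt.1 h8) hd
    · by_contra h8
      exact h7 g i p hp (not_lt.1 h8) hd
  -- one of the five intervals
  have hx5 : 32 * hf^[5] N ≤ N + 32 := hf_iter_hi N 5
  have hcov : (Rs H δ s S σ N).card ≤ ∑ j ∈ range 5,
      Pool.Agent.TH977.PW.N As (hf^[j + 1] N) (hf^[j] N) := by
    refine le_trans ?_ (cover_card As N 5)
    unfold Pool.Agent.TH977.PW.N
    apply card_le_card
    intro m hm
    have hm' := hm
    unfold Rs at hm'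
    obtain ⟨h4, h5, -⟩ := mem_filter.1 hm'
    rw [mem_Icc] at h4
    refine mem_filter.2 ⟨mem_Ioc.2 ⟨?_, h4.2⟩, (hAs m).2 hm⟩
    have h6 : (N : ℝ) ≤ 16 * m := by linarith
    have h7 : N ≤ 16 * m := by exact_mod_cast h6
    omega
  obtain ⟨j, hj, hjc⟩ : ∃ j < 5, c / 5 * (N / (Real.log N) ^ k) ≤
      (Pool.Agent.TH977.PW.N As (hf^[j + 1] N) (hf^[j] N) : ℝ) := by
    by_contra hcon
    push Not at hcon
    have h4 : ∑ j ∈ range 5, (Pool.Agent.TH977.PW.N As (hf^[j + 1] N) (hf^[j] N) : ℝ) <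
        ∑ _j ∈ range 5, c / 5 * (N / (Real.log N) ^ k) :=
      sum_lt_sum_of_nonempty ⟨0, by simp⟩ fun j hj => hcon j (mem_range.1 hj)
    rw [sum_const, card_range, nsmul_eq_mul] at h4
    have h5 := (Nat.cast_le (α := ℝ)).2 hcov
    push_cast at h5 h4
    linarith
  set X : ℕ := hf^[j + 1] N with hX
  have hXlo : N ≤ 2 ^ (j + 1) * X := hf_iter_lo N (j + 1)
  have hX32 : N ≤ 32 * X := by
    refine hXlo.trans (Nat.mul_le_mul_right _ ?_)
    calc 2 ^ (j + 1) ≤ 2 ^ 5 := Nat.pow_le_pow_right (by norm_num) (by omega)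
      _ = 32 := by norm_num
  have hXx : X = hf (hf^[j] N) := by rw [hX, Function.iterate_succ_apply']
  have hXj1 : hf^[j] N ≤ 2 * X := by rw [hXx]; unfold hf; omega
  have hXj2 : 2 * X ≤ hf^[j] N + 1 := by rw [hXx]; unfold hf; omega
  have hjN : hf^[j] N ≤ N := by
    have : ∀ i : ℕ, hf^[i] N ≤ N := by
      intro i
      induction i with
      | zero => simp
      | succ i ih =>
        rw [Function.iterate_succ_apply']
        have h4 : hf (hf^[i] N) ≤ hf^[i] N ∨ hf^[i] N = 0 ∧ hf (hf^[i] N) = 0 := by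
          unfold hf; omega
        omega
    exact this j
  set Y : ℕ := hf^[j] N - X with hY
  have hXY : X + Y = hf^[j] N := by omega
  have hX1 : 60 ≤ X := by omega
  have hXr : (60 : ℝ) ≤ X := by exact_mod_cast hX1
  have hYX : Y ≤ X := by omega
  have hYlo : X - 1 ≤ Y := by omega
  have hYr : (X : ℝ) ^ (1 / 2 : ℝ) ≤ Y := by
    rw [← Real.sqrt_eq_rpow]
    have h4 : (X : ℝ) ≤ Y + 1 := by exact_mod_cast (by omega : X ≤ Y + 1)
    have h5 : Real.sqrt X ≤ (X : ℝ) - 1 := by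
      rw [Real.sqrt_le_left (by linarith)]
      nlinarith
    linarith
  have hout := hX₀ X (by omega) s (mem_range.2 (by omega)) hCss Y hYr hYX As hrough
  rw [hXY] at hout
  have hYN : (Y : ℝ) ≤ N := by exact_mod_cast (by omega : Y ≤ N)
  have hXNr : (X : ℝ) ≤ N := by exact_mod_cast (by omega : X ≤ N)
  have hlX : Real.log N / 2 ≤ Real.log X := by
    have h4 : (N : ℝ) ≤ (X : ℝ) ^ 2 := by
      have h5 : (N : ℝ) ≤ 32 * X := by exact_mod_cast hX32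
      nlinarith
    have h6 := Real.log_le_log hNr h4
    rw [Real.log_pow] at h6
    push_cast at h6
    linarith
  have hlX0 : 0 < Real.log X := lt_of_lt_of_le (by linarith) hlX
  have hlXN : Real.log X ≤ Real.log N := Real.log_le_log (by linarith) hXNr
  have hout2 : ε * Y / Real.log X ^ k ≤ c / 10 * (N / (Real.log N) ^ k) := by
    have h4 : (Real.log N / 2) ^ k ≤ Real.log X ^ k := pow_le_pow_left₀ (by positivity) hlX k
    calc ε * Y / Real.log X ^ k ≤ ε * N / (Real.log N / 2) ^ k := by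
          apply div_le_div₀ (by positivity) _ (by positivity) h4
          exact mul_le_mul_of_nonneg_left hYN hε0.le
      _ = c / 10 * (N / (Real.log N) ^ k) := by
          rw [hε, div_pow]
          field_simp
  obtain ⟨P, hP⟩ : ∃ P : Set ℕ, P = {m | InProg As l (Real.log X ^ (Bf s)) X (hf^[j] N) m} :=
    ⟨_, rfl⟩
  have hin := inside As P l X (hf^[j] N) (Real.log X ^ (Bf s)) (fun m _ h => by rw [hP]; exact h)
  have hq0 : 0 < N / (Real.log N) ^ k := by positivity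
  obtain ⟨d, hd1, hdD, hdc⟩ := pig As P l X (hf^[j] N) N (Real.log X ^ (Bf s))
    (c / 10 * (N / (Real.log N) ^ k)) hjN (by positivity) (fun m hm => by rw [hP] at hm; exact hm)
    (by linarith)
  have hBs : Bf s ≤ B := single_le_sum (f := Bf) (fun _ _ => Nat.zero_le _) (mem_range.2 (by omega))
  have hlB : Real.log X ^ (Bf s) ≤ Real.log N ^ B :=
    (pow_le_pow_left₀ hlX0.le hlXN _).trans (pow_le_pow_right₀ hL1 hBs)
  refine ⟨d, hd1, hdD.trans (hlB.trans (pow_le_pow_right₀ hL1 (by omega))), ?_⟩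
  have hcnt : (((Icc 1 N).filter (fun u : ℕ => ∀ j < l, u + j * d ∈ As)).card : ℝ) ≤
      (cntA (S.image (fun g => H g (σ g))) l d N : ℝ) := by
    rw [Nat.cast_le]
    unfold cntA
    apply card_le_card
    intro u hu
    obtain ⟨hu1, hu2⟩ := mem_filter.1 hu
    refine mem_filter.2 ⟨hu1, fun j hj f hf => ?_⟩
    obtain ⟨g, hg, rfl⟩ := mem_image.1 hf
    have h4 : u + j * d ∈ Rs H δ s S σ N := (hAs _).1 (hu2 j hj)
    unfold Rs at h4
    exact (mem_filter.1 h4).2.2.2.2 g hg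
  refine le_trans ?_ hcnt
  set cnt : ℝ := (((Icc 1 N).filter (fun u : ℕ => ∀ j < l, u + j * d ∈ As)).card : ℝ) with hcntd
  have hcnt0 : 0 ≤ cnt := Nat.cast_nonneg _
  have h4 : c / 10 * (N / (Real.log N) ^ k) ≤ l * Real.log N ^ B * cnt :=
    hdc.trans (mul_le_mul_of_nonneg_right (mul_le_mul_of_nonneg_left hlB hlr.le) hcnt0)
  have h5 : (l : ℝ) ≤ c / 10 * Real.log N := by
    rw [div_le_iff₀ hc] at hNl
    linarith
  have h6 : c / 10 * (N / (Real.log N) ^ k) ≤ c / 10 * Real.log N * Real.log N ^ B * cnt := by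
    refine h4.trans (mul_le_mul_of_nonneg_right (mul_le_mul_of_nonneg_right h5 (by positivity)) hcnt0)
  have h7 : (N : ℝ) / (Real.log N) ^ k ≤ Real.log N * Real.log N ^ B * cnt := by
    have h8 : c / 10 * (N / (Real.log N) ^ k) ≤ c / 10 * (Real.log N * Real.log N ^ B * cnt) := by
      linarith
    exact le_of_mul_le_mul_left h8 (by positivity)
  rw [div_le_iff₀ (by positivity)] at h7 ⊢
  calc (N : ℝ) ≤ Real.log N * Real.log N ^ B * cnt * Real.log N ^ k := h7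
    _ = cnt * Real.log N ^ (k + B + 1) := by ring

end Pool.Agent.Y827.RO
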