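import Mathlib
import Pool.Agent.Y827.RO.NarR
import Pool.Agent.Y827.GS.FamF

/-! Project RO: the proportion of the tuples of linear forms which are prime along narrow progressions, and
the uniform version up to a power of the logarithm. -/

set_option autoImplicit false

namespace Pool.Agent.Y827.RO

open Finset Filter Topology
open Pool.Agent.W25.QL
open Pool.Agent.Y827.LS
open Pool.Agent.Y827.GS
open Pool.Agent.W70.QP (freq_pigeon)

theorem ceilM (T : ℕ) (hT : 1 ≤ T) : ∃ M : ℕ, (18 / 5 : ℝ) * (M : ℝ) < T ∧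
    (T : ℝ) ≤ (18 / 5) * ((M + 1 : ℕ) : ℝ) := by
  have hlam : (0 : ℝ) < 18 / 5 := by norm_num
  have hTr : (0 : ℝ) < T := by exact_mod_cast hT
  obtain ⟨M, hM⟩ : ∃ M : ℕ, M + 1 = ⌈(T : ℝ) / (18 / 5)⌉₊ := by
    have : 0 < ⌈(T : ℝ) / (18 / 5)⌉₊ := Nat.ceil_pos.2 (by positivity)
    exact ⟨⌈(T : ℝ) / (18 / 5)⌉₊ - 1, by omega⟩
  refine ⟨M, ?_, ?_⟩
  · have h1 : (M : ℝ) < (T : ℝ) / (18 / 5) := by
      rw [← Nat.lt_ceil]
      omega
    rw [lt_div_iff₀ hlam] at h1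
    linarith
  · have h1 : (T : ℝ) / (18 / 5) ≤ ((M + 1 : ℕ) : ℝ) := by
      rw [hM]; exact Nat.le_ceil _
    rw [div_le_iff₀ hlam] at h1
    linarith

theorem narRD (T : ℕ) : ∃ K : ℕ, 1 ≤ K ∧ (1 ≤ T → ∀ H : Fin T → Fin K → ℤ × ℤ,
    Function.Injective (fun x : Fin T × Fin K => H x.1 x.2) →
    (∀ g i, 0 < (H g i).1 ∧ IsCoprime (H g i).1 (H g i).2) →
    (∀ p : ℕ, p.Prime → p ≤ T * K → ∃ r : ℤ, ∀ g i, ¬ (p : ℤ) ∣ (H g i).1 * r + (H g i).2) →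
    ∀ l : ℕ, ∃ C : ℕ, ∀ᶠ N : ℕ in atTop, ∃ (S : Finset (Fin T)) (c : Fin T → Fin K),
      (T : ℝ) ≤ (18 / 5) * (S.card : ℝ) ∧ QN l C N (S.image (fun g => H g (c g)))) := by
  rcases Nat.eq_zero_or_pos T with rfl | hT
  · exact ⟨1, le_rfl, fun h => absurd h (by norm_num)⟩
  obtain ⟨M, hM1, hM2⟩ := ceilM T hT
  obtain ⟨K, hK, h⟩ := narR T M hT hM1
  refine ⟨K, hK, fun _ H hinj hpos hloc l => ?_⟩
  obtain ⟨C, hC⟩ := h H hinj hpos hloc l
  refine ⟨C, ?_⟩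
  filter_upwards [hC] with N hN
  obtain ⟨S, c, hS, hc⟩ := hN
  refine ⟨S, c, hM2.trans (mul_le_mul_of_nonneg_left ?_ (by norm_num)), hc⟩
  exact_mod_cast hS

open Classical in
/-- the tuples of distinct forms in `V` with many narrow progressions -/
noncomputable def PhiQ (k : ℕ) (V : Finset (ℤ × ℤ)) (l C N : ℕ) : Finset (Fin (k + 1) → ℤ × ℤ) :=
  (Fintype.piFinset (fun _ : Fin (k + 1) => V)).filter (fun f => Function.Injective f ∧
    QN l C N (univ.image f))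

open Classical in
theorem PhiQ_mem {k : ℕ} {V : Finset (ℤ × ℤ)} {l C N : ℕ} {f : Fin (k + 1) → ℤ × ℤ}
    (h : f ∈ PhiQ k V l C N) : (∀ i, f i ∈ V) ∧ Function.Injective f ∧
      QN l C N (univ.image f) := by
  unfold PhiQ at h
  rw [mem_filter, Fintype.mem_piFinset] at h
  exact ⟨h.1, h.2.1, h.2.2⟩

open Classical in
theorem PhiQ_sub (k : ℕ) (V : Finset (ℤ × ℤ)) (l C N : ℕ) :
    PhiQ k V l C N ∈ (Fintype.piFinset (fun _ : Fin (k + 1) => V)).powerset := by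
  rw [mem_powerset]
  exact filter_subset _ _

open Classical in
theorem formsQ (k : ℕ) (ε : ℝ) (hε : 0 < ε) : ∃ z n₀ : ℕ, ∀ V : Finset (ℤ × ℤ),
    (∀ f ∈ V, 0 < f.1 ∧ IsCoprime f.1 f.2) → AdmF z V → n₀ ≤ V.card → ∀ l : ℕ, ∃ C : ℕ,
    ∀ᶠ N : ℕ in atTop, (dn k - ε) * (V.card : ℝ) ^ (k + 1) ≤ ((PhiQ k V l C N).card : ℝ) := by
  choose Kf hKf1 hKf using narRD
  obtain ⟨T, M, hT, hM⟩ := main_gen (lam := 18 / 5) (by norm_num) k (dn k)
    (dn_le k) (hcountL k) ε hε Kf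
  obtain ⟨n₀, hn₀⟩ := hM Unit
  refine ⟨∑ T' ∈ range (M + 1), T' * Kf T', n₀, ?_⟩
  intro V hVpos hVadm hVn l
  have hadm : ∀ T' : ℕ, T' ≤ M → ∀ H : Fin T' → Fin (Kf T') → ℤ × ℤ, (∀ g i, H g i ∈ V) →
      ∀ p : ℕ, p.Prime → p ≤ T' * Kf T' → ∃ r : ℤ, ∀ g i,
          ¬ (p : ℤ) ∣ (H g i).1 * r + (H g i).2 := by
    intro T' hT' H hHV p hp hpT
    obtain ⟨r, hr⟩ := hVadm p (hpT.trans
      (Finset.single_le_sum (f := fun T' => T' * Kf T') (fun _ _ => Nat.zero_le _)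
            (mem_range.2 (by omega)))) hp
    exact ⟨r, fun g i => hr _ (hHV g i)⟩
  have hC : ∀ T' : Fin (M + 1), ∀ H : Fin (T' : ℕ) → Fin (Kf T') → V, ∃ C : ℕ,
      ∀ᶠ N : ℕ in atTop, 1 ≤ (T' : ℕ) →
      Function.Injective (fun z : Fin (T' : ℕ) × Fin (Kf T') => ((H z.1 z.2 : V) : ℤ × ℤ)) →
      ∃ (S : Finset (Fin (T' : ℕ))) (cc : Fin (T' : ℕ) → Fin (Kf T')),
        ((T' : ℕ) : ℝ) ≤ (18 / 5) * (S.card : ℝ) ∧
        QN l C N (S.image (fun g => ((H g (cc g) : V) : ℤ × ℤ))) := by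
    intro T' H
    by_cases h0 : 1 ≤ (T' : ℕ)
    swap
    · exact ⟨0, Eventually.of_forall fun x h => absurd h h0⟩
    by_cases h1 : Function.Injective
        (fun z : Fin (T' : ℕ) × Fin (Kf T') => ((H z.1 z.2 : V) : ℤ × ℤ))
    swap
    · exact ⟨0, Eventually.of_forall fun x _ h => absurd h h1⟩
    obtain ⟨C, h2⟩ := hKf T' h0 (fun g i => ((H g i : V) : ℤ × ℤ)) h1
      (fun g i => hVpos _ (H g i).2)
      (hadm T' (by have := T'.2; omega) _ (fun g i => (H g i).2)) l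
    refine ⟨C, ?_⟩
    filter_upwards [h2] with x hx _ _
    exact hx
  choose CC hCC using hC
  set C : ℕ := ∑ T' : Fin (M + 1), ∑ H : Fin (T' : ℕ) → Fin (Kf T') → V, CC T' H with hCdef
  refine ⟨C, ?_⟩
  have hCle : ∀ (T' : Fin (M + 1)) (H : Fin (T' : ℕ) → Fin (Kf T') → V), CC T' H ≤ C := by
    intro T' H
    refine le_trans ?_ (single_le_sum
      (f := fun T' : Fin (M + 1) => ∑ H : Fin (T' : ℕ) → Fin (Kf T') → V, CC T' H)
      (fun _ _ => Nat.zero_le _) (mem_univ T'))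
    exact single_le_sum (f := fun H : Fin (T' : ℕ) → Fin (Kf T') → V => CC T' H)
      (fun _ _ => Nat.zero_le _) (mem_univ H)
  have hev : ∀ᶠ N : ℕ in atTop, ∀ T' : Fin (M + 1), ∀ H : Fin (T' : ℕ) → Fin (Kf T') → V,
      1 ≤ (T' : ℕ) →
      Function.Injective (fun z : Fin (T' : ℕ) × Fin (Kf T') => ((H z.1 z.2 : V) : ℤ × ℤ)) →
      ∃ (S : Finset (Fin (T' : ℕ))) (cc : Fin (T' : ℕ) → Fin (Kf T')),
        ((T' : ℕ) : ℝ) ≤ (18 / 5) * (S.card : ℝ) ∧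
        QN l (CC T' H) N (S.image (fun g => ((H g (cc g) : V) : ℤ × ℤ))) :=
    eventually_all.2 fun T' => eventually_all.2 fun H => hCC T' H
  filter_upwards [hev, eventually_ge_atTop 3] with N hN hN3
  have key := hn₀ (ℤ × ℤ) V (fun _ => ()) (fun F => QN l C N F) hVn
    (fun F F' hF h => QN_anti hF h) (by
      intro T' hT'1 hT'M H hHV hHinj _
      obtain ⟨S, cc, hS, hcc⟩ := hN ⟨T', by omega⟩ (fun g i => ⟨H g i, hHV g i⟩) hT'1 hHinj
      exact ⟨S, cc, hS, QN_mono hN3 (hCle _ _) hcc⟩)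
  refine key.trans (le_of_eq ?_)
  unfold PhiQ
  congr 2

open Classical in
/-- one family of tuples for all lengths -/
theorem familyQ {k : ℕ} {ε : ℝ} {V : Finset (ℤ × ℤ)}
    (hev : ∀ l : ℕ, ∃ C : ℕ, ∀ᶠ N : ℕ in atTop,
      (dn k - ε) * (V.card : ℝ) ^ (k + 1) ≤ ((PhiQ k V l C N).card : ℝ)) :
    ∃ 𝒢 : Finset (Fin (k + 1) → ℤ × ℤ), (∀ f ∈ 𝒢, (∀ i, f i ∈ V) ∧ Function.Injective f) ∧
      (dn k - ε) * (V.card : ℝ) ^ (k + 1) ≤ (𝒢.card : ℝ) ∧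
      ∀ l : ℕ, ∃ C : ℕ, ∃ᶠ N : ℕ in atTop, ∀ f ∈ 𝒢, QN l C N (univ.image f) := by
  set PS := (Fintype.piFinset (fun _ : Fin (k + 1) => V)).powerset with hPS
  choose C hev using hev
  have hmem : ∀ l N, PhiQ k V l (C l) N ∈ PS := fun l N => PhiQ_sub k V l (C l) N
  have hpig : ∀ l : ℕ, ∃ b : PS, (dn k - ε) * (V.card : ℝ) ^ (k + 1) ≤
      ((b : Finset (Fin (k + 1) → ℤ × ℤ)).card : ℝ) ∧
      ∃ᶠ N : ℕ in atTop, (⟨PhiQ k V l (C l) N, hmem l N⟩ : PS) = b := by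
    intro l
    by_contra hcon
    push Not at hcon
    have h1 : ∀ b : PS, ∀ᶠ N : ℕ in atTop, (dn k - ε) * (V.card : ℝ) ^ (k + 1) ≤
        ((b : Finset (Fin (k + 1) → ℤ × ℤ)).card : ℝ) →
        (⟨PhiQ k V l (C l) N, hmem l N⟩ : PS) ≠ b := by
      intro b
      by_cases hb : (dn k - ε) * (V.card : ℝ) ^ (k + 1) ≤
        ((b : Finset (Fin (k + 1) → ℤ × ℤ)).card : ℝ)
      · have h2 := hcon b hb
        filter_upwards [h2] with N hN _ using hN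
      · exact Eventually.of_forall fun N h => absurd h hb
    have h2 := (eventually_all.2 h1).and (hev l)
    obtain ⟨N, hN1, hN2⟩ := h2.exists
    exact hN1 ⟨PhiQ k V l (C l) N, hmem l N⟩ hN2 rfl
  choose b hb1 hb2 using hpig
  obtain ⟨B, hB⟩ := Finite.exists_infinite_fiber b
  have hBinf : (b ⁻¹' {B}).Infinite := Set.infinite_coe_iff.1 hB
  obtain ⟨j0, hj0⟩ := hBinf.nonempty
  have hj0' : b j0 = B := hj0
  have hval : ∀ l N, b l = B → (⟨PhiQ k V l (C l) N, hmem l N⟩ : PS) = b l →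
      (B : Finset (Fin (k + 1) → ℤ × ℤ)) = PhiQ k V l (C l) N := by
    intro l N h1 h2
    rw [h1] at h2
    exact (congrArg Subtype.val h2).symm
  refine ⟨B, fun f hf => ?_, by rw [← hj0']; exact hb1 j0, fun l => ?_⟩
  · obtain ⟨N, hN⟩ := (hb2 j0).exists
    rw [hval j0 N hj0' hN] at hf
    have h2 := PhiQ_mem hf
    exact ⟨h2.1, h2.2.1⟩
  · obtain ⟨j, hj, hjl⟩ := hBinf.exists_gt l
    have hj' : b j = B := hj
    refine ⟨C j, (hb2 j).mono ?_⟩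
    intro N hN f hf
    rw [hval j N hj' hN] at hf
    exact QN_len hjl.le (PhiQ_mem hf).2.2

/-- **the family of the tuples that are prime along narrow progressions of any length** -/
theorem finQ (k : ℕ) (ε : ℝ) (hε : 0 < ε) : ∃ z n₀ : ℕ,
    ∀ V : Finset (ℤ × ℤ), (∀ f ∈ V, 0 < f.1 ∧ IsCoprime f.1 f.2) → AdmF z V → n₀ ≤ V.card →
      ∃ G : Finset (Fin (k + 1) → ℤ × ℤ),
        (∀ f ∈ G, (∀ i, f i ∈ V) ∧ Function.Injective f) ∧
        (dn k - ε) * (V.card : ℝ) ^ (k + 1) ≤ (G.card : ℝ) ∧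
        ∀ l : ℕ, ∃ C : ℕ, ∃ᶠ N : ℕ in atTop, ∀ f ∈ G, QN l C N (univ.image f) := by
  obtain ⟨z, n₀, h⟩ := formsQ k ε hε
  exact ⟨z, n₀, fun V hV hadm hn => familyQ (h V hV hadm hn)⟩

/-! ### the uniform version -/

open Classical in
theorem lamRD (T : ℕ) : ∃ K : ℕ, 1 ≤ K ∧ (1 ≤ T → ∀ (A : ℕ),
    ∀ᶠ N : ℕ in atTop, ∀ H : Fin T → Fin K → ℤ × ℤ,
    Function.Injective (fun x : Fin T × Fin K => H x.1 x.2) → (∀ g i, Adf A N (H g i)) →
    (∀ p : ℕ, p.Prime → p ≤ T * K → ∃ r : ℤ, ∀ g i, ¬ (p : ℤ) ∣ (H g i).1 * r + (H g i).2) →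
    ∃ (S : Finset (Fin T)) (c : Fin T → Fin K), (T : ℝ) ≤ (18 / 5) * (S.card : ℝ) ∧
      (N : ℝ) / (Real.log N) ^ (T * K + 2) ≤ (cntN (S.image (fun g => H g (c g))) N : ℝ)) := by
  rcases Nat.eq_zero_or_pos T with rfl | hT
  · exact ⟨1, le_rfl, fun h => absurd h (by norm_num)⟩
  obtain ⟨M, hM1, hM2⟩ := ceilM T hT
  obtain ⟨K, hK, δ, hδ, h⟩ := lamR0 T M hT hM1
  refine ⟨K, hK, fun _ A => ?_⟩
  obtain ⟨s₀, c, hc, h⟩ := h A
  have hlog : ∀ᶠ N : ℕ in atTop, 1 / c ≤ Real.log N :=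
    (Real.tendsto_log_atTop.comp tendsto_natCast_atTop_atTop).eventually_ge_atTop _
  filter_upwards [h, hlog, eventually_ge_atTop 3] with N hN hNl hN3 H hinj hAd hloc
  obtain ⟨s, S, σ, -, -, -, hS, hcard⟩ := hN H hinj hAd hloc
  refine ⟨S, σ, hM2.trans (mul_le_mul_of_nonneg_left (by exact_mod_cast hS) (by norm_num)), ?_⟩
  have hL1 := log_ge_one hN3
  have h1 : ((Rs H δ s S σ N).card : ℝ) ≤ (cntN (S.image (fun g => H g (σ g))) N : ℝ) := by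
    rw [Nat.cast_le]
    unfold cntN
    apply card_le_card
    intro n hn
    unfold Rs at hn
    obtain ⟨h2, h3⟩ := mem_filter.1 hn
    refine mem_filter.2 ⟨h2, fun f hf => ?_⟩
    obtain ⟨g, hg, rfl⟩ := mem_image.1 hf
    exact h3.2.2.2 g hg
  refine le_trans ?_ (hcard.trans h1)
  have h2 : 1 ≤ c * Real.log N := by
    rw [div_le_iff₀ hc] at hNl
    linarith
  have hNr : (0 : ℝ) ≤ N := Nat.cast_nonneg _
  rw [pow_succ, ← div_div, div_le_iff₀ (by linarith)]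
  have h3 : 0 ≤ (N : ℝ) / Real.log N ^ (T * K + 1) := by positivity
  nlinarith

open Classical in
noncomputable def PhiN (k : ℕ) (V : Finset (ℤ × ℤ)) (C N : ℕ) : Finset (Fin (k + 1) → ℤ × ℤ) :=
  (Fintype.piFinset (fun _ : Fin (k + 1) => V)).filter (fun f => Function.Injective f ∧
    (N : ℝ) / (Real.log N) ^ C ≤ (cntN (univ.image f) N : ℝ))

open Classical in
theorem PhiN_mem {k : ℕ} {V : Finset (ℤ × ℤ)} {C N : ℕ} {f : Fin (k + 1) → ℤ × ℤ}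
    (h : f ∈ PhiN k V C N) : (∀ i, f i ∈ V) ∧ Function.Injective f ∧
      (N : ℝ) / (Real.log N) ^ C ≤ (cntN (univ.image f) N : ℝ) := by
  unfold PhiN at h
  rw [mem_filter, Fintype.mem_piFinset] at h
  exact ⟨h.1, h.2.1, h.2.2⟩

open Classical in
/-- **the proportion, uniformly in the family, up to a power of the logarithm** -/
theorem formsUR (k : ℕ) (ε : ℝ) (hε : 0 < ε) : ∃ z n₀ C : ℕ, ∀ A : ℕ,
    ∀ᶠ N : ℕ in atTop, ∀ V : Finset (ℤ × ℤ), (∀ f ∈ V, Adf A N f) → AdmF z V → n₀ ≤ V.card →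
    (dn k - ε) * (V.card : ℝ) ^ (k + 1) ≤ ((PhiN k V C N).card : ℝ) := by
  choose Kf hKf1 hKf using lamRD
  obtain ⟨T, M, hT, hM⟩ := main_gen (lam := 18 / 5) (by norm_num) k (dn k)
    (dn_le k) (hcountL k) ε hε Kf
  obtain ⟨n₀, hn₀⟩ := hM Unit
  set C : ℕ := ∑ T' ∈ range (M + 1), (T' * Kf T' + 2) with hCdef
  refine ⟨∑ T' ∈ range (M + 1), T' * Kf T', n₀, C, ?_⟩
  intro A
  have hev : ∀ᶠ N : ℕ in atTop, ∀ T' : Fin (M + 1), 1 ≤ (T' : ℕ) →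
      ∀ H : Fin (T' : ℕ) → Fin (Kf T') → ℤ × ℤ,
      Function.Injective (fun z : Fin (T' : ℕ) × Fin (Kf T') => H z.1 z.2) →
      (∀ g i, Adf A N (H g i)) →
      (∀ p : ℕ, p.Prime → p ≤ T' * Kf T' → ∃ r : ℤ, ∀ g i,
        ¬ (p : ℤ) ∣ (H g i).1 * r + (H g i).2) →
      ∃ (S : Finset (Fin (T' : ℕ))) (cc : Fin (T' : ℕ) → Fin (Kf T')),
        ((T' : ℕ) : ℝ) ≤ (18 / 5) * (S.card : ℝ) ∧
        (N : ℝ) / (Real.log N) ^ (T' * Kf T' + 2) ≤
          (cntN (S.image (fun g => H g (cc g))) N : ℝ) := by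
    rw [eventually_all]
    intro T'
    by_cases h0 : 1 ≤ (T' : ℕ)
    swap
    · exact Eventually.of_forall fun x h => absurd h h0
    filter_upwards [hKf T' h0 A] with N hN _ H hinj hAd hadm
    exact hN H hinj hAd hadm
  filter_upwards [hev, eventually_ge_atTop 3] with N hN hN3
  intro V hVA hVadm hVn
  have hL1 := log_ge_one hN3
  have key := hn₀ (ℤ × ℤ) V (fun _ => ())
    (fun F => (N : ℝ) / (Real.log N) ^ C ≤ (cntN F N : ℝ)) hVn
    (fun F F' hF h => h.trans (by exact_mod_cast cntN_anti hF N)) (by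
      intro T' hT'1 hT'M H hHV hHinj _
      have hadm : ∀ p : ℕ, p.Prime → p ≤ T' * Kf T' → ∃ r : ℤ, ∀ g i,
          ¬ (p : ℤ) ∣ (H g i).1 * r + (H g i).2 := by
        intro p hp hpT
        obtain ⟨r, hr⟩ := hVadm p (hpT.trans
          (Finset.single_le_sum (f := fun T' => T' * Kf T') (fun _ _ => Nat.zero_le _)
                (mem_range.2 (by omega)))) hp
        exact ⟨r, fun g i => hr _ (hHV g i)⟩
      obtain ⟨S, cc, hS, hcc⟩ := hN ⟨T', by omega⟩ hT'1 H hHinj (fun g i => hVA _ (hHV g i)) hadm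
      refine ⟨S, cc, hS, le_trans ?_ hcc⟩
      refine div_le_div_of_nonneg_left (Nat.cast_nonneg _) (by positivity)
        (pow_le_pow_right₀ hL1 ?_)
      exact single_le_sum (f := fun T' => T' * Kf T' + 2) (fun _ _ => Nat.zero_le _)
        (mem_range.2 (by omega)))
  refine key.trans (le_of_eq ?_)
  unfold PhiN
  congr 2

end Pool.Agent.Y827.RO
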