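import Mathlib
import Pool.Agent.Y827.RO.NarF

/-! Project RO: prime tuples along narrow progressions in residue classes. -/

set_option autoImplicit false

namespace Pool.Agent.Y827.RO

open Finset Filter Topology
open Pool.Agent.Y827.LS
open Pool.Agent.Y827.GS

theorem log_ev (x : ℝ) : ∀ᶠ N : ℕ in atTop, x ≤ Real.log N :=
  (Real.tendsto_log_atTop.comp tendsto_natCast_atTop_atTop).eventually_ge_atTop _

open Classical in
/-- transfer of tuples of forms `(b, v)`, `v ∈ V`, to tuples of elements of `V` -/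
theorem transfer {k : ℕ} (V : Finset ℕ) (φ : ℕ → ℤ × ℤ)
    (G : Finset (Fin (k + 1) → ℤ × ℤ)) (hG : ∀ f ∈ G, (∀ i, f i ∈ V.image φ) ∧ Function.Injective f) :
    ∃ G' : Finset (Fin (k + 1) → ℕ), (∀ a ∈ G', (∀ i, a i ∈ V) ∧ Function.Injective a ∧
      (fun i => φ (a i)) ∈ G) ∧ G.card ≤ G'.card := by
  refine ⟨(Fintype.piFinset (fun _ : Fin (k + 1) => V)).filter (fun a => (fun i => φ (a i)) ∈ G),
    ?_, ?_⟩
  · intro a ha
    rw [mem_filter, Fintype.mem_piFinset] at ha
    refine ⟨ha.1, ?_, ha.2⟩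
    intro i j hij
    apply (hG _ ha.2).2
    show φ (a i) = φ (a j)
    rw [hij]
  · have hsub : G ⊆ ((Fintype.piFinset (fun _ : Fin (k + 1) => V)).filter
        (fun a => (fun i => φ (a i)) ∈ G)).image (fun a => fun i => φ (a i)) := by
      intro f hf
      have h1 := (hG f hf).1
      choose a ha using fun i => mem_image.1 (h1 i)
      have h2 : (fun i => φ (a i)) = f := funext fun i => (ha i).2
      refine mem_image.2 ⟨a, mem_filter.2 ⟨Fintype.mem_piFinset.2 fun i => (ha i).1, ?_⟩, h2⟩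
      rw [h2]
      exact hf
    exact (card_le_card hsub).trans card_image_le

theorem card_shift (V : Finset ℕ) (φ : ℕ → ℤ × ℤ) (hφ : Function.Injective φ) :
    (V.image φ).card = V.card := card_image_of_injective _ hφ

/-- **tuples of shifts, narrow progressions, residue classes** -/
theorem finS (k : ℕ) (ε : ℝ) (hε : 0 < ε) : ∃ z n₀ : ℕ,
    ∀ (q b : ℕ) (V : Finset ℕ), 0 < q → (∀ v ∈ V, Nat.Coprime (b + v) q) →
      (∀ p : ℕ, p ≤ z → p.Prime → ¬ p ∣ q → ∃ r : ℕ, ∀ v ∈ V, ¬ v ≡ r [MOD p]) → n₀ ≤ V.card →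
      ∃ G : Finset (Fin (k + 1) → ℕ),
        (∀ a ∈ G, (∀ i, a i ∈ V) ∧ Function.Injective a) ∧
        (dn k - ε) * (V.card : ℝ) ^ (k + 1) ≤ (G.card : ℝ) ∧
        ∀ l : ℕ, ∃ C : ℕ, ∃ᶠ N : ℕ in atTop, ∀ a ∈ G, ∃ d : ℕ, 1 ≤ d ∧
          (d : ℝ) ≤ (Real.log N) ^ C ∧ (N : ℝ) / (Real.log N) ^ C ≤
            (((Icc 1 N).filter (fun n : ℕ =>
              ∀ j < l, n + j * d ≡ b [MOD q] ∧ ∀ i, (n + j * d + a i).Prime)).card : ℝ) := by
  classical
  obtain ⟨z, n₀, h⟩ := finQ k ε hε
  refine ⟨z, n₀, fun q b V hq hcop hadm hn => ?_⟩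
  set φ : ℕ → ℤ × ℤ := fun v => ((q : ℤ), ((b + v : ℕ) : ℤ)) with hφd
  have hφ : Function.Injective φ := by
    intro v v' hv
    have := (Prod.ext_iff.1 hv).2
    simp only [hφd] at this
    have h1 : b + v = b + v' := by exact_mod_cast this
    omega
  obtain ⟨G, hG1, hG2, hG3⟩ := h (V.image φ) (by
      intro f hf
      obtain ⟨v, hv, rfl⟩ := mem_image.1 hf
      refine ⟨?_, ?_⟩
      · show (0 : ℤ) < (q : ℤ)
        exact_mod_cast hq
      · exact (Nat.isCoprime_iff_coprime.2 (hcop v hv)).symm)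
    (by
      intro p hpz hp
      by_cases hpq : p ∣ q
      · refine ⟨0, fun f hf hd => ?_⟩
        obtain ⟨v, hv, rfl⟩ := mem_image.1 hf
        simp only [hφd, mul_zero, zero_add] at hd
        have h1 : p ∣ b + v := by exact_mod_cast hd
        exact hp.one_lt.ne' (Nat.eq_one_of_dvd_coprimes (hcop v hv) h1 hpq)
      · obtain ⟨r, hr⟩ := hadm p hpz hp hpq
        have hcpq : IsCoprime (q : ℤ) (p : ℤ) :=
          Nat.isCoprime_iff_coprime.2 ((Nat.Prime.coprime_iff_not_dvd hp).2 hpq).symm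
        obtain ⟨u, w, huw⟩ := hcpq
        -- q u + p w = 1 ; choose m = - u (b + r)
        refine ⟨-(u * ((b : ℤ) + r)), fun f hf hd => ?_⟩
        obtain ⟨v, hv, rfl⟩ := mem_image.1 hf
        simp only [hφd] at hd
        push_cast at hd
        apply hr v hv
        have h1 : (q : ℤ) * -(u * ((b : ℤ) + r)) + ((b : ℤ) + v) =
            (v - r) + p * (w * (b + r)) := by
          linear_combination (-((b : ℤ) + r)) * huw
        rw [h1] at hd
        have h2 : (p : ℤ) ∣ (v : ℤ) - r := (dvd_add_left (dvd_mul_right _ _)).1 hd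
        exact (Int.natCast_modEq_iff.1 (Int.modEq_iff_dvd.2 h2)).symm)
    (by rw [card_shift V φ hφ]; exact hn)
  obtain ⟨G', hG'1, hG'2⟩ := transfer V φ G hG1
  refine ⟨G', fun a ha => ⟨(hG'1 a ha).1, (hG'1 a ha).2.1⟩, ?_, ?_⟩
  · rw [card_shift V φ hφ] at hG2
    exact hG2.trans (by exact_mod_cast hG'2)
  · intro l
    obtain ⟨C, hC⟩ := hG3 l
    refine ⟨C + 1, ?_⟩
    have ht : Tendsto (fun m : ℕ => q * m + b) atTop atTop := by
      apply tendsto_atTop_mono (f := fun m : ℕ => m) _ tendsto_id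
      intro m
      have : 1 * m ≤ q * m := Nat.mul_le_mul_right _ hq
      show m ≤ q * m + b
      omega
    refine ht.frequently ?_
    refine (hC.and_eventually (((log_ev (2 * q)).and (eventually_ge_atTop 3)).and
      (eventually_ge_atTop (b + 1)))).mono ?_
    rintro N ⟨hN, ⟨hNl, hN3⟩, hNb⟩ a ha
    obtain ⟨d, hd1, hd2, hd3⟩ := hN _ (hG'1 a ha).2.2
    have hL1 := log_ge_one hN3
    have hNr : (0 : ℝ) < N := by exact_mod_cast (by omega : 0 < N)
    have hqr : (1 : ℝ) ≤ q := by exact_mod_cast hq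
    have hle : N ≤ q * N + b := by
      have : 1 * N ≤ q * N := Nat.mul_le_mul_right _ hq
      omega
    have hll : Real.log N ≤ Real.log ((q * N + b : ℕ) : ℝ) :=
      Real.log_le_log hNr (by exact_mod_cast hle)
    have hL1' : 1 ≤ Real.log ((q * N + b : ℕ) : ℝ) := hL1.trans hll
    refine ⟨q * d, Nat.mul_pos hq hd1, ?_, ?_⟩
    · push_cast at hll hL1' ⊢
      have h1 : (q : ℝ) ≤ Real.log ((q : ℝ) * N + b) := by linarith
      have h2 : (d : ℝ) ≤ Real.log ((q : ℝ) * N + b) ^ C :=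
        hd2.trans (pow_le_pow_left₀ (by linarith) hll C)
      rw [pow_succ, mul_comm]
      exact mul_le_mul h2 h1 (by linarith) (by positivity)
    · have hcnt : (cntA (univ.image (fun i => φ (a i))) l d N : ℝ) ≤
          (((Icc 1 (q * N + b)).filter (fun n : ℕ => ∀ j < l, n + j * (q * d) ≡ b [MOD q] ∧
            ∀ i, (n + j * (q * d) + a i).Prime)).card : ℝ) := by
        rw [Nat.cast_le]
        unfold cntA
        rw [← card_image_of_injective (f := fun m : ℕ => q * m + b) _ (by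
          intro m m' hm
          have h1 : q * m + b = q * m' + b := hm
          exact Nat.eq_of_mul_eq_mul_left hq (by omega))]
        apply card_le_card
        intro n hn
        obtain ⟨m, hm, rfl⟩ := mem_image.1 hn
        obtain ⟨hm1, hm2⟩ := mem_filter.1 hm
        rw [mem_Icc] at hm1
        refine mem_filter.2 ⟨mem_Icc.2 ⟨?_, ?_⟩, fun j hj => ⟨?_, fun i => ?_⟩⟩
        · have : 1 * 1 ≤ q * m := Nat.mul_le_mul hq hm1.1
          omega
        · have : q * m ≤ q * N := Nat.mul_le_mul_left _ hm1.2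
          omega
        · have e1 : q * m + b + j * (q * d) = b + q * (m + j * d) := by ring
          rw [e1]
          exact (Nat.modEq_iff_dvd' (by omega)).2 (by simp) |>.symm
        · have h1 := hm2 j hj (φ (a i)) (mem_image.2 ⟨i, mem_univ _, rfl⟩)
          have h2 : (φ (a i)).1 * ((m + j * d : ℕ) : ℤ) + (φ (a i)).2 =
              ((q * m + b + j * (q * d) + a i : ℕ) : ℤ) := by
            simp only [hφd]
            push_cast
            ring
          rw [h2, Int.toNat_natCast] at h1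
          exact h1
      refine le_trans ?_ (hd3.trans hcnt)
      push_cast at hll hL1' ⊢
      have h1 : (2 * q : ℝ) ≤ Real.log ((q : ℝ) * N + b) := hNl.trans hll
      have h2 : ((q : ℝ) * N + b) ≤ 2 * q * N := by
        have : (b : ℝ) ≤ N := by exact_mod_cast (by omega : b ≤ N)
        nlinarith
      have h3 : 0 < Real.log ((q : ℝ) * N + b) := by linarith
      have h4 : Real.log N ^ C ≤ Real.log ((q : ℝ) * N + b) ^ C :=
        pow_le_pow_left₀ (by linarith) hll C
      rw [div_le_div_iff₀ (by positivity) (by positivity)]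
      calc ((q : ℝ) * N + b) * Real.log N ^ C ≤
            (2 * q * N) * Real.log ((q : ℝ) * N + b) ^ C :=
            mul_le_mul h2 h4 (by positivity) (by positivity)
        _ = N * (Real.log ((q : ℝ) * N + b) ^ C * (2 * q)) := by ring
        _ ≤ N * (Real.log ((q : ℝ) * N + b) ^ C * Real.log ((q : ℝ) * N + b)) := by
            apply mul_le_mul_of_nonneg_left _ hNr.le
            exact mul_le_mul_of_nonneg_left h1 (by positivity)
        _ = N * Real.log ((q : ℝ) * N + b) ^ (C + 1) := by rw [pow_succ]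

open Classical in
/-- **tuples of shifts, uniformly, up to a power of the logarithm** -/
theorem finU (k : ℕ) (ε : ℝ) (hε : 0 < ε) : ∃ z n₀ C : ℕ,
    ∀ᶠ N : ℕ in atTop, ∀ V : Finset ℕ, (∀ v ∈ V, 2 * v ≤ N) →
      (∀ p : ℕ, p ≤ z → p.Prime → ∃ r : ℕ, ∀ v ∈ V, ¬ v ≡ r [MOD p]) → n₀ ≤ V.card →
      ∃ G : Finset (Fin (k + 1) → ℕ),
        (∀ a ∈ G, (∀ i, a i ∈ V) ∧ Function.Injective a) ∧
        (dn k - ε) * (V.card : ℝ) ^ (k + 1) ≤ (G.card : ℝ) ∧
        ∀ a ∈ G, (N : ℝ) / (Real.log N) ^ C ≤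
            (((Icc 1 N).filter (fun n : ℕ => ∀ i, (n + a i).Prime)).card : ℝ) := by
  obtain ⟨z, n₀, C, h⟩ := formsUR k ε hε
  refine ⟨z, n₀, C, ?_⟩
  filter_upwards [h 1] with N hN V hV hadm hn
  set φ : ℕ → ℤ × ℤ := fun v => ((1 : ℤ), ((v : ℕ) : ℤ)) with hφd
  have hφ : Function.Injective φ := by
    intro v v' hv
    have := (Prod.ext_iff.1 hv).2
    simp only [hφd] at this
    exact_mod_cast this
  have hmain := hN (V.image φ) (by
      intro f hf
      obtain ⟨v, hv, rfl⟩ := mem_image.1 hf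
      have h1 := hV v hv
      have h2 : (v : ℤ) ≤ N := by exact_mod_cast (by omega : v ≤ N)
      refine ⟨one_ne_zero, by simp [hφd], ?_, isCoprime_one_left, ?_⟩
      · simp only [hφd]
        rw [abs_of_nonneg (by positivity)]
        exact h2
      · intro t ht1 ht2
        simp only [hφd]
        have h3 : (0 : ℝ) ≤ v := Nat.cast_nonneg _
        have h4 : (0 : ℝ) ≤ N := Nat.cast_nonneg _
        push_cast
        linarith)
    (by
      intro p hpz hp
      obtain ⟨r, hr⟩ := hadm p hpz hp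
      refine ⟨-(r : ℤ), fun f hf hd => ?_⟩
      obtain ⟨v, hv, rfl⟩ := mem_image.1 hf
      simp only [hφd] at hd
      apply hr v hv
      have h1 : (1 : ℤ) * -(r : ℤ) + (v : ℤ) = v - r := by ring
      rw [h1] at hd
      exact (Int.natCast_modEq_iff.1 (Int.modEq_iff_dvd.2 hd)).symm)
    (by rw [card_shift V φ hφ]; exact hn)
  obtain ⟨G', hG'1, hG'2⟩ := transfer V φ (PhiN k (V.image φ) C N)
    (fun f hf => ⟨(PhiN_mem hf).1, (PhiN_mem hf).2.1⟩)
  refine ⟨G', fun a ha => ⟨(hG'1 a ha).1, (hG'1 a ha).2.1⟩, ?_, fun a ha => ?_⟩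
  · rw [card_shift V φ hφ] at hmain
    exact hmain.trans (by exact_mod_cast hG'2)
  · have h1 := (PhiN_mem (hG'1 a ha).2.2).2.2
    refine h1.trans (le_of_eq ?_)
    unfold cntN
    congr 2
    ext n
    simp only [mem_filter, mem_Icc, mem_image, mem_univ, true_and, forall_exists_index,
      forall_apply_eq_imp_iff, hφd, one_mul, and_congr_right_iff]
    intro _
    refine forall_congr' fun i => ?_
    rw [← Nat.cast_add, Int.toNat_natCast]

end Pool.Agent.Y827.RO
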