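import Mathlib
import Pool.Agent.Y827.RO.NarG
import Pool.Agent.Y827.RO.NarS
import Pool.Agent.Y827.GS.Nin

/-! Project RO: five ninths of the multiples of every sufficiently divisible number are the lengths of blocks
of primes which are translated along narrow progressions. -/

set_option autoImplicit false
open Filter Topology Finset

namespace Pool.Agent.Y827.RO

open Pool.Agent.H947R3.GM Pool.Agent.W142.TF Pool.Agent.W142.TB

open Classical in
/-- many narrow progressions of any length -/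
def Nar (X : ℕ → Prop) : Prop := ∀ l : ℕ, ∃ C : ℕ, ∃ᶠ N : ℕ in atTop, ∃ d : ℕ, 1 ≤ d ∧
  (d : ℝ) ≤ (Real.log N) ^ C ∧ (N : ℝ) / (Real.log N) ^ C ≤
    (((Icc 1 N).filter (fun n : ℕ => ∀ j < l, X (n + j * d))).card : ℝ)

theorem Nar.mono {X Y : ℕ → Prop} (h : Nar X) (hXY : ∀ n, X n → Y n) : Nar Y := by
  classical
  intro l
  obtain ⟨C, hC⟩ := h l
  refine ⟨C, hC.mono ?_⟩
  rintro N ⟨d, h1, h2, h3⟩
  refine ⟨d, h1, h2, h3.trans ?_⟩
  rw [Nat.cast_le]
  apply card_le_card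
  intro n hn
  rw [mem_filter] at hn ⊢
  exact ⟨hn.1, fun j hj => hXY _ (hn.2 j hj)⟩

theorem Nar.ge_two {X : ℕ → Prop} (h : Nar X) : Nar (fun m => X m ∧ 2 ≤ m) := by
  classical
  intro l
  obtain ⟨C, hC⟩ := h l
  refine ⟨C + 1, ?_⟩
  have hev : ∀ᶠ N : ℕ in atTop, (N : ℝ) / (Real.log N) ^ (C + 1) + 1 ≤ (N : ℝ) / (Real.log N) ^ C := by
    have h1 : ∀ᶠ x : ℝ in atTop, (Real.log x) ^ (C + 1) ≤ x := by
      have := (isLittleO_log_rpow_rpow_atTop (s := 1) ((C + 1 : ℕ) : ℝ) one_pos).bound one_pos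
      filter_upwards [this, eventually_ge_atTop 3] with x hx hx3
      have hl : 0 ≤ Real.log x := Real.log_nonneg (by linarith)
      rw [Real.rpow_natCast, Real.rpow_one, Real.norm_eq_abs, Real.norm_eq_abs, one_mul,
        abs_of_nonneg (by positivity), abs_of_nonneg (by linarith)] at hx
      exact hx
    filter_upwards [(tendsto_natCast_atTop_atTop (R := ℝ)).eventually h1, log_ev 2,
      eventually_ge_atTop 3] with N hN hl hN3
    have hl0 : 0 < Real.log N := by linarith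
    have hp : 0 < (Real.log N) ^ (C + 1) := by positivity
    have h2 : (1 : ℝ) ≤ (N : ℝ) / (Real.log N) ^ (C + 1) := by
      rw [le_div_iff₀ hp]; linarith
    have h3 : (N : ℝ) / (Real.log N) ^ C = (N : ℝ) / (Real.log N) ^ (C + 1) * Real.log N := by
      rw [pow_succ]
      field_simp
    rw [h3]
    nlinarith
  refine (hC.and_eventually (hev.and ((log_ev 1).and (eventually_ge_atTop 1)))).mono ?_
  rintro N ⟨⟨d, h1, h2, h3⟩, h4, h5, h6⟩
  refine ⟨d, h1, h2.trans (pow_le_pow_right₀ h5 (by omega)), ?_⟩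
  have h7 : ((Icc 1 N).filter (fun n : ℕ => ∀ j < l, X (n + j * d))).card ≤
      ((Icc 1 N).filter (fun n : ℕ => ∀ j < l, X (n + j * d) ∧ 2 ≤ n + j * d)).card + 1 := by
    have h8 : (Icc 1 N).filter (fun n : ℕ => ∀ j < l, X (n + j * d)) ⊆
        insert 1 ((Icc 1 N).filter (fun n : ℕ => ∀ j < l, X (n + j * d) ∧ 2 ≤ n + j * d)) := by
      intro n hn
      obtain ⟨h9, h10⟩ := mem_filter.1 hn
      rw [mem_Icc] at h9
      by_cases h11 : n = 1
      · rw [h11]; exact mem_insert_self _ _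
      · refine mem_insert_of_mem (mem_filter.2 ⟨mem_Icc.2 h9, fun j hj => ⟨h10 j hj, ?_⟩⟩)
        have : 0 ≤ j * d := Nat.zero_le _
        omega
    exact (card_le_card h8).trans (card_insert_le _ _)
  have h8 : (((Icc 1 N).filter (fun n : ℕ => ∀ j < l, X (n + j * d))).card : ℝ) ≤
      (((Icc 1 N).filter (fun n : ℕ => ∀ j < l, X (n + j * d) ∧ 2 ≤ n + j * d)).card : ℝ) + 1 := by
    exact_mod_cast h7
  have h9 : (N : ℝ) / Real.log N ^ (C + 1) ≤
      (((Icc 1 N).filter (fun n : ℕ => ∀ j < l, X (n + j * d) ∧ 2 ≤ n + j * d)).card : ℝ) := by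
    linarith
  convert h9

theorem Nar.affine {X : ℕ → Prop} {q b : ℕ} (hq : 0 < q) (h : Nar (fun m => X (q * m + b))) :
    Nar X := by
  classical
  intro l
  obtain ⟨C, hC⟩ := h l
  refine ⟨C + 1, ?_⟩
  have ht : Tendsto (fun m : ℕ => q * m + b) atTop atTop := by
    apply tendsto_atTop_mono (f := fun m : ℕ => m) _ tendsto_id
    intro m
    have : 1 * m ≤ q * m := Nat.mul_le_mul_right _ hq
    show m ≤ q * m + b
    omega
  refine ht.frequently ?_
  refine (hC.and_eventually (((log_ev (2 * q)).and (eventually_ge_atTop 3)).and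
    (eventually_ge_atTop (b + 1)))).mono ?_
  rintro N ⟨⟨d, hd1, hd2, hd3⟩, ⟨hNl, hN3⟩, hNb⟩
  have hL1 := log_ge_one hN3
  have hNr : (0 : ℝ) < N := by exact_mod_cast (by omega : 0 < N)
  have hqr : (1 : ℝ) ≤ q := by exact_mod_cast hq
  have hle : N ≤ q * N + b := by
    have : 1 * N ≤ q * N := Nat.mul_le_mul_right _ hq
    omega
  have hll : Real.log N ≤ Real.log ((q * N + b : ℕ) : ℝ) :=
    Real.log_le_log hNr (by exact_mod_cast hle)
  have hL1' : 1 ≤ Real.log ((q * N + b : ℕ) : ℝ) := hL1.trans hll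
  refine ⟨q * d, Nat.mul_pos hq hd1, ?_, ?_⟩
  · push_cast at hll hL1' ⊢
    have h1 : (q : ℝ) ≤ Real.log ((q : ℝ) * N + b) := by linarith
    have h2 : (d : ℝ) ≤ Real.log ((q : ℝ) * N + b) ^ C :=
      hd2.trans (pow_le_pow_left₀ (by linarith) hll C)
    rw [pow_succ, mul_comm]
    exact mul_le_mul h2 h1 (by linarith) (by positivity)
  · have hcnt : (((Icc 1 N).filter (fun n : ℕ => ∀ j < l, X (q * (n + j * d) + b))).card : ℝ) ≤
        (((Icc 1 (q * N + b)).filter (fun n : ℕ => ∀ j < l, X (n + j * (q * d)))).card : ℝ) := by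
      rw [Nat.cast_le]
      rw [← card_image_of_injective (f := fun m : ℕ => q * m + b) _ (by
        intro m m' hm
        have h1 : q * m + b = q * m' + b := hm
        exact Nat.eq_of_mul_eq_mul_left hq (by omega))]
      apply card_le_card
      intro n hn
      obtain ⟨m, hm, rfl⟩ := mem_image.1 hn
      obtain ⟨hm1, hm2⟩ := mem_filter.1 hm
      rw [mem_Icc] at hm1
      refine mem_filter.2 ⟨mem_Icc.2 ⟨?_, ?_⟩, fun j hj => ?_⟩
      · have : 1 * 1 ≤ q * m := Nat.mul_le_mul hq hm1.1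
        omega
      · have : q * m ≤ q * N := Nat.mul_le_mul_left _ hm1.2
        omega
      · have e1 : q * m + b + j * (q * d) = q * (m + j * d) + b := by ring
        rw [e1]
        exact hm2 j hj
    refine le_trans ?_ (hd3.trans hcnt)
    push_cast at hll hL1' ⊢
    have h1 : (2 * q : ℝ) ≤ Real.log ((q : ℝ) * N + b) := hNl.trans hll
    have h2 : ((q : ℝ) * N + b) ≤ 2 * q * N := by
      have : (b : ℝ) ≤ N := by exact_mod_cast (by omega : b ≤ N)
      nlinarith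
    have h3 : 0 < Real.log ((q : ℝ) * N + b) := by linarith
    have h4 : Real.log N ^ C ≤ Real.log ((q : ℝ) * N + b) ^ C :=
      pow_le_pow_left₀ (by linarith) hll C
    rw [div_le_div_iff₀ (by positivity) (by positivity)]
    calc ((q : ℝ) * N + b) * Real.log N ^ C ≤
          (2 * q * N) * Real.log ((q : ℝ) * N + b) ^ C :=
          mul_le_mul h2 h4 (by positivity) (by positivity)
      _ = N * (Real.log ((q : ℝ) * N + b) ^ C * (2 * q)) := by ring
      _ ≤ N * (Real.log ((q : ℝ) * N + b) ^ C * Real.log ((q : ℝ) * N + b)) := by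
          apply mul_le_mul_of_nonneg_left _ hNr.le
          exact mul_le_mul_of_nonneg_left h1 (by positivity)
      _ = N * Real.log ((q : ℝ) * N + b) ^ (C + 1) := by rw [pow_succ]

theorem coprime_of_adm {a b : ℤ} (h : ∀ p : ℕ, p.Prime → ∃ n : ℤ, ¬ (p : ℤ) ∣ a * n + b) :
    IsCoprime a b := by
  rw [Int.isCoprime_iff_gcd_eq_one]
  by_contra hne
  obtain ⟨p, hp, hd⟩ := Nat.exists_prime_and_dvd hne
  obtain ⟨n, hn⟩ := h p hp
  apply hn
  have h1 : (p : ℤ) ∣ a := (Int.natCast_dvd_natCast.2 hd).trans (Int.gcd_dvd_left a b)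
  have h2 : (p : ℤ) ∣ b := (Int.natCast_dvd_natCast.2 hd).trans (Int.gcd_dvd_right a b)
  exact dvd_add (h1.mul_right _) h2

/-- the coloured theorem for classes of shifts, all other shifts being blocked, exact sets -/
theorem blockE (n M' : ℕ) (hn : 1 ≤ n) (hM' : (18 / 5 : ℝ) * M' < n) :
    ∃ K : ℕ, 1 ≤ K ∧ ∀ N a : ℕ, 0 < N → a.Coprime N →
    ∀ H : Fin n → Fin K → ℕ, AdmN N H →
    ∃ (Q r M : ℕ) (E : Finset (Fin n × Fin K)), 0 < Q ∧ N ∣ Q ∧ r ≡ a [MOD N] ∧
      (∀ g i, N * H g i ≤ M) ∧ M' + 1 ≤ (E.image Prod.fst).card ∧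
      Nar (fun m => (∀ g i, (Q * m + r + N * H g i).Prime ↔ (g, i) ∈ E) ∧
        ∀ t ≤ M, (∀ g i, N * H g i ≠ t) → ¬ (Q * m + r + t).Prime) := by
  classical
  obtain ⟨K, hK, hQ⟩ := bigE n M' hn hM'
  refine ⟨K, hK, fun N a hN ha H hH => ?_⟩
  set H' : Fin n → Fin K → ℕ := fun g i => N * H g i with hH'
  have hinjH' : Function.Injective (fun x : Fin n × Fin K => H' x.1 x.2) := by
    intro x y hxy
    exact hH.1 (Nat.eq_of_mul_eq_mul_left hN hxy)
  -- a bound for the shifts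
  obtain ⟨M, hM⟩ : ∃ M, ∀ g i, H' g i ≤ M :=
    ⟨univ.sup fun x : Fin n × Fin K => H' x.1 x.2, fun g i =>
      le_sup (f := fun x : Fin n × Fin K => H' x.1 x.2) (mem_univ (g, i))⟩
  set q : ℕ → ℕ := fun t => Nat.nth Nat.Prime (M + N + t) with hq
  have hqp : ∀ t, (q t).Prime := fun t => Nat.prime_nth_prime _
  have hqM : ∀ t, M + N + t < q t := fun t => by
    have := Nat.add_two_le_nth_prime (M + N + t)
    simp only [hq]; omega
  have hqinj : Function.Injective q := by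
    intro s t hst
    have := Nat.nth_injective Nat.infinite_setOfPred_prime hst
    omega
  set U : Finset ℕ := (range (M + 1)).filter fun t => ∀ g i, H' g i ≠ t with hU
  have hpair : Set.Pairwise (U : Set ℕ) (Function.onFun Nat.Coprime q) := by
    intro s _ t _ hst
    exact (Nat.coprime_primes (hqp s) (hqp t)).2 fun h => hst (hqinj h)
  obtain ⟨r₀, hr₀⟩ := Nat.chineseRemainderOfFinset (fun t => q t - t) q U
    (fun t _ => (hqp t).ne_zero) hpair
  set Q₀ : ℕ := ∏ t ∈ U, q t with hQ₀def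
  have hQ₀ : 0 < Q₀ := prod_pos fun t _ => (hqp t).pos
  have hcopN : Nat.Coprime Q₀ N := by
    refine Nat.Coprime.prod_left fun t _ => ?_
    rw [Nat.Prime.coprime_iff_not_dvd (hqp t)]
    intro hd
    have h1 := Nat.le_of_dvd hN hd
    have h2 := hqM t
    omega
  obtain ⟨r, hrQ, hrN⟩ := Nat.chineseRemainder hcopN r₀ a
  have hr' : ∀ t ∈ U, q t ∣ r + t := by
    intro t ht
    have h0 : r ≡ r₀ [MOD q t] := hrQ.of_dvd (dvd_prod_of_mem q ht)
    have h1 := (h0.trans (hr₀ t ht)).add_right t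
    have h2 : q t - t + t = q t := by have := hqM t; omega
    rw [h2] at h1
    exact (Nat.modEq_zero_iff_dvd.1 (h1.trans (by simp [Nat.ModEq])))
  set Q : ℕ := Q₀ * N with hQdef
  have hQ0 : 0 < Q := Nat.mul_pos hQ₀ hN
  have hadm : ∀ p : ℕ, p.Prime → ∃ n : ℤ, ∀ g i, ¬ ((p : ℤ) ∣ (Q : ℤ) * n + ((r + H' g i : ℕ) : ℤ)) := by
      intro p hp
      by_cases hpN : p ∣ N
      · refine ⟨0, fun g i hd => ?_⟩
        rw [mul_zero, zero_add] at hd
        have hd' : p ∣ r + N * H g i := by exact_mod_cast hd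
        have h1 : p ∣ r := (Nat.dvd_add_left (hpN.mul_right _)).1 hd'
        have h2 : p ∣ a := by
          have h3 : r ≡ a [MOD p] := hrN.of_dvd hpN
          exact (h3.dvd_iff dvd_rfl).1 h1
        have h4 : p ∣ Nat.gcd a N := Nat.dvd_gcd h2 hpN
        rw [ha] at h4
        exact hp.one_lt.ne' (Nat.dvd_one.1 h4)
      by_cases hpQ : p ∣ Q₀
      · refine ⟨0, fun g i hd => ?_⟩
        obtain ⟨t, htU, hpt⟩ := (hp.prime.dvd_finsetProd_iff _).1 hpQ
        have hpq : p = q t := (Nat.prime_dvd_prime_iff_eq hp (hqp t)).1 hpt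
        rw [mul_zero, zero_add] at hd
        have hd' : q t ∣ r + H' g i := by rw [← hpq]; exact_mod_cast hd
        have h1 := hr' t htU
        have hne : H' g i ≠ t := (mem_filter.1 htU).2 g i
        have htM : t ≤ M := by
          have := (mem_filter.1 htU).1
          rw [mem_range] at this; omega
        have h2 : (q t : ℤ) ∣ (H' g i : ℤ) - t := by
          have h3 : (q t : ℤ) ∣ ((r + H' g i : ℕ) : ℤ) - ((r + t : ℕ) : ℤ) :=
            dvd_sub (by exact_mod_cast hd') (by exact_mod_cast h1)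
          push_cast at h3
          have e : (r : ℤ) + H' g i - (r + t) = H' g i - t := by ring
          rwa [e] at h3
        have h4 : |(H' g i : ℤ) - t| < q t := by
          have := hqM t
          have h5 := hM g i
          rw [abs_lt]
          constructor <;> omega
        have h6 := Int.eq_zero_of_abs_lt_dvd h2 h4
        omega
      · obtain ⟨n₀, hn₀⟩ := hH.2 p hp hpN
        have hpQ' : ¬ p ∣ Q := fun h => (hp.dvd_mul.1 h).elim hpQ hpN
        have hcop : IsCoprime (Q : ℤ) (p : ℤ) := by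
          rw [Nat.isCoprime_iff_coprime]
          exact ((Nat.Prime.coprime_iff_not_dvd hp).2 hpQ').symm
        obtain ⟨u, v, huv⟩ := hcop
        refine ⟨u * (N * n₀ - r), fun g i hd => ?_⟩
        have hd2 : (p : ℤ) ∣ N * (n₀ + H g i) := by
          have e : (N : ℤ) * (n₀ + H g i) = ((Q : ℤ) * (u * (N * n₀ - r)) + ((r + H' g i : ℕ) : ℤ)) +
              p * (v * (N * n₀ - r)) := by
            simp only [hH']
            push_cast
            linear_combination (-(N * n₀ - (r : ℤ))) * huv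
          rw [e]
          exact dvd_add hd (dvd_mul_right _ _)
        rcases (Nat.prime_iff_prime_int.1 hp).dvd_or_dvd hd2 with h1 | h1
        · exact hpN (by exact_mod_cast h1)
        · exact hn₀ g i h1
  obtain ⟨E, hE, hnar⟩ := hQ (fun g i => ((Q : ℤ), ((r + H' g i : ℕ) : ℤ)))
    (by
      intro x y hxy
      apply hinjH'
      simp only [Prod.mk.injEq, Nat.cast_inj, true_and] at hxy
      exact Nat.add_left_cancel hxy)
    (fun g i => ⟨by
      show (0 : ℤ) < (Q : ℤ)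
      exact_mod_cast hQ0, coprime_of_adm fun p hp => by
        obtain ⟨m, hm⟩ := hadm p hp
        exact ⟨m, hm g i⟩⟩)
    (fun p hp _ => hadm p hp)
  refine ⟨Q, r, M, E, hQ0, Dvd.intro_left _ rfl, hrN, hM, hE, ?_⟩
  have hnar' : Nar (fun m => ∀ g i, ((Q : ℤ) * (m : ℤ) + ((r + H' g i : ℕ) : ℤ)).toNat.Prime ↔
      (g, i) ∈ E) := by
    intro l
    obtain ⟨C, hC⟩ := hnar l
    refine ⟨C, hC.mono ?_⟩
    rintro N' ⟨d, h1, h2, h3⟩
    refine ⟨d, h1, h2, h3.trans (le_of_eq ?_)⟩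
    unfold cntE
    congr!
  refine hnar'.ge_two.mono ?_
  rintro m ⟨hm, hm2⟩
  have e1 : ∀ g i, ((Q : ℤ) * (m : ℤ) + ((r + H' g i : ℕ) : ℤ)).toNat = Q * m + r + N * H g i := by
    intro g i
    have : ((Q : ℤ) * (m : ℤ) + ((r + H' g i : ℕ) : ℤ)) = ((Q * m + r + N * H g i : ℕ) : ℤ) := by
      simp only [hH']
      push_cast
      ring
    rw [this, Int.toNat_natCast]
  refine ⟨fun g i => ?_, ?_⟩
  · rw [← hm g i, e1]
  · intro t ht hne hpr
    have htU : t ∈ U := by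
      rw [hU, mem_filter, mem_range]; exact ⟨by omega, hne⟩
    have hqr := hr' t htU
    have hqQ : q t ∣ Q := (dvd_prod_of_mem q htU).mul_right N
    have h1 : q t ∣ Q * m + r + t := by
      rw [add_assoc]
      exact dvd_add (hqQ.mul_right m) hqr
    have h2 : q t = Q * m + r + t := (Nat.prime_dvd_prime_iff_eq (hqp t) hpr).1 h1
    have h3 : q t ≤ Q := Nat.le_of_dvd hQ0 hqQ
    have h4 := (hqp t).pos
    nlinarith

open Classical in
/-- the blocks of primes with the exact pattern `B` in `[n, n + D]` -/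
def Blk (J q a D : ℕ) : Prop := ∃ B : Finset ℕ, 0 ∈ B ∧ D ∈ B ∧ (∀ t ∈ B, t ≤ D) ∧ B.card ≤ J ∧
  Nar (fun n => n ≡ a [MOD q] ∧ ∀ t ≤ D, ((n + t).Prime ↔ t ∈ B))

open Classical in
theorem blk_of {n K N a Q r M : ℕ} (hN : 0 < N) (H : Fin n → Fin K → ℕ)
    (hHinj : ∀ (g g' : Fin n) (i i' : Fin K), H g i = H g' i' → g = g' ∧ i = i') (hQ : 0 < Q)
    (hNQ : N ∣ Q) (hr : r ≡ a [MOD N]) (hM : ∀ g i, N * H g i ≤ M)
    {E : Finset (Fin n × Fin K)} (hnar : Nar (fun m => (∀ g i, (Q * m + r + N * H g i).Prime ↔ (g, i) ∈ E) ∧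
        ∀ t ≤ M, (∀ g i, N * H g i ≠ t) → ¬ (Q * m + r + t).Prime))
    {g g' : Fin n} {i i' : Fin K} (hlt : H g i < H g' i') (h1 : (g, i) ∈ E) (h2 : (g', i') ∈ E) :
    Blk (n * K) N a (N * (H g' i' - H g i)) := by
  have hle : N * H g i ≤ N * H g' i' := Nat.mul_le_mul_left _ hlt.le
  set b₀ : ℕ := N * H g i with hb₀
  set D : ℕ := N * (H g' i' - H g i) with hD
  have hDe : b₀ + D = N * H g' i' := by
    rw [hD, hb₀, Nat.mul_sub]
    omega
  have hDs : N * H g' i' - b₀ = D := by rw [← hDe, Nat.add_sub_cancel_left]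
  set E' : Finset (Fin n × Fin K) := E.filter (fun x => b₀ ≤ N * H x.1 x.2 ∧
    N * H x.1 x.2 ≤ b₀ + D) with hE'
  refine ⟨E'.image (fun x => N * H x.1 x.2 - b₀), ?_, ?_, ?_, ?_, ?_⟩
  · refine mem_image.2 ⟨(g, i), mem_filter.2 ⟨h1, le_rfl, Nat.le_add_right _ _⟩, ?_⟩
    show N * H g i - b₀ = 0
    rw [← hb₀, Nat.sub_self]
  · refine mem_image.2 ⟨(g', i'), mem_filter.2 ⟨h2, hle, by rw [hDe]⟩, ?_⟩
    exact hDs
  · intro t ht
    obtain ⟨x, hx, rfl⟩ := mem_image.1 ht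
    have := (mem_filter.1 hx).2
    omega
  · refine card_image_le.trans ((card_filter_le _ _).trans ((card_le_univ _).trans (le_of_eq ?_)))
    rw [Fintype.card_prod, Fintype.card_fin, Fintype.card_fin]
  · refine Nar.affine (q := Q) (b := r + b₀) hQ (hnar.mono ?_)
    rintro m ⟨hm1, hm2⟩
    refine ⟨?_, fun t ht => ?_⟩
    · have h4 : Q * m ≡ 0 [MOD N] := (Nat.modEq_zero_iff_dvd).2 (hNQ.mul_right m)
      have h5 : b₀ ≡ 0 [MOD N] := (Nat.modEq_zero_iff_dvd).2 (Dvd.intro _ rfl)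
      have h6 := h4.add (hr.add h5)
      simpa using h6
    · have e1 : Q * m + (r + b₀) + t = Q * m + r + (b₀ + t) := by ring
      rw [e1]
      constructor
      · intro hp
        by_contra hnot
        apply hm2 (b₀ + t) (by have := hM g' i'; omega) _ hp
        intro g₁ i₁ he
        apply hnot
        refine mem_image.2 ⟨(g₁, i₁), mem_filter.2 ⟨?_, ?_, ?_⟩, ?_⟩
        · rw [← hm1 g₁ i₁, he]; exact hp
        · show b₀ ≤ N * H g₁ i₁
          omega
        · show N * H g₁ i₁ ≤ b₀ + D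
          omega
        · show N * H g₁ i₁ - b₀ = t
          omega
      · intro ht'
        obtain ⟨x, hx, hxt⟩ := mem_image.1 ht'
        obtain ⟨hx1, hx2, hx3⟩ := mem_filter.1 hx
        have h3 := (hm1 x.1 x.2).2 hx1
        have h4 : N * H x.1 x.2 = b₀ + t := by omega
        rw [← h4]
        exact h3

theorem winE (ε : ℝ) (hε : 0 < ε) : ∃ J : ℕ, ∀ (q a : ℕ), 0 < q → a.Coprime q →
    ∃ M : ℕ, 0 < M ∧ ∀ N : ℕ, 0 < N → M ∣ N → ∃ L : ℕ, ∀ T : ℕ, L ≤ T → ∀ u : ℕ,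
      (5 / 9 - ε) * T ≤
        ({k : ℕ | u < k ∧ k ≤ u + T ∧ N * k ∈ {D : ℕ | Blk J q a (q * D)}}.ncard : ℝ) := by
  classical
  obtain ⟨lam, hlam⟩ : ∃ lam : ℝ, lam = 18 / 5 := ⟨_, rfl⟩
  rw [show (5 / 9 : ℝ) = 2 / lam by rw [hlam]; norm_num]
  obtain ⟨β, hβ⟩ : ∃ β : ℝ, β = 1 / lam := ⟨_, rfl⟩
  have h4 : 0 < lam := by linarith
  have hβ5 : 1 / 5 ≤ β := by
    rw [hβ, div_le_div_iff₀ (by norm_num) h4]; linarith
  have hβ2 : β ≤ 1 / 2 := by
    rw [hβ, div_le_div_iff₀ h4 (by norm_num)]; linarith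
  have hβc : 2 / lam = 2 * β := by rw [hβ]; ring
  obtain ⟨n₀, hn₀⟩ := s_maiB β hβ5 hβ2 ε hε
  obtain ⟨n, hn⟩ : ∃ n, n = max n₀ 1 := ⟨_, rfl⟩
  have hnn₀ : n₀ ≤ n := by omega
  have hn1 : 1 ≤ n := by omega
  have hn1' : (1 : ℝ) ≤ n := by exact_mod_cast hn1
  -- the number of classes
  obtain ⟨M', hM'⟩ : ∃ M', M' = ⌈β * n⌉₊ - 1 := ⟨_, rfl⟩
  have hβn : 0 < β * n := by positivity
  have hceil : 0 < ⌈β * n⌉₊ := Nat.ceil_pos.2 hβn
  have hM'1 : M' + 1 = ⌈β * n⌉₊ := by omega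
  have hM'lt : (M' : ℝ) < β * n := by
    have h := Nat.ceil_lt_add_one hβn.le
    have h2 : ((M' + 1 : ℕ) : ℝ) = (⌈β * n⌉₊ : ℝ) := by rw [hM'1]
    push_cast at h2
    linarith
  have hM'n : lam * M' < n := by
    have h : lam * M' < lam * (β * n) := mul_lt_mul_of_pos_left hM'lt h4
    have e : lam * (β * n) = n := by rw [hβ]; field_simp
    linarith
  obtain ⟨K, hK, hQ⟩ := blockE n M' hn1 (by rw [← hlam]; exact hM'n)
  refine ⟨n * K, fun q a hq ha => ?_⟩
  obtain ⟨M, hM, hall⟩ := windows {D : ℕ | Blk (n * K) q a (q * D)} (n * K).factorial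
    (Nat.factorial_pos _) (2 * β) ε
    (fun hall => by
      obtain ⟨Q, A, s, hs, hQ1, hinj, hcr⟩ := hn₀ n hnn₀
        {k : ℤ | (((n * K).factorial : ℕ) : ℤ) * k ∈ Cpl {D : ℕ | Blk (n * K) q a (q * D)}}
        (fun M hM => by
          obtain ⟨Q, h1, h2, h3⟩ := hall M hM
          exact ⟨Q, h1, h2, fun L₀ => h3 L₀⟩) (n * K)
      -- distinct points
      obtain ⟨σ, hσ1, hσ2⟩ := select_aux n K (fun g i => (Q g : ℤ) * A g i) (fun g => by
        intro x hx y hy hxy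
        have hQ0 : (Q g : ℤ) ≠ 0 := by have := hQ1 g; omega
        exact hinj g hx hy (mul_left_cancel₀ hQ0 hxy)) n le_rfl
      obtain ⟨H, C, hH⟩ := points n K (n * K).factorial Q (fun g i => A g (σ g i))
      have hM0 : (((n * K).factorial : ℕ) : ℤ) ≠ 0 := by exact_mod_cast (Nat.factorial_pos (n * K)).ne'
      have hHinj : ∀ (g g' : Fin n) (i i' : Fin K), H g i = H g' i' → g = g' ∧ i = i' := by
        intro g g' i i' h
        have e : (((n * K).factorial : ℕ) : ℤ) * (Q g * A g (σ g i) + C) =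
            ((n * K).factorial : ℕ) * (Q g' * A g' (σ g' i') + C) := by rw [← hH, ← hH, h]
        have e1 := mul_left_cancel₀ hM0 e
        have e2 : (Q g : ℤ) * A g (σ g i) = Q g' * A g' (σ g' i') := by linarith
        have e3 := hσ2 g g.2 g' g'.2 i i.2 i' i'.2 e2
        exact ⟨Fin.ext e3.1, Fin.ext e3.2⟩
      have hadm : AdmN q H := by
        refine admN_of' H (fun x y h => ?_) fun p hp hle g i => ?_
        · have := hHinj x.1 y.1 x.2 y.2 h
          exact Prod.ext this.1 this.2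
        · rw [hH]
          exact Dvd.dvd.mul_right (Int.natCast_dvd_natCast.2 (Nat.dvd_factorial hp.pos hle)) _
      obtain ⟨Qm, r, M, E, hQm, hNQ, hr, hM, hS, hB⟩ := hQ q a hq ha H hadm
      obtain ⟨i, hi, j, hj, hij⟩ := hs.2 ((E.image Prod.fst).map Fin.valEmbedding) (fun x hx => by
        rw [Finset.mem_map] at hx
        obtain ⟨y, _, rfl⟩ := hx
        exact mem_range.2 y.2) (by
          rw [card_map]
          refine (Nat.le_ceil _).trans ?_
          rw [← hM'1]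
          exact_mod_cast hS)
      rw [Finset.mem_map] at hi hj
      obtain ⟨i', hi', rfl⟩ := hi
      obtain ⟨j', hj', rfl⟩ := hj
      obtain ⟨⟨g, ci⟩, hgE, hgi⟩ := mem_image.1 hi'
      obtain ⟨⟨g', cj⟩, hgE', hgj⟩ := mem_image.1 hj'
      simp only at hgi hgj
      subst hgi hgj
      have hd := hcr g' g'.2 g hij (σ g' cj) (σ g ci) (hσ1 _ g'.2 _ cj.2) (hσ1 _ g.2 _ ci.2)
      have h := not_Cpl C (hH g' cj) (hH g ci) hd
      rcases lt_or_gt_of_ne h.1 with hlt | hlt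
      · exact h.2.1 hlt (blk_of hq H hHinj hQm hNQ hr hM hB hlt hgE' hgE)
      · exact h.2.2 hlt (blk_of hq H hHinj hQm hNQ hr hM hB hlt hgE hgE'))
  refine ⟨M, hM, fun N hN hd => ?_⟩
  obtain ⟨L, hL⟩ := hall N hN hd
  refine ⟨L, fun T hT u => le_trans ?_ (hL T hT u)⟩
  exact mul_le_mul_of_nonneg_right (by linarith) (Nat.cast_nonneg _)

theorem winE' (ε : ℝ) (hε : 0 < ε) :
    ∃ J : ℕ, ∀ (q a : ℕ), 0 < q → a.Coprime q →
    ∃ M : ℕ, 0 < M ∧ ∀ N : ℕ, 0 < N → M ∣ N → ∃ L : ℕ, ∀ T : ℕ, L ≤ T → ∀ u : ℕ,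
      (5 / 9 - ε) * T ≤ ({k : ℕ | u < k ∧ k ≤ u + T ∧ Blk J q a (N * k)}.ncard : ℝ) := by
  obtain ⟨J, hJ⟩ := winE ε hε
  refine ⟨J, fun q a hq ha => ?_⟩
  obtain ⟨M, hM, h⟩ := hJ q a hq ha
  refine ⟨q * M, Nat.mul_pos hq hM, fun N hN hd => ?_⟩
  obtain ⟨t, rfl⟩ := hd
  have ht : 0 < t := Nat.pos_of_ne_zero (by rintro rfl; simp at hN)
  obtain ⟨L, hL⟩ := h (M * t) (Nat.mul_pos hM ht) (Dvd.intro _ rfl)
  refine ⟨L, fun T hT u => (hL T hT u).trans (le_of_eq ?_)⟩
  congr 2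
  ext k
  simp only [Set.mem_setOf_eq]
  have e : q * M * t * k = q * (M * t * k) := by ring
  rw [e]

end Pool.Agent.Y827.RO
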